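import Mathlib

/-!
Cauchy's theorem and Cauchy's formula on vertical lines for functions of Hardy class on the
right half-plane.
-/

set_option autoImplicit false

open Filter Topology Set MeasureTheory Complex
open scoped ENNReal Real ComplexConjugate

namespace Pool.Agent.Lib.MP_e968d9_an

/-- The right half-plane. -/
abbrev RHP : Set ℂ := {z : ℂ | 0 < z.re}

lemma isOpen_RHP : IsOpen RHP := isOpen_lt continuous_const continuous_re

lemma convex_RHP : Convex ℝ RHP := convex_halfSpace_re_gt 0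

/-- The square of the Hardy norm. -/
noncomputable def N (f : ℂ → ℂ) : ℝ≥0∞ :=
  ⨆ (x : ℝ) (_ : 0 < x), ∫⁻ y : ℝ, (‖f ((x : ℂ) + (y : ℂ) * Complex.I)‖₊ : ENNReal) ^ 2

/-- Real form of a bound for the Hardy norm. -/
def L2b (F : ℂ → ℂ) (M : ℝ) : Prop :=
  ∀ x : ℝ, 0 < x → Integrable (fun y : ℝ => ‖F (x + y * I)‖ ^ 2) ∧ ∫ y : ℝ, ‖F (x + y * I)‖ ^ 2 ≤ M

lemma N_congr {f g : ℂ → ℂ} (h : ∀ z ∈ RHP, f z = g z) : N f = N g := by
  unfold N
  refine iSup_congr fun x => iSup_congr fun hx => ?_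
  refine lintegral_congr fun y => ?_
  rw [h _ (by simpa using hx)]

lemma continuous_line {F : ℂ → ℂ} {s : Set ℂ} (hF : ContinuousOn F s) {x : ℝ}
    (hx : ∀ y : ℝ, (x : ℂ) + y * I ∈ s) : Continuous fun y : ℝ => F (x + y * I) :=
  hF.comp_continuous (by fun_prop) hx

lemma line_mem {x : ℝ} (hx : 0 < x) (y : ℝ) : (x : ℂ) + y * I ∈ RHP := by simpa using hx

lemma nnnorm_sq_eq (z : ℂ) : (‖z‖₊ : ℝ≥0∞) ^ 2 = ENNReal.ofReal (‖z‖ ^ 2) := by
  rw [ENNReal.ofReal_pow (norm_nonneg z), ofReal_norm]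
  rfl

lemma L2b.N_le {F : ℂ → ℂ} {M : ℝ} (h : L2b F M) : N F ≤ ENNReal.ofReal M := by
  refine iSup₂_le fun x hx => ?_
  simp_rw [nnnorm_sq_eq]
  rw [← ofReal_integral_eq_lintegral_ofReal (h x hx).1 (Eventually.of_forall fun y => by positivity)]
  exact ENNReal.ofReal_le_ofReal (h x hx).2

lemma L2b_of_N_le {F : ℂ → ℂ} (hF : ContinuousOn F RHP) {M : ℝ} (hM : 0 ≤ M)
    (h : N F ≤ ENNReal.ofReal M) : L2b F M := by
  intro x hx
  have h1 : ∫⁻ y : ℝ, ENNReal.ofReal (‖F (x + y * I)‖ ^ 2) ≤ ENNReal.ofReal M := by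
    simp_rw [← nnnorm_sq_eq]
    exact le_trans (le_iSup₂_of_le (f := fun (x : ℝ) (_ : 0 < x) =>
      ∫⁻ y : ℝ, (‖F ((x : ℂ) + (y : ℂ) * Complex.I)‖₊ : ENNReal) ^ 2) x hx le_rfl) h
  have hc : Continuous fun y : ℝ => ‖F (x + y * I)‖ ^ 2 :=
    (continuous_line hF (line_mem hx)).norm.pow 2
  have hi : Integrable (fun y : ℝ => ‖F (x + y * I)‖ ^ 2) := by
    rw [← lintegral_ofReal_ne_top_iff_integrable hc.aestronglyMeasurable
      (Eventually.of_forall fun y => by positivity)]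
    exact ne_top_of_le_ne_top ENNReal.ofReal_ne_top h1
  refine ⟨hi, ?_⟩
  rw [← ofReal_integral_eq_lintegral_ofReal hi (Eventually.of_forall fun y => by positivity)] at h1
  exact (ENNReal.ofReal_le_ofReal_iff hM).1 h1

lemma L2b_toReal {F : ℂ → ℂ} (hF : ContinuousOn F RHP) (h : N F < ⊤) : L2b F (N F).toReal :=
  L2b_of_N_le hF ENNReal.toReal_nonneg (by rw [ENNReal.ofReal_toReal h.ne])

lemma integrable_lor {s : ℝ} (hs : s ≠ 0) (t : ℝ) :
    Integrable fun y : ℝ => (s ^ 2 + (y - t) ^ 2)⁻¹ := by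
  have h1 : Integrable fun y : ℝ => (s ^ 2)⁻¹ * (1 + (y / s) ^ 2)⁻¹ :=
    (integrable_inv_one_add_sq.comp_div hs).const_mul _
  have h2 := h1.comp_sub_right t
  refine h2.congr (Eventually.of_forall fun y => ?_)
  simp only
  field_simp

lemma integral_lor {s : ℝ} (hs : s ≠ 0) (t : ℝ) :
    ∫ y : ℝ, (s ^ 2 + (y - t) ^ 2)⁻¹ = π / |s| := by
  have h1 : (fun y : ℝ => (s ^ 2 + (y - t) ^ 2)⁻¹) =
      fun y : ℝ => (fun u : ℝ => (s ^ 2)⁻¹ * (1 + (u / s) ^ 2)⁻¹) (y - t) := by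
    funext y
    simp only
    field_simp
  rw [h1, integral_sub_right_eq_self (fun u : ℝ => (s ^ 2)⁻¹ * (1 + (u / s) ^ 2)⁻¹) t,
    integral_const_mul, Measure.integral_comp_div (fun u : ℝ => (1 + u ^ 2)⁻¹) s,
    integral_univ_inv_one_add_sq, smul_eq_mul, ← sq_abs s]
  have : |s| ≠ 0 := abs_ne_zero.2 hs
  field_simp

lemma norm_inv_sq (s y : ℝ) (p : ℂ) :
    ‖((s : ℂ) + y * I - p)⁻¹‖ ^ 2 = ((s - p.re) ^ 2 + (y - p.im) ^ 2)⁻¹ := by
  rw [norm_inv, inv_pow, ← Complex.normSq_eq_norm_sq, Complex.normSq_apply]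
  simp [sq]

lemma integrable_inv_sq {s : ℝ} {p : ℂ} (h : s ≠ p.re) :
    Integrable fun y : ℝ => ‖((s : ℂ) + y * I - p)⁻¹‖ ^ 2 := by
  simp_rw [norm_inv_sq]
  exact integrable_lor (sub_ne_zero.2 h) _

lemma integral_inv_sq {s : ℝ} {p : ℂ} (h : s ≠ p.re) :
    ∫ y : ℝ, ‖((s : ℂ) + y * I - p)⁻¹‖ ^ 2 = π / |s - p.re| := by
  simp_rw [norm_inv_sq]
  exact integral_lor (sub_ne_zero.2 h) _

lemma vertical_shift {G : ℂ → ℂ} {a b : ℝ} (hab : a ≤ b)
    (hG : DifferentiableOn ℂ G {z : ℂ | a ≤ z.re})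
    (ha : Integrable fun y : ℝ => G (a + y * I)) (hb : Integrable fun y : ℝ => G (b + y * I))
    {Y₀ K : ℝ} {g : ℝ → ℝ → ℝ} (hg : ∀ s, a ≤ s → Integrable (g s) ∧ ∫ y, g s y ≤ K ∧
      (∀ y, 0 ≤ g s y) ∧ ∀ y : ℝ, Y₀ < |y| → ‖G (s + y * I)‖ ≤ g s y) :
    ∫ y : ℝ, G (a + y * I) = ∫ y : ℝ, G (b + y * I) := by
  by_contra hne
  set Δ : ℂ := (∫ y : ℝ, G (b + y * I)) - ∫ y : ℝ, G (a + y * I) with hΔ
  have hΔ0 : 0 < ‖Δ‖ := norm_pos_iff.2 (sub_ne_zero.2 (Ne.symm hne))
  have hlim : Tendsto (fun Y : ℝ => (∫ y in (-Y)..Y, G (b + y * I)) - ∫ y in (-Y)..Y, G (a + y * I))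
      atTop (𝓝 Δ) :=
    (intervalIntegral_tendsto_integral hb tendsto_neg_atTop_atBot tendsto_id).sub
      (intervalIntegral_tendsto_integral ha tendsto_neg_atTop_atBot tendsto_id)
  have hev : ∀ᶠ Y : ℝ in atTop, ‖Δ‖ / 2 <
      ‖(∫ y in (-Y)..Y, G (b + y * I)) - ∫ y in (-Y)..Y, G (a + y * I)‖ :=
    hlim.norm.eventually (lt_mem_nhds (by linarith))
  obtain ⟨Y₁, hY₁⟩ := eventually_atTop.1 (hev.and ((eventually_gt_atTop Y₀).and
    (eventually_gt_atTop 0)))
  have hcont : ContinuousOn G {z : ℂ | a ≤ z.re} := hG.continuousOn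
  -- lower bound for the horizontal sides
  have hlow : ∀ Y : ℝ, Y₁ ≤ Y → ENNReal.ofReal (‖Δ‖ / 2) ≤
      ∫⁻ s in Ioc a b, (‖G (s + Y * I)‖ₑ + ‖G (s + (-Y : ℝ) * I)‖ₑ) := by
    intro Y hY
    have h1 := integral_boundary_rect_eq_zero_of_differentiableOn G (a + (-Y : ℝ) * I)
      (b + Y * I) (hG.mono fun z hz => by
        have := hz.1
        simp only [add_re, ofReal_re, mul_re, I_re, mul_zero, ofReal_im, I_im, mul_one, sub_self,
          add_zero, uIcc_of_le hab, mem_preimage] at this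
        exact this.1)
    simp only [add_re, ofReal_re, mul_re, I_re, mul_zero, ofReal_im, I_im, mul_one, sub_self,
      add_zero, add_im, mul_im, zero_add, smul_eq_mul] at h1
    have h2 : I * ((∫ y in (-Y)..Y, G (b + y * I)) - ∫ y in (-Y)..Y, G (a + y * I)) =
        (∫ s in a..b, G (s + Y * I)) - ∫ s in a..b, G (s + (-Y : ℝ) * I) := by
      linear_combination h1
    have h3 : ‖Δ‖ / 2 ≤ ‖∫ s in a..b, G (s + Y * I)‖ + ‖∫ s in a..b, G (s + (-Y : ℝ) * I)‖ := by
      refine le_trans (hY₁ Y hY).1.le (le_trans ?_ (norm_sub_le _ _))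
      rw [← h2, norm_mul, norm_I, one_mul]
    have hm : AEMeasurable (fun s : ℝ => ‖G (s + Y * I)‖ₑ) (volume.restrict (Ioc a b)) := by
      refine (ContinuousOn.aemeasurable ?_ measurableSet_Ioc).enorm
      exact hcont.comp (by fun_prop) fun s hs => by simpa using hs.1.le
    rw [lintegral_add_left' hm]
    refine le_trans (ENNReal.ofReal_le_ofReal h3) ?_
    rw [ENNReal.ofReal_add (norm_nonneg _) (norm_nonneg _), ofReal_norm,
      ofReal_norm, intervalIntegral.integral_of_le hab, intervalIntegral.integral_of_le hab]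
    exact add_le_add (enorm_integral_le_lintegral_enorm _) (enorm_integral_le_lintegral_enorm _)
  have hup : ∀ s ∈ Ioc a b, ∫⁻ Y in Ioi Y₁, (‖G (s + Y * I)‖ₑ + ‖G (s + (-Y : ℝ) * I)‖ₑ) ≤
      ENNReal.ofReal K + ENNReal.ofReal K := by
    intro s hs
    obtain ⟨hg1, hg2, hg3, hg4⟩ := hg s hs.1.le
    have h1 : ∫⁻ y, ENNReal.ofReal (g s y) ≤ ENNReal.ofReal K := by
      rw [← ofReal_integral_eq_lintegral_ofReal hg1 (Eventually.of_forall hg3)]
      exact ENNReal.ofReal_le_ofReal hg2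
    have h2 : ∫⁻ y, ENNReal.ofReal (g s (-y)) ≤ ENNReal.ofReal K := by
      rw [lintegral_neg_eq_self (fun y => ENNReal.ofReal (g s y))]
      exact h1
    calc ∫⁻ Y in Ioi Y₁, (‖G (s + Y * I)‖ₑ + ‖G (s + (-Y : ℝ) * I)‖ₑ)
        ≤ ∫⁻ Y in Ioi Y₁, (ENNReal.ofReal (g s Y) + ENNReal.ofReal (g s (-Y))) := by
          refine setLIntegral_mono' measurableSet_Ioi fun Y hY => ?_
          have hY' := (hY₁ Y (le_of_lt hY)).2
          have e1 : Y₀ < |Y| := by rw [abs_of_pos hY'.2]; exact hY'.1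
          have e2 : Y₀ < |-Y| := by rwa [abs_neg]
          rw [← ofReal_norm, ← ofReal_norm]
          exact add_le_add (ENNReal.ofReal_le_ofReal (hg4 Y e1))
            (ENNReal.ofReal_le_ofReal (hg4 (-Y) e2))
      _ ≤ ∫⁻ Y, (ENNReal.ofReal (g s Y) + ENNReal.ofReal (g s (-Y))) :=
          setLIntegral_le_lintegral _ _
      _ ≤ _ := by
          rw [lintegral_add_left' hg1.aemeasurable.ennreal_ofReal]
          exact add_le_add h1 h2
  have hmeas : AEMeasurable (Function.uncurry fun (Y s : ℝ) =>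
      (‖G (s + Y * I)‖ₑ + ‖G (s + (-Y : ℝ) * I)‖ₑ))
      ((volume.restrict (Ioi Y₁)).prod (volume.restrict (Ioc a b))) := by
    rw [Measure.prod_restrict]
    have hs : MeasurableSet (Ioi Y₁ ×ˢ Ioc a b) := measurableSet_Ioi.prod measurableSet_Ioc
    refine AEMeasurable.add (ContinuousOn.aemeasurable ?_ hs).enorm
      (ContinuousOn.aemeasurable ?_ hs).enorm
    · exact hcont.comp (f := fun p : ℝ × ℝ => (p.2 : ℂ) + p.1 * I) (by fun_prop)
        fun p hp => by simpa using hp.2.1.le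
    · exact hcont.comp (f := fun p : ℝ × ℝ => (p.2 : ℂ) + (-p.1 : ℝ) * I) (by fun_prop)
        fun p hp => by simpa using hp.2.1.le
  have hfin : ∫⁻ Y in Ioi Y₁, ENNReal.ofReal (‖Δ‖ / 2) ≤
      ∫⁻ _ in Ioc a b, (ENNReal.ofReal K + ENNReal.ofReal K) :=
    calc ∫⁻ Y in Ioi Y₁, ENNReal.ofReal (‖Δ‖ / 2)
        ≤ ∫⁻ Y in Ioi Y₁, ∫⁻ s in Ioc a b, (‖G (s + Y * I)‖ₑ + ‖G (s + (-Y : ℝ) * I)‖ₑ) :=
          setLIntegral_mono' measurableSet_Ioi fun Y hY => hlow Y (le_of_lt hY)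
      _ = ∫⁻ s in Ioc a b, ∫⁻ Y in Ioi Y₁, (‖G (s + Y * I)‖ₑ + ‖G (s + (-Y : ℝ) * I)‖ₑ) :=
          lintegral_lintegral_swap hmeas
      _ ≤ _ := setLIntegral_mono' measurableSet_Ioc hup
  rw [setLIntegral_const, setLIntegral_const, Real.volume_Ioi, Real.volume_Ioc,
    ENNReal.mul_top (by simpa using hΔ0), top_le_iff] at hfin
  exact ENNReal.mul_ne_top (ENNReal.add_ne_top.2 ⟨ENNReal.ofReal_ne_top, ENNReal.ofReal_ne_top⟩)
    ENNReal.ofReal_ne_top hfin

lemma amgm {u v t : ℝ} (ht : 0 < t) : u * v ≤ t / 2 * u ^ 2 + 1 / (2 * t) * v ^ 2 := by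
  have : t / 2 * u ^ 2 + 1 / (2 * t) * v ^ 2 - u * v = (t * u - v) ^ 2 / (2 * t) := by
    field_simp
    ring
  have h2 : 0 ≤ (t * u - v) ^ 2 / (2 * t) := by positivity
  linarith

lemma line_integral_eq_zero {F G : ℂ → ℂ} {M : ℝ} (hF : L2b F M) {x : ℝ} (hx : 0 < x) {c : ℂ}
    (hc : x ≠ c.re) {B : ℝ} (hB : 0 ≤ B) (hG : DifferentiableOn ℂ G {z : ℂ | x ≤ z.re})
    (hb : ∀ z : ℂ, x ≤ z.re → z ≠ c → ‖G z‖ ≤ ‖F z‖ * ‖(z - c)⁻¹‖ + B * ‖(z - c)⁻¹‖ ^ 2) :
    ∫ y : ℝ, G (x + y * I) = 0 := by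
  have hM : 0 ≤ M := le_trans (integral_nonneg fun y => by positivity) (hF x hx).2
  have hbt : ∀ t : ℝ, 0 < t → ∀ s : ℝ, x ≤ s → s ≠ c.re → ∀ y : ℝ, ‖G (s + y * I)‖ ≤
      t / 2 * ‖F (s + y * I)‖ ^ 2 + (1 / (2 * t) + B) * ‖((s : ℂ) + y * I - c)⁻¹‖ ^ 2 := by
    intro t ht s hs hsc y
    have h1 := hb (s + y * I) (by simpa using hs) (fun h => hsc (by rw [← h]; simp))
    have h2 := amgm (u := ‖F (s + y * I)‖) (v := ‖((s : ℂ) + y * I - c)⁻¹‖) ht
    linarith
  have hint : ∀ s : ℝ, x ≤ s → s ≠ c.re → Integrable fun y : ℝ => G (s + y * I) := by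
    intro s hs hsc
    refine Integrable.mono' ((((hF s (hx.trans_le hs)).1).const_mul (1 / 2)).add
      ((integrable_inv_sq hsc).const_mul (1 / (2 * 1) + B))) ?_
      (Eventually.of_forall (hbt 1 one_pos s hs hsc))
    exact (continuous_line hG.continuousOn (fun y => by simpa using hs)).aestronglyMeasurable
  have hshift : ∀ b : ℝ, x ≤ b → b ≠ c.re →
      ∫ y : ℝ, G (x + y * I) = ∫ y : ℝ, G (b + y * I) := by
    intro b hxb hbc
    refine vertical_shift hxb hG (hint x le_rfl hc) (hint b hxb hbc) (Y₀ := |c.im| + 1)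
      (K := 1 / 2 * M + (1 + 2 * B) * (π / |1|))
      (g := fun s y => 1 / 2 * ‖F (s + y * I)‖ ^ 2 + (1 + 2 * B) * (1 ^ 2 + (y - c.im) ^ 2)⁻¹) ?_
    intro s hs
    have hs' := hF s (hx.trans_le hs)
    refine ⟨(hs'.1.const_mul _).add ((integrable_lor one_ne_zero _).const_mul _), ?_,
      fun y => by positivity, fun y hy => ?_⟩
    · rw [integral_add (hs'.1.const_mul _) ((integrable_lor one_ne_zero _).const_mul _),
        integral_const_mul, integral_const_mul, integral_lor one_ne_zero]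
      have := hs'.2
      linarith
    · have h1 : 1 ≤ |y - c.im| := by
        have := abs_sub_abs_le_abs_sub y c.im
        linarith
      have h2 : 1 ≤ (y - c.im) ^ 2 := by
        rw [← sq_abs]
        nlinarith
      have h3 := hb (s + y * I) (by simpa using hs) (fun h => by
        have : y = c.im := by rw [← h]; simp
        rw [this] at h1
        norm_num at h1)
      have h4 := amgm (u := ‖F (s + y * I)‖) (v := ‖((s : ℂ) + y * I - c)⁻¹‖) one_pos
      have h5 : ‖((s : ℂ) + y * I - c)⁻¹‖ ^ 2 ≤ 2 * (1 ^ 2 + (y - c.im) ^ 2)⁻¹ := by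
        rw [norm_inv_sq, ← div_eq_mul_inv, le_div_iff₀ (by positivity), inv_mul_le_iff₀
          (by positivity)]
        nlinarith [sq_nonneg (s - c.re)]
      have h6 := mul_le_mul_of_nonneg_left h5 hB
      linarith
  have hbound : ∀ t : ℝ, 0 < t → ‖∫ y : ℝ, G (x + y * I)‖ ≤ t / 2 * M := by
    intro t ht
    have hlim : Tendsto (fun b : ℝ => t / 2 * M + (1 / (2 * t) + B) * (π / |b - c.re|)) atTop
        (𝓝 (t / 2 * M + (1 / (2 * t) + B) * 0)) := by
      refine tendsto_const_nhds.add (tendsto_const_nhds.mul ?_)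
      exact tendsto_const_nhds.div_atTop (tendsto_abs_atTop_atTop.comp
        (tendsto_atTop_add_const_right _ (-c.re) tendsto_id))
    rw [mul_zero, add_zero] at hlim
    refine ge_of_tendsto hlim ?_
    filter_upwards [eventually_ge_atTop x, eventually_gt_atTop c.re] with b hxb hbc
    have hb' := hF b (hx.trans_le hxb)
    rw [hshift b hxb hbc.ne']
    refine le_trans (norm_integral_le_of_norm_le ((hb'.1.const_mul (t / 2)).add
      ((integrable_inv_sq hbc.ne').const_mul (1 / (2 * t) + B)))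
      (Eventually.of_forall (hbt t ht b hxb hbc.ne'))) ?_
    simp only [Pi.add_apply]
    rw [integral_add (hb'.1.const_mul _) ((integrable_inv_sq hbc.ne').const_mul _),
      integral_const_mul, integral_const_mul, integral_inv_sq hbc.ne']
    have := mul_le_mul_of_nonneg_left hb'.2 (by positivity : 0 ≤ t / 2)
    linarith
  rw [← norm_le_zero_iff]
  refine le_of_forall_pos_le_add fun ε hε => ?_
  have := hbound (ε / (M + 1)) (by positivity)
  refine le_trans this ?_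
  rw [zero_add, div_div, div_mul_eq_mul_div, div_le_iff₀ (by positivity)]
  nlinarith

/-- Cauchy's theorem on a vertical line. -/
theorem cauchy_zero {F : ℂ → ℂ} {M : ℝ} (hd : DifferentiableOn ℂ F RHP) (hF : L2b F M) {x : ℝ}
    (hx : 0 < x) {u : ℂ} (hu : 0 < u.re) : ∫ y : ℝ, F (x + y * I) * (y * I + u)⁻¹ = 0 := by
  have h := line_integral_eq_zero (G := fun z => F z * (z - (x - u))⁻¹) hF hx (c := x - u)
    (by simp; linarith) le_rfl ?_ ?_
  · rw [← h]
    congr 1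
    funext y
    congr 2
    ring
  · refine (hd.mono fun z hz => hx.trans_le hz).mul
      (DifferentiableOn.inv (by fun_prop) fun z hz h => ?_)
    have h1 := congrArg Complex.re h
    have h2 : x ≤ z.re := hz
    simp at h1
    linarith
  · intro z _ _
    simp

lemma integrable_mul_inv {F : ℂ → ℂ} {M : ℝ} (hd : ContinuousOn F RHP) (hF : L2b F M) {x : ℝ}
    (hx : 0 < x) {c : ℂ} (hc : x ≠ c.re) :
    Integrable fun y : ℝ => F (x + y * I) * ((x : ℂ) + y * I - c)⁻¹ := by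
  refine Integrable.mono' ((((hF x hx).1).const_mul (1 / 2)).add
      ((integrable_inv_sq hc).const_mul (1 / (2 * 1)))) ?_ (Eventually.of_forall fun y => ?_)
  · refine ((continuous_line hd (line_mem hx)).mul
      (Continuous.inv₀ (by fun_prop) fun y h => hc ?_)).aestronglyMeasurable
    have := congrArg Complex.re h
    simp at this
    linarith
  · rw [norm_mul]
    exact amgm one_pos

/-- Cauchy's formula on a vertical line. -/
theorem cauchy_repr {F : ℂ → ℂ} {M : ℝ} (hd : DifferentiableOn ℂ F RHP) (hF : L2b F M) {x : ℝ}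
    (hx : 0 < x) {v : ℂ} (hv : 0 < v.re) :
    ∫ y : ℝ, F (x + y * I) * (v - y * I)⁻¹ = 2 * π * F (x + v) := by
  set c : ℂ := x + v with hc
  set c' : ℂ := x - conj v with hc'
  have hcre : c.re = x + v.re := by simp [hc]
  have hcR : c ∈ RHP := by
    show 0 < c.re
    linarith
  have hxc : x ≠ c.re := by linarith
  have hne' : ∀ z : ℂ, x ≤ z.re → z - c' ≠ 0 := by
    intro z hz h
    have := congrArg Complex.re h
    simp [hc'] at this
    linarith
  have hform : ∀ z : ℂ, x ≤ z.re → z ≠ c → dslope F c z + F c * (z - c')⁻¹ =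
      F z * (z - c)⁻¹ - F c * (2 * v.re) * ((z - c)⁻¹ * (z - c')⁻¹) := by
    intro z hz hzc
    have h1 := hne' z hz
    have h2 : z - c ≠ 0 := sub_ne_zero.2 hzc
    have h3 : (2 * v.re : ℂ) = (z - c') - (z - c) := by
      rw [hc, hc']
      have := Complex.add_conj v
      push_cast at this
      linear_combination -this
    rw [dslope_of_ne _ hzc, slope_def_field, h3]
    field_simp
    ring
  have h := line_integral_eq_zero (G := fun z => dslope F c z + F c * (z - c')⁻¹) hF hx (c := c)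
    hxc (B := ‖F c‖ * (2 * v.re)) (by positivity) ?_ ?_
  · have h1 : ∀ y : ℝ, dslope F c (x + y * I) + F c * ((x : ℂ) + y * I - c')⁻¹ =
        F (x + y * I) * ((x : ℂ) + y * I - c)⁻¹ +
          F c * (2 * v.re) * ((‖((x : ℂ) + y * I - c)⁻¹‖ ^ 2 : ℝ) : ℂ) := by
      intro y
      rw [hform _ (by simp) (fun h => hxc (by rw [← h]; simp))]
      have h2 : ((x : ℂ) + y * I - c')⁻¹ = - conj (((x : ℂ) + y * I - c)⁻¹) := by
        rw [map_inv₀, ← inv_neg]
        congr 1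
        simp [hc, hc']
        ring
      rw [h2, mul_neg, Complex.mul_conj, Complex.normSq_eq_norm_sq]
      ring
    simp_rw [h1] at h
    have hi : Integrable fun y : ℝ => ((‖((x : ℂ) + y * I - c)⁻¹‖ ^ 2 : ℝ) : ℂ) :=
      (integrable_inv_sq hxc).ofReal
    rw [integral_add (integrable_mul_inv hd.continuousOn hF hx hxc) (hi.const_mul _),
      integral_const_mul, integral_complex_ofReal, integral_inv_sq hxc] at h
    have h2 : ∫ y : ℝ, F (x + y * I) * (v - y * I)⁻¹ =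
        - ∫ y : ℝ, F (x + y * I) * ((x : ℂ) + y * I - c)⁻¹ := by
      rw [← integral_neg]
      congr 1
      funext y
      rw [← mul_neg, ← inv_neg]
      congr 2
      rw [hc]
      ring
    have h3 : |x - c.re| = v.re := by
      rw [hcre, abs_of_neg (by linarith)]
      ring
    rw [h3] at h
    rw [h2]
    have h4 : (v.re : ℂ) ≠ 0 := by exact_mod_cast hv.ne'
    have h5 : F c * (2 * v.re) * ((π / v.re : ℝ) : ℂ) = 2 * π * F c := by
      push_cast
      field_simp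
    rw [h5] at h
    linear_combination -h
  · refine (((differentiableOn_dslope (isOpen_RHP.mem_nhds hcR)).2 hd).mono
      fun z hz => hx.trans_le hz).add ((differentiableOn_const _).mul
      (DifferentiableOn.inv (by fun_prop) fun z hz => hne' z hz))
  · intro z hz hzc
    rw [hform z hz hzc]
    refine le_trans (norm_sub_le _ _) ?_
    have h1 : ‖(z - c')⁻¹‖ ≤ ‖(z - c)⁻¹‖ := by
      rw [norm_inv, norm_inv]
      refine inv_anti₀ (norm_pos_iff.2 (sub_ne_zero.2 hzc)) ?_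
      rw [← sq_le_sq₀ (norm_nonneg _) (norm_nonneg _), ← Complex.normSq_eq_norm_sq,
        ← Complex.normSq_eq_norm_sq, Complex.normSq_apply, Complex.normSq_apply]
      simp [hc, hc']
      nlinarith
    have h2 : ‖(2 * v.re : ℂ)‖ = 2 * v.re := by
      rw [norm_mul, Complex.norm_real, Real.norm_of_nonneg hv.le]
      simp
    rw [norm_mul, norm_mul, norm_mul, h2, norm_mul, sq]
    gcongr

end Pool.Agent.Lib.MP_e968d9_an
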