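import Mathlib
import Pool.Agent.Lib.MP_e968d9_an.Cauchy

/-!
One-dimensional estimates for the length-area argument.
-/

set_option autoImplicit false

open Filter Topology Set MeasureTheory
open scoped ENNReal Real ComplexConjugate

namespace Pool.Agent.Lib.MP_e968d9_an

/-- The density of the cut-off logarithmic metric. -/
noncomputable def rho (e m s : ℝ) : ℝ := (s + e)⁻¹ - (s + m)⁻¹

/-- Half of a primitive of `rho`. -/
noncomputable def The (e m s : ℝ) : ℝ := 1 / 2 * (Real.log (s + e) - Real.log (s + m))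

lemma rho_nonneg {e m s : ℝ} (he : 0 < e) (hem : e ≤ m) (hs : 0 ≤ s) : 0 ≤ rho e m s :=
  sub_nonneg.2 (inv_anti₀ (by linarith) (by linarith))

lemma hasDerivAt_The {e m s : ℝ} (he : 0 < e) (hem : e ≤ m) (hs : 0 ≤ s) :
    HasDerivAt (The e m) (1 / 2 * rho e m s) s := by
  have h1 : HasDerivAt (fun s => Real.log (s + e)) (s + e)⁻¹ s := by
    simpa using ((hasDerivAt_id s).add_const e).log (by simp; linarith)
  have h2 : HasDerivAt (fun s => Real.log (s + m)) (s + m)⁻¹ s := by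
    simpa using ((hasDerivAt_id s).add_const m).log (by simp; linarith)
  exact (h1.sub h2).const_mul _

lemma tendsto_The {e m : ℝ} (he : 0 < e) (hem : e ≤ m) : Tendsto (The e m) atTop (𝓝 0) := by
  have h1 : Tendsto (fun s : ℝ => (s + e) / (s + m)) atTop (𝓝 1) := by
    have h2 : Tendsto (fun s : ℝ => 1 - (m - e) / (s + m)) atTop (𝓝 (1 - 0)) :=
      tendsto_const_nhds.sub (tendsto_const_nhds.div_atTop
        (tendsto_atTop_add_const_right _ m tendsto_id))
    rw [sub_zero] at h2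
    refine h2.congr' ?_
    filter_upwards [eventually_gt_atTop 0] with s hs
    have : s + m ≠ 0 := by linarith
    field_simp
    ring
  have h2 := ((Real.continuousAt_log one_ne_zero).tendsto.comp h1).const_mul (1 / 2)
  rw [Real.log_one, mul_zero] at h2
  refine h2.congr' ?_
  filter_upwards [eventually_gt_atTop 0] with s hs
  simp only [The, Function.comp]
  rw [Real.log_div (by linarith) (by linarith)]

lemma The_zero {e m : ℝ} (he : 0 < e) (hem : e ≤ m) :
    The e m 0 = -(1 / 2 * Real.log (m / e)) := by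
  simp only [The, zero_add]
  rw [Real.log_div (by linarith) he.ne']
  ring

lemma continuousOn_rho {e m : ℝ} (he : 0 < e) (hem : e ≤ m) : ContinuousOn (rho e m) (Ici 0) := by
  refine ContinuousOn.sub (ContinuousOn.inv₀ (by fun_prop) fun s hs => ?_)
    (ContinuousOn.inv₀ (by fun_prop) fun s hs => ?_)
  · have : 0 ≤ s := hs
    linarith
  · have : 0 ≤ s := hs
    linarith

lemma continuous_rho_norm {e m : ℝ} (he : 0 < e) (hem : e ≤ m) :
    Continuous fun w : ℂ => rho e m (‖w‖ ^ 2) :=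
  (continuousOn_rho he hem).comp_continuous (by fun_prop) fun w => by
    simp only [mem_Ici]
    positivity

lemma plane_integral {e m : ℝ} (he : 0 < e) (hem : e ≤ m) :
    ∫⁻ w : ℂ, ENNReal.ofReal (rho e m (‖w‖ ^ 2)) = ENNReal.ofReal (π * Real.log (m / e)) := by
  have hd : ∀ x ∈ Ici (0 : ℝ), HasDerivAt (fun r => The e m (r ^ 2)) (x * rho e m (x ^ 2)) x := by
    intro x _
    have := HasDerivAt.comp (h := fun r : ℝ => r ^ 2) x (hasDerivAt_The he hem (sq_nonneg x))
      (hasDerivAt_pow 2 x)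
    refine this.congr_deriv ?_
    simp
    ring
  have hpos : ∀ x ∈ Ioi (0 : ℝ), 0 ≤ x * rho e m (x ^ 2) := fun x hx =>
    mul_nonneg (le_of_lt hx) (rho_nonneg he hem (sq_nonneg x))
  have hlim : Tendsto (fun r : ℝ => The e m (r ^ 2)) atTop (𝓝 0) :=
    (tendsto_The he hem).comp (tendsto_pow_atTop two_ne_zero)
  have h1 : ∫⁻ r in Ioi (0 : ℝ), ENNReal.ofReal (r * rho e m (r ^ 2)) =
      ENNReal.ofReal (1 / 2 * Real.log (m / e)) := by
    rw [← ofReal_integral_eq_lintegral_ofReal (integrableOn_Ioi_deriv_of_nonneg' hd hpos hlim)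
      ((ae_restrict_iff' measurableSet_Ioi).2 (Eventually.of_forall hpos)),
      integral_Ioi_of_hasDerivAt_of_nonneg' hd hpos hlim]
    simp [The_zero he hem]
  rw [← Complex.lintegral_comp_polarCoord_symm, polarCoord_target]
  have h2 : ∫⁻ p in Ioi (0 : ℝ) ×ˢ Ioo (-π) π, ENNReal.ofReal p.1 •
      ENNReal.ofReal (rho e m (‖Complex.polarCoord.symm p‖ ^ 2)) =
      ∫⁻ p in Ioi (0 : ℝ) ×ˢ Ioo (-π) π, ENNReal.ofReal (p.1 * rho e m (p.1 ^ 2)) := by
    refine setLIntegral_congr_fun (measurableSet_Ioi.prod measurableSet_Ioo) fun p hp => ?_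
    rw [Complex.norm_polarCoord_symm, sq_abs, smul_eq_mul, ENNReal.ofReal_mul (le_of_lt hp.1)]
  rw [h2, Measure.volume_eq_prod, setLIntegral_prod_symm]
  · simp only
    rw [h1, setLIntegral_const, Real.volume_Ioo, ← ENNReal.ofReal_mul' (by linarith [Real.pi_pos])]
    congr 1
    ring
  · refine (Continuous.measurable ?_).ennreal_ofReal.aemeasurable
    refine continuous_fst.mul ((continuousOn_rho he hem).comp_continuous (by fun_prop) fun p => ?_)
    simp only [mem_Ici]
    positivity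

lemma chi_le_left {e m s : ℝ} (he : 0 < e) (hem : e ≤ m) (hs : 0 ≤ s) :
    s * rho e m s ≤ s / (s + e) := by
  have : 0 ≤ s * (s + m)⁻¹ := mul_nonneg hs (inv_nonneg.2 (by linarith))
  simp only [rho, div_eq_mul_inv]
  linarith

lemma chi_le_right {e m s : ℝ} (he : 0 < e) (hem : e ≤ m) (hs : 0 ≤ s) :
    s * rho e m s ≤ m / (s + m) := by
  have h1 : s * (s + e)⁻¹ ≤ 1 := by
    rw [← div_eq_mul_inv, div_le_one (by linarith)]
    linarith
  have h2 : m / (s + m) = 1 - s * (s + m)⁻¹ := by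
    have : s + m ≠ 0 := by linarith
    field_simp
    ring
  simp only [rho]
  linarith

lemma ray_bound {e m δ R b α : ℝ} (he : 0 < e) (hem : e ≤ m) (hδ : 0 < δ) (hR : δ ≤ R)
    (hα : 0 < α) {s : ℝ → ℝ} (hs : ∀ x, 0 ≤ s x) (h0 : ∀ x, 0 < x → x ≤ δ → s x ≤ b ^ 2 * x ^ 2)
    (h1 : ∀ x, R < x → α ^ 2 * x ^ 2 ≤ s x) :
    ∫⁻ x in Ioi (0 : ℝ), ENNReal.ofReal (s x * rho e m (s x) / x) ≤
      ENNReal.ofReal (1 / 2 * Real.log (1 + b ^ 2 * δ ^ 2 / e) + Real.log (R / δ) +
        1 / 2 * Real.log (1 + m / (α ^ 2 * R ^ 2))) := by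
  have hm : 0 < m := lt_of_lt_of_le he hem
  have hR0 : 0 < R := lt_of_lt_of_le hδ hR
  have e1 : ∫⁻ x in Ioc (0 : ℝ) δ, ENNReal.ofReal (s x * rho e m (s x) / x) ≤
      ENNReal.ofReal (1 / 2 * Real.log (1 + b ^ 2 * δ ^ 2 / e)) := by
    have hc : Continuous fun x : ℝ => b ^ 2 * x / (b ^ 2 * x ^ 2 + e) :=
      Continuous.div (by fun_prop) (by fun_prop) fun x => by positivity
    have hd : ∀ x ∈ uIcc (0 : ℝ) δ, HasDerivAt (fun x => 1 / 2 * Real.log (b ^ 2 * x ^ 2 + e))
        (b ^ 2 * x / (b ^ 2 * x ^ 2 + e)) x := by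
      intro x _
      have := ((((hasDerivAt_pow 2 x).const_mul (b ^ 2)).add_const e).log
        (by positivity)).const_mul (1 / 2)
      refine this.congr_deriv ?_
      simp
      field_simp
    have hI := intervalIntegral.integral_eq_sub_of_hasDerivAt hd (hc.intervalIntegrable _ _)
    rw [intervalIntegral.integral_of_le hδ.le] at hI
    calc ∫⁻ x in Ioc (0 : ℝ) δ, ENNReal.ofReal (s x * rho e m (s x) / x)
        ≤ ∫⁻ x in Ioc (0 : ℝ) δ, ENNReal.ofReal (b ^ 2 * x / (b ^ 2 * x ^ 2 + e)) := by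
          refine setLIntegral_mono' measurableSet_Ioc fun x hx => ENNReal.ofReal_le_ofReal ?_
          have hx0 := hx.1
          have h2 := h0 x hx.1 hx.2
          have h3 := hs x
          rw [div_le_iff₀ hx0]
          refine le_trans (chi_le_left he hem h3) ?_
          rw [div_mul_eq_mul_div, div_le_div_iff₀ (by positivity) (by positivity)]
          nlinarith
      _ = ENNReal.ofReal (∫ x in Ioc (0 : ℝ) δ, b ^ 2 * x / (b ^ 2 * x ^ 2 + e)) := by
          rw [ofReal_integral_eq_lintegral_ofReal (hc.integrableOn_Icc.mono_set Ioc_subset_Icc_self)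
            ((ae_restrict_iff' measurableSet_Ioc).2 (Eventually.of_forall fun x hx => by
              have := hx.1
              positivity))]
      _ = _ := by
          rw [hI, ← mul_sub, ← Real.log_div (by positivity) (by positivity)]
          congr 3
          field_simp
          ring
  have e2 : ∫⁻ x in Ioc δ R, ENNReal.ofReal (s x * rho e m (s x) / x) ≤
      ENNReal.ofReal (Real.log (R / δ)) := by
    have hI := integral_inv_of_pos hδ hR0
    rw [intervalIntegral.integral_of_le hR] at hI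
    have hc : ContinuousOn (fun x : ℝ => x⁻¹) (Icc δ R) :=
      continuousOn_inv₀.mono fun x hx => (lt_of_lt_of_le hδ hx.1).ne'
    calc ∫⁻ x in Ioc δ R, ENNReal.ofReal (s x * rho e m (s x) / x)
        ≤ ∫⁻ x in Ioc δ R, ENNReal.ofReal x⁻¹ := by
          refine setLIntegral_mono' measurableSet_Ioc fun x hx => ENNReal.ofReal_le_ofReal ?_
          have hx0 : 0 < x := hδ.trans hx.1
          have h3 := hs x
          rw [div_le_iff₀ hx0, inv_mul_cancel₀ hx0.ne']
          refine le_trans (chi_le_left he hem h3) ?_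
          rw [div_le_one (by positivity)]
          linarith
      _ = _ := by
          rw [← hI, ofReal_integral_eq_lintegral_ofReal
            (hc.integrableOn_Icc.mono_set Ioc_subset_Icc_self)
            ((ae_restrict_iff' measurableSet_Ioc).2 (Eventually.of_forall fun x hx => by
              have : 0 < x := hδ.trans hx.1
              positivity))]
  have e3 : ∫⁻ x in Ioi R, ENNReal.ofReal (s x * rho e m (s x) / x) ≤
      ENNReal.ofReal (1 / 2 * Real.log (1 + m / (α ^ 2 * R ^ 2))) := by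
    have hd : ∀ x ∈ Ici R, HasDerivAt (fun x => The 0 m (α ^ 2 * x ^ 2))
        (m / (x * (α ^ 2 * x ^ 2 + m))) x := by
      intro x hx
      have hx0 : 0 < x := lt_of_lt_of_le hR0 hx
      have h2 := (hasDerivAt_pow 2 x).const_mul (α ^ 2)
      have := (((h2.add_const 0).log (by positivity)).sub
        ((h2.add_const m).log (by positivity))).const_mul (1 / 2)
      refine this.congr_deriv ?_
      simp
      field_simp
      ring
    have hpos : ∀ x ∈ Ioi R, 0 ≤ m / (x * (α ^ 2 * x ^ 2 + m)) := fun x hx => by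
      have : 0 < x := hR0.trans hx
      positivity
    have hlim : Tendsto (fun x : ℝ => The 0 m (α ^ 2 * x ^ 2)) atTop (𝓝 0) := by
      have h2 : Tendsto (fun x : ℝ => α ^ 2 * x ^ 2 - m) atTop atTop :=
        tendsto_atTop_add_const_right _ (-m)
          ((tendsto_pow_atTop two_ne_zero).const_mul_atTop (by positivity))
      have h3 := (tendsto_The hm (by linarith : m ≤ 2 * m)).comp h2
      refine h3.congr fun x => ?_
      simp only [The, Function.comp]
      congr 3 <;> ring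
    calc ∫⁻ x in Ioi R, ENNReal.ofReal (s x * rho e m (s x) / x)
        ≤ ∫⁻ x in Ioi R, ENNReal.ofReal (m / (x * (α ^ 2 * x ^ 2 + m))) := by
          refine setLIntegral_mono' measurableSet_Ioi fun x hx => ENNReal.ofReal_le_ofReal ?_
          have hx0 : 0 < x := hR0.trans hx
          have h2 := h1 x hx
          have h3 := hs x
          rw [div_le_iff₀ hx0]
          refine le_trans (chi_le_right he hem h3) ?_
          have : m / (x * (α ^ 2 * x ^ 2 + m)) * x = m / (α ^ 2 * x ^ 2 + m) := by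
            field_simp
          rw [this]
          gcongr
      _ = _ := by
          rw [← ofReal_integral_eq_lintegral_ofReal (integrableOn_Ioi_deriv_of_nonneg' hd hpos hlim)
            ((ae_restrict_iff' measurableSet_Ioi).2 (Eventually.of_forall hpos)),
            integral_Ioi_of_hasDerivAt_of_nonneg' hd hpos hlim]
          simp only [The, add_zero, zero_sub]
          rw [← mul_neg, neg_sub, ← Real.log_div (by positivity) (by positivity)]
          congr 3
          field_simp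
  have hsub : Ioi (0 : ℝ) ⊆ (Ioc 0 δ ∪ Ioc δ R) ∪ Ioi R := by
    intro x hx
    rcases le_or_gt x δ with h | h
    · exact Or.inl (Or.inl ⟨hx, h⟩)
    · rcases le_or_gt x R with h' | h'
      · exact Or.inl (Or.inr ⟨h, h'⟩)
      · exact Or.inr h'
  have p1 : 0 ≤ 1 / 2 * Real.log (1 + b ^ 2 * δ ^ 2 / e) :=
    mul_nonneg (by norm_num) (Real.log_nonneg (le_add_of_nonneg_right (by positivity)))
  have p2 : 0 ≤ Real.log (R / δ) := Real.log_nonneg ((one_le_div hδ).2 hR)
  have p3 : 0 ≤ 1 / 2 * Real.log (1 + m / (α ^ 2 * R ^ 2)) :=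
    mul_nonneg (by norm_num) (Real.log_nonneg (le_add_of_nonneg_right (by positivity)))
  rw [ENNReal.ofReal_add (add_nonneg p1 p2) p3, ENNReal.ofReal_add p1 p2]
  refine le_trans (lintegral_mono_set hsub) (le_trans (lintegral_union_le _ _ _) ?_)
  exact add_le_add (le_trans (lintegral_union_le _ _ _) (add_le_add e1 e2)) e3

lemma ray_bound' {e m δ R b α : ℝ} (he : 0 < e) (hem : e ≤ m) (hδ : 0 < δ) (hR : δ ≤ R)
    (hb : 0 < b) (hα : 0 < α) :
    1 / 2 * Real.log (1 + b ^ 2 * δ ^ 2 / e) + Real.log (R / δ) +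
        1 / 2 * Real.log (1 + m / (α ^ 2 * R ^ 2)) ≤
      1 / 2 * Real.log (m / e) + Real.log (b / α) + (e / (b ^ 2 * δ ^ 2) + α ^ 2 * R ^ 2 / m) := by
  have hm : 0 < m := lt_of_lt_of_le he hem
  have hR0 : 0 < R := lt_of_lt_of_le hδ hR
  have h1 : 1 + b ^ 2 * δ ^ 2 / e = (b ^ 2 * δ ^ 2 / e) * (1 + e / (b ^ 2 * δ ^ 2)) := by
    field_simp
    ring
  have h2 : 1 + m / (α ^ 2 * R ^ 2) = (m / (α ^ 2 * R ^ 2)) * (1 + α ^ 2 * R ^ 2 / m) := by
    field_simp
    ring
  have h3 := Real.log_le_sub_one_of_pos (show 0 < 1 + e / (b ^ 2 * δ ^ 2) by positivity)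
  have h4 := Real.log_le_sub_one_of_pos (show 0 < 1 + α ^ 2 * R ^ 2 / m by positivity)
  have h5 : 0 ≤ e / (b ^ 2 * δ ^ 2) := by positivity
  have h6 : 0 ≤ α ^ 2 * R ^ 2 / m := by positivity
  rw [h1, h2, Real.log_mul (by positivity) (by positivity),
    Real.log_mul (by positivity) (by positivity), Real.log_div (by positivity) (by positivity),
    Real.log_div (by positivity) (by positivity), Real.log_div (by positivity) (by positivity),
    Real.log_div (by positivity) (by positivity), Real.log_div (by positivity) (by positivity),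
    Real.log_mul (by positivity) (by positivity), Real.log_mul (by positivity) (by positivity),
    Real.log_pow, Real.log_pow, Real.log_pow, Real.log_pow]
  push_cast
  linarith

/-- The inequality along one curve from `0` to infinity. -/
lemma ray_ineq {e m : ℝ} (he : 0 < e) (hem : e ≤ m) {f d : ℝ → ℂ}
    (hf : ∀ x, 0 < x → HasDerivAt f (d x) x) (hd : ContinuousOn d (Ioi 0))
    (h0 : Tendsto (fun x => ‖f x‖ ^ 2) (𝓝[>] 0) (𝓝 0))
    (h1 : Tendsto (fun x => ‖f x‖ ^ 2) atTop atTop) {x₁ x₂ : ℝ} (hx₁ : 0 < x₁) :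
    (∫⁻ x in Ioc x₁ x₂, ENNReal.ofReal (rho e m (‖f x‖ ^ 2) * ‖x * d x - f x‖ ^ 2 / x)) +
        ENNReal.ofReal (Real.log (m / e)) ≤
      (∫⁻ x in Ioi (0 : ℝ), ENNReal.ofReal (rho e m (‖f x‖ ^ 2) * ‖d x‖ ^ 2 * x)) +
        ∫⁻ x in Ioi (0 : ℝ), ENNReal.ofReal (‖f x‖ ^ 2 * rho e m (‖f x‖ ^ 2) / x) := by
  have hfc : ContinuousOn f (Ioi 0) := fun x hx => (hf x hx).continuousAt.continuousWithinAt
  have hρ : ContinuousOn (fun x => rho e m (‖f x‖ ^ 2)) (Ioi 0) :=
    (continuous_rho_norm he hem).comp_continuousOn hfc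
  have hρ0 : ∀ x, 0 ≤ rho e m (‖f x‖ ^ 2) := fun x => rho_nonneg he hem (by positivity)
  set A : ℝ → ℝ := fun x => rho e m (‖f x‖ ^ 2) * ‖x * d x - f x‖ ^ 2 / x with hA
  set B : ℝ → ℝ := fun x => rho e m (‖f x‖ ^ 2) * ‖d x‖ ^ 2 * x with hB
  set C : ℝ → ℝ := fun x => ‖f x‖ ^ 2 * rho e m (‖f x‖ ^ 2) / x with hC
  have hxne : ∀ x ∈ Ioi (0 : ℝ), x ≠ 0 := fun x hx => ne_of_gt hx
  have hAc : ContinuousOn A (Ioi 0) :=
    (hρ.mul (((Complex.continuous_ofReal.continuousOn.mul hd).sub hfc).norm.pow 2)).div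
      continuousOn_id hxne
  have hBc : ContinuousOn B (Ioi 0) := (hρ.mul (hd.norm.pow 2)).mul continuousOn_id
  have hCc : ContinuousOn C (Ioi 0) := ((hfc.norm.pow 2).mul hρ).div continuousOn_id hxne
  have hA0 : ∀ x, 0 < x → 0 ≤ A x := fun x hx =>
    div_nonneg (mul_nonneg (hρ0 x) (by positivity)) hx.le
  have hB0 : ∀ x, 0 < x → 0 ≤ B x := fun x hx =>
    mul_nonneg (mul_nonneg (hρ0 x) (by positivity)) hx.le
  have hC0 : ∀ x, 0 < x → 0 ≤ C x := fun x hx =>
    div_nonneg (mul_nonneg (by positivity) (hρ0 x)) hx.le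
  have hder : ∀ x, 0 < x → HasDerivAt (fun x => 2 * The e m (‖f x‖ ^ 2)) (B x + C x - A x) x := by
    intro x hx
    have h2 := (hf x hx).norm_sq
    have := ((hasDerivAt_The he hem (by positivity : 0 ≤ ‖f x‖ ^ 2)).comp x h2).const_mul 2
    refine this.congr_deriv ?_
    simp only [hA, hB, hC]
    rw [← Complex.normSq_eq_norm_sq (d x), ← Complex.normSq_eq_norm_sq (x * d x - f x)]
    generalize rho e m (‖f x‖ ^ 2) = r
    rw [← Complex.normSq_eq_norm_sq (f x)]
    simp [Complex.normSq_apply, Complex.inner]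
    field_simp
    ring
  have hint : ∀ {g : ℝ → ℝ}, ContinuousOn g (Ioi 0) → ∀ {r₀ r₁ : ℝ}, 0 < r₀ →
      IntegrableOn g (Ioc r₀ r₁) := fun hg r₀ r₁ hr =>
    ((hg.mono fun x hx => lt_of_lt_of_le hr hx.1).integrableOn_Icc).mono_set Ioc_subset_Icc_self
  have hof : ∀ {g : ℝ → ℝ}, ContinuousOn g (Ioi 0) → (∀ x, 0 < x → 0 ≤ g x) →
      ∀ {r₀ r₁ : ℝ}, 0 < r₀ →
      ENNReal.ofReal (∫ x in Ioc r₀ r₁, g x) = ∫⁻ x in Ioc r₀ r₁, ENNReal.ofReal (g x) :=
    fun hg hg0 r₀ r₁ hr => ofReal_integral_eq_lintegral_ofReal (hint hg hr)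
      ((ae_restrict_iff' measurableSet_Ioc).2
        (Eventually.of_forall fun x hx => hg0 x (hr.trans hx.1)))
  have hnn : ∀ {g : ℝ → ℝ}, (∀ x, 0 < x → 0 ≤ g x) → ∀ {r₀ r₁ : ℝ}, 0 < r₀ →
      0 ≤ ∫ x in Ioc r₀ r₁, g x := fun hg0 r₀ r₁ hr =>
    setIntegral_nonneg measurableSet_Ioc fun x hx => hg0 x (hr.trans hx.1)
  have key : ∀ r₀ r₁ : ℝ, 0 < r₀ → r₀ ≤ x₁ → x₂ ≤ r₁ → r₀ ≤ r₁ →
      ENNReal.ofReal ((∫ x in Ioc x₁ x₂, A x) +
        (2 * The e m (‖f r₁‖ ^ 2) - 2 * The e m (‖f r₀‖ ^ 2))) ≤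
      (∫⁻ x in Ioi (0 : ℝ), ENNReal.ofReal (B x)) +
        ∫⁻ x in Ioi (0 : ℝ), ENNReal.ofReal (C x) := by
    intro r₀ r₁ hr h01 h21 hrr
    have hsub : uIcc r₀ r₁ ⊆ Ioi 0 := by
      rw [uIcc_of_le hrr]
      exact fun x hx => lt_of_lt_of_le hr hx.1
    have hI := intervalIntegral.integral_eq_sub_of_hasDerivAt (fun x hx => hder x (hsub hx))
      ((((hBc.add hCc).sub hAc).mono hsub).intervalIntegrable)
    rw [intervalIntegral.integral_of_le hrr, integral_sub (f := fun x => B x + C x)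
      ((hint hBc hr).add (hint hCc hr)) (hint hAc hr), integral_add (hint hBc hr) (hint hCc hr)] at hI
    have h2 : ∫ x in Ioc x₁ x₂, A x ≤ ∫ x in Ioc r₀ r₁, A x :=
      setIntegral_mono_set (hint hAc hr) ((ae_restrict_iff' measurableSet_Ioc).2
        (Eventually.of_forall fun x hx => hA0 x (hr.trans hx.1)))
        (Ioc_subset_Ioc h01 h21).eventuallyLE
    calc _ ≤ ENNReal.ofReal ((∫ x in Ioc r₀ r₁, B x) + ∫ x in Ioc r₀ r₁, C x) :=
          ENNReal.ofReal_le_ofReal (by linarith)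
      _ = (∫⁻ x in Ioc r₀ r₁, ENNReal.ofReal (B x)) +
            ∫⁻ x in Ioc r₀ r₁, ENNReal.ofReal (C x) := by
          rw [ENNReal.ofReal_add (hnn hB0 hr) (hnn hC0 hr), hof hBc hB0 hr, hof hCc hC0 hr]
      _ ≤ _ := add_le_add (lintegral_mono_set fun x hx => hr.trans hx.1)
          (lintegral_mono_set fun x hx => hr.trans hx.1)
  have hlim : Tendsto (fun p : ℝ × ℝ => ENNReal.ofReal ((∫ x in Ioc x₁ x₂, A x) +
      (2 * The e m (‖f p.2‖ ^ 2) - 2 * The e m (‖f p.1‖ ^ 2)))) (𝓝[>] 0 ×ˢ atTop)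
      (𝓝 (ENNReal.ofReal ((∫ x in Ioc x₁ x₂, A x) + (2 * 0 - 2 * The e m 0)))) := by
    refine (ENNReal.continuous_ofReal.tendsto _).comp (tendsto_const_nhds.add (Tendsto.sub ?_ ?_))
    · exact (((tendsto_The he hem).comp h1).comp tendsto_snd).const_mul 2
    · exact (((hasDerivAt_The he hem le_rfl).continuousAt.tendsto.comp h0).comp
        tendsto_fst).const_mul 2
  have hΛ : 0 ≤ Real.log (m / e) := Real.log_nonneg ((one_le_div he).2 hem)
  have e1 : 2 * 0 - 2 * The e m 0 = Real.log (m / e) := by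
    rw [The_zero he hem]
    ring
  rw [e1, ENNReal.ofReal_add (hnn hA0 hx₁) hΛ, hof hAc hA0 hx₁] at hlim
  refine le_of_tendsto hlim ?_
  have ev1 : ∀ᶠ r in 𝓝[>] (0 : ℝ), 0 < r ∧ r ≤ x₁ :=
    (eventually_mem_nhdsWithin).and (nhdsWithin_le_nhds (Iic_mem_nhds hx₁))
  have ev2 : ∀ᶠ r in atTop, x₂ ≤ r ∧ x₁ ≤ r := (eventually_ge_atTop _).and (eventually_ge_atTop _)
  filter_upwards [ev1.prod_mk ev2] with p hp
  exact key p.1 p.2 hp.1.1 hp.1.2 hp.2.1 (hp.1.2.trans hp.2.2)

end Pool.Agent.Lib.MP_e968d9_an
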