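import Mathlib
import Pool.Agent.Lib.MP_e968d9_an.Ray

/-!
The length-area argument: two univalent maps of the half-plane onto non-overlapping domains that
are extremal for the product of the angular derivatives at `0` and at infinity are linear.
-/

set_option autoImplicit false

open Filter Topology Set MeasureTheory Complex
open scoped ENNReal Real ComplexConjugate

namespace Pool.Agent.Lib.MP_e968d9_an

/-- A univalent map with upper slope `b` at zero and lower slope `a` at infinity. -/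
structure Nice (F : ℂ → ℂ) (a b : ℝ) : Prop where
  diff : DifferentiableOn ℂ F RHP
  inj : InjOn F RHP
  near0 : ∀ κ : ℝ, 0 < κ → ∃ δ : ℝ, 0 < δ ∧ ∀ z ∈ RHP, ‖z‖ ≤ δ → ‖F z‖ ≤ (b + κ) * ‖z‖
  nearInf : ∀ κ : ℝ, 0 < κ → ∀ α : ℝ, α < a → ∃ R : ℝ, ∀ z ∈ RHP, κ * ‖z‖ ≤ z.re → R ≤ ‖z‖ →
    α * ‖z‖ ≤ ‖F z‖
  dom : ∃ c : ℝ, 0 < c ∧ ∃ C : ℝ, ∀ z ∈ RHP, c * z.re - C ≤ ‖F z‖

lemma det_complex (A : ℂ →L[ℝ] ℂ) :
    A.det = (A 1).re * (A I).im - (A I).re * (A 1).im := by
  rw [ContinuousLinearMap.det, ← LinearMap.det_toMatrix Complex.basisOneI, Matrix.det_fin_two]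
  simp [LinearMap.toMatrix_apply]

/-- The point with real part `x` on the ray of slope `t`. -/
def ray (x t : ℝ) : ℂ := x * (1 + t * I)

lemma ray_re (x t : ℝ) : (ray x t).re = x := by simp [ray]

lemma ray_im (x t : ℝ) : (ray x t).im = x * t := by simp [ray]

lemma ray_mem {x : ℝ} (hx : 0 < x) (t : ℝ) : ray x t ∈ RHP := by
  show 0 < (ray x t).re
  rwa [ray_re]

lemma norm_one_add (t : ℝ) : ‖(1 + t * I : ℂ)‖ = √(1 + t ^ 2) := by
  rw [Complex.norm_eq_sqrt_sq_add_sq]
  simp

lemma norm_ray {x : ℝ} (hx : 0 ≤ x) (t : ℝ) : ‖ray x t‖ = x * √(1 + t ^ 2) := by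
  rw [ray, norm_mul, norm_one_add, Complex.norm_real, Real.norm_of_nonneg hx]

lemma one_le_ell (t : ℝ) : 1 ≤ √(1 + t ^ 2) := Real.one_le_sqrt.2 (by nlinarith [sq_nonneg t])

lemma continuousOn_deriv {F : ℂ → ℂ} (hF : DifferentiableOn ℂ F RHP) :
    ContinuousOn (deriv F) RHP := (hF.deriv isOpen_RHP).continuousOn

lemma change_var {F : ℂ → ℂ} (hF : DifferentiableOn ℂ F RHP) (hi : InjOn F RHP) {g : ℂ → ℝ}
    (hg : Continuous g) :
    ∫⁻ t : ℝ, ∫⁻ x in Ioi (0 : ℝ),
        ENNReal.ofReal (g (F (ray x t)) * (‖deriv F (ray x t)‖ ^ 2 * x)) ≤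
      ∫⁻ w in F '' RHP, ENNReal.ofReal (g w) := by
  let P : ℂ → ℂ := fun z => ray z.re z.im
  have hPm : MapsTo P RHP RHP := fun z hz => ray_mem hz _
  have hPi : InjOn P RHP := by
    intro z hz w hw h
    have h1 := congrArg Complex.re h
    have h2 := congrArg Complex.im h
    simp only [P, ray_re, ray_im] at h1 h2
    rw [h1] at h2
    exact Complex.ext h1 (mul_left_cancel₀ (ne_of_gt hw) h2)
  have hder : ∀ z ∈ RHP, ∃ A : ℂ →L[ℝ] ℂ, HasFDerivAt (fun z => F (P z)) A z ∧
      A.det = ‖deriv F (P z)‖ ^ 2 * z.re := by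
    intro z hz
    have h1 : HasFDerivAt (fun z : ℂ => (z.re : ℂ)) (ofRealCLM.comp reCLM) z :=
      (ofRealCLM.comp reCLM).hasFDerivAt
    have h2 : HasFDerivAt (fun z : ℂ => (z.im : ℂ)) (ofRealCLM.comp imCLM) z :=
      (ofRealCLM.comp imCLM).hasFDerivAt
    have h3 := h1.mul ((h2.mul_const I).const_add 1)
    have h4 := ((hF.differentiableAt (isOpen_RHP.mem_nhds (hPm hz))).hasDerivAt.hasFDerivAt
      |>.restrictScalars ℝ).comp z h3
    refine ⟨_, h4, ?_⟩
    rw [det_complex, ← Complex.normSq_eq_norm_sq, normSq_apply]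
    simp
    ring
  choose! A hA1 hA2 using hder
  have hcv := lintegral_image_eq_lintegral_abs_det_fderiv_mul volume isOpen_RHP.measurableSet
    (fun z hz => (hA1 z hz).hasFDerivWithinAt) (hi.comp hPi hPm) (fun w => ENNReal.ofReal (g w))
  have hsub : (fun z => F (P z)) '' RHP ⊆ F '' RHP := by
    rintro _ ⟨z, hz, rfl⟩
    exact ⟨P z, hPm hz, rfl⟩
  refine le_trans (le_of_eq ?_) (lintegral_mono_set hsub)
  rw [hcv]
  have h1 : ∫⁻ z in RHP, ENNReal.ofReal |(A z).det| * ENNReal.ofReal (g (F (P z))) =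
      ∫⁻ z in RHP, ENNReal.ofReal (g (F (P z)) * (‖deriv F (P z)‖ ^ 2 * z.re)) := by
    refine setLIntegral_congr_fun isOpen_RHP.measurableSet fun z hz => ?_
    have hz' : 0 < z.re := hz
    rw [hA2 z hz, abs_of_nonneg (by positivity), ← ENNReal.ofReal_mul (by positivity), mul_comm]
  rw [h1, ← (volume_preserving_equiv_real_prod.symm).setLIntegral_comp_preimage_emb
    measurableEquivRealProd.symm.measurableEmbedding]
  have h2 : measurableEquivRealProd.symm ⁻¹' RHP = Ioi (0 : ℝ) ×ˢ univ := by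
    ext p
    simp [RHP]
  rw [h2, Measure.volume_eq_prod, setLIntegral_prod_symm]
  · simp [P]
  · refine (ContinuousOn.aemeasurable ?_ (measurableSet_Ioi.prod MeasurableSet.univ)).ennreal_ofReal
    have hr : Continuous fun p : ℝ × ℝ => ray p.1 p.2 := by
      unfold ray
      fun_prop
    have hm : MapsTo (fun p : ℝ × ℝ => ray p.1 p.2) (Ioi 0 ×ˢ univ) RHP :=
      fun p hp => ray_mem hp.1 _
    exact (hg.comp_continuousOn (hF.continuousOn.comp hr.continuousOn hm)).mul
      ((((continuousOn_deriv hF).comp hr.continuousOn hm).norm.pow 2).mul continuousOn_fst)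

lemma integrable_log_ell (K : ℝ) :
    Integrable fun t : ℝ => (1 + t ^ 2)⁻¹ * (K + Real.log √(1 + t ^ 2)) := by
  have h1 : Integrable fun t : ℝ => (1 + t ^ 2)⁻¹ * Real.log √(1 + t ^ 2) := by
    have h2 := (integrable_rpow_neg_one_add_norm_sq (E := ℝ) (μ := volume) (r := 3 / 2)
      (by norm_num)).const_mul 2
    refine h2.mono' (Continuous.aestronglyMeasurable ?_) (Eventually.of_forall fun t => ?_)
    · exact (Continuous.inv₀ (by fun_prop) fun t => by positivity).mul
        (Continuous.log (by fun_prop) fun t => by positivity)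
    · have h3 : (0 : ℝ) < 1 + t ^ 2 := by positivity
      rw [Real.norm_of_nonneg (mul_nonneg (by positivity) (Real.log_nonneg (one_le_ell t))),
        Real.log_sqrt h3.le, Real.norm_eq_abs, sq_abs]
      have h4 := Real.log_le_rpow_div h3.le (show (0 : ℝ) < 1 / 4 by norm_num)
      have h5 : (1 + t ^ 2) ^ (-(3 / 2 : ℝ) / 2) = (1 + t ^ 2)⁻¹ * (1 + t ^ 2) ^ (1 / 4 : ℝ) := by
        rw [← Real.rpow_neg_one, ← Real.rpow_add h3]
        norm_num
      rw [h5]
      have := mul_le_mul_of_nonneg_left h4 (inv_nonneg.2 h3.le)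
      linarith
  refine ((integrable_inv_one_add_sq.mul_const K).add h1).congr (Eventually.of_forall fun t => ?_)
  simp only [Pi.add_apply]
  ring

lemma edge_small (K : ℝ) {η : ℝ} (hη : 0 < η) : ∃ n : ℝ, 0 < n ∧
    ∫ t in {t : ℝ | n < √(1 + t ^ 2)}, (1 + t ^ 2)⁻¹ * (K + Real.log √(1 + t ^ 2)) ≤ η := by
  have h := tendsto_setIntegral_of_antitone (μ := volume)
    (s := fun n : ℕ => {t : ℝ | (n : ℝ) < √(1 + t ^ 2)})
    (f := fun t : ℝ => (1 + t ^ 2)⁻¹ * (K + Real.log √(1 + t ^ 2)))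
    (fun n => measurableSet_lt measurable_const (by fun_prop))
    (fun n m hnm t ht => show (n : ℝ) < √(1 + t ^ 2) from
      lt_of_le_of_lt (Nat.cast_le.2 hnm) (show (m : ℝ) < √(1 + t ^ 2) from ht))
    ⟨0, (integrable_log_ell K).integrableOn⟩
  have h2 : (⋂ n : ℕ, {t : ℝ | (n : ℝ) < √(1 + t ^ 2)}) = ∅ := by
    rw [eq_empty_iff_forall_notMem]
    intro t ht
    obtain ⟨n, hn⟩ := exists_nat_ge √(1 + t ^ 2)
    exact absurd (mem_iInter.1 ht n) (not_lt.2 hn)
  rw [h2, Measure.restrict_empty, integral_zero_measure] at h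
  obtain ⟨n, hn1, hn2⟩ := ((h.eventually (gt_mem_nhds hη)).and (eventually_gt_atTop 0)).exists
  exact ⟨n, by exact_mod_cast hn2, hn1.le⟩

lemma main_ineq {F : ℂ → ℂ} {a b : ℝ} (hF : Nice F a b) (hb : 0 ≤ b) {x₁ x₂ : ℝ}
    (hx₁ : 0 < x₁) {η : ℝ} (hη : 0 < η) {α : ℝ} (hα : 0 < α) (hαa : α < a) :
    ∀ᶠ n : ℝ in atTop, (∫⁻ t : ℝ, ENNReal.ofReal (1 + t ^ 2)⁻¹ * ∫⁻ x in Ioc x₁ x₂,
        ENNReal.ofReal (rho n⁻¹ n (‖F (ray x t)‖ ^ 2) *
          ‖ray x t * deriv F (ray x t) - F (ray x t)‖ ^ 2 / x)) +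
        ENNReal.ofReal (2 * π * Real.log n) ≤
      (∫⁻ w in F '' RHP, ENNReal.ofReal (rho n⁻¹ n (‖w‖ ^ 2))) +
        ENNReal.ofReal (π * (Real.log n + Real.log ((b + η) / α) + η) + η) := by
  obtain ⟨δ, hδ, h0⟩ := hF.near0 η hη
  obtain ⟨c, hc, C, hdom⟩ := hF.dom
  set b' := b + η with hb'
  have hb0 : 0 < b' := by positivity
  set K := |Real.log (α / (c / 2))| with hK
  obtain ⟨n₀, hn₀, hedge⟩ := edge_small K hη
  obtain ⟨R₀, hR₀⟩ := hF.nearInf n₀⁻¹ (by positivity) α hαa
  set R := max R₀ δ with hR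
  set R' := max (2 * C / c) δ with hR'
  have hRδ : δ ≤ R := le_max_right _ _
  have hR'δ : δ ≤ R' := le_max_right _ _
  have hev : ∀ B : ℝ, ∀ᶠ n : ℝ in atTop, n⁻¹ / (b' ^ 2 * δ ^ 2) + B / n ≤ η := by
    intro B
    have : Tendsto (fun n : ℝ => n⁻¹ / (b' ^ 2 * δ ^ 2) + B / n) atTop
        (𝓝 (0 / (b' ^ 2 * δ ^ 2) + 0)) :=
      (tendsto_inv_atTop_zero.div_const _).add (tendsto_const_nhds.div_atTop tendsto_id)
    rw [zero_div, add_zero] at this
    exact (this.eventually (ge_mem_nhds hη))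
  have hev2 : ∀ᶠ n : ℝ in atTop, 0 ≤ Real.log n + Real.log (b' / α) + η :=
    (tendsto_atTop_add_const_right _ η
      (tendsto_atTop_add_const_right _ _ Real.tendsto_log_atTop)).eventually_ge_atTop 0
  filter_upwards [hev (α ^ 2 * R ^ 2), hev ((c / 2) ^ 2 * R' ^ 2), hev2, eventually_ge_atTop 1]
    with n hn1 hn2 hn3 hn4
  have hn0 : 0 < n := by linarith
  have he : 0 < n⁻¹ := by positivity
  have hem : n⁻¹ ≤ n := le_trans (inv_le_one_of_one_le₀ hn4) hn4
  have hΛ : Real.log (n / n⁻¹) = 2 * Real.log n := by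
    rw [Real.log_div hn0.ne' he.ne', Real.log_inv]
    ring
  have hlog0 : 0 ≤ Real.log n := Real.log_nonneg hn4
  set D := Real.log n + Real.log (b' / α) + η with hD
  let E : Set ℝ := {t : ℝ | n₀ < √(1 + t ^ 2)}
  have hE : MeasurableSet E := measurableSet_lt measurable_const (by fun_prop)
  let maj : ℝ → ℝ := fun t => (1 + t ^ 2)⁻¹ * D +
    E.indicator (fun t => (1 + t ^ 2)⁻¹ * (K + Real.log √(1 + t ^ 2))) t
  have hKl : ∀ t : ℝ, 0 ≤ K + Real.log √(1 + t ^ 2) := fun t =>
    add_nonneg (abs_nonneg _) (Real.log_nonneg (one_le_ell t))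
  have hmaj0 : ∀ t, 0 ≤ maj t := fun t => add_nonneg (mul_nonneg (by positivity) hn3)
    (indicator_nonneg (fun t _ => mul_nonneg (by positivity) (hKl t)) t)
  have hmaji : Integrable maj := (integrable_inv_one_add_sq.mul_const D).add
    ((integrable_log_ell K).indicator hE)
  have hmajI : ∫⁻ t, ENNReal.ofReal (maj t) ≤ ENNReal.ofReal (π * D + η) := by
    rw [← ofReal_integral_eq_lintegral_ofReal hmaji (Eventually.of_forall hmaj0)]
    refine ENNReal.ofReal_le_ofReal ?_
    simp only [maj]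
    rw [integral_add (integrable_inv_one_add_sq.mul_const D) ((integrable_log_ell K).indicator hE),
      integral_mul_const, integral_univ_inv_one_add_sq, integral_indicator hE]
    linarith
  -- the bound for the third integral
  have h3 : ∀ t : ℝ, ENNReal.ofReal (1 + t ^ 2)⁻¹ * ∫⁻ x in Ioi (0 : ℝ),
      ENNReal.ofReal (‖F (ray x t)‖ ^ 2 * rho n⁻¹ n (‖F (ray x t)‖ ^ 2) / x) ≤
      ENNReal.ofReal (maj t) := by
    intro t
    set l := √(1 + t ^ 2) with hl
    have hl1 : 1 ≤ l := one_le_ell t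
    have hl0 : 0 < l := by linarith
    have hnear : ∀ x, 0 < x → x ≤ δ / l → ‖F (ray x t)‖ ^ 2 ≤ (b' * l) ^ 2 * x ^ 2 := by
      intro x hx hxδ
      have h1 := h0 _ (ray_mem hx t) (by rw [norm_ray hx.le]; rwa [le_div_iff₀ hl0] at hxδ)
      rw [norm_ray hx.le, ← hl] at h1
      rw [← mul_pow]
      exact pow_le_pow_left₀ (norm_nonneg _) (by linarith) 2
    have hw : 0 ≤ (1 + t ^ 2)⁻¹ := by positivity
    have e0 : (b' * l) ^ 2 * (δ / l) ^ 2 = b' ^ 2 * δ ^ 2 := by field_simp
    by_cases ht : t ∈ E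
    · have hδl : δ / l ≤ R' := le_trans (div_le_self hδ.le hl1) hR'δ
      have h1 := ray_bound he hem (div_pos hδ hl0) hδl (half_pos hc)
        (s := fun x => ‖F (ray x t)‖ ^ 2) (fun x => by positivity) hnear (fun x hx => by
          have hx0 : 0 < x := lt_of_lt_of_le (lt_of_lt_of_le hδ hR'δ) hx.le
          have h1 := hdom _ (ray_mem hx0 t)
          have h2 : 2 * C / c ≤ x := le_trans (le_max_left _ _) hx.le
          rw [div_le_iff₀ hc] at h2
          rw [ray_re] at h1
          rw [← mul_pow]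
          exact pow_le_pow_left₀ (by positivity) (by linarith) 2)
      have h2 := ray_bound' he hem (div_pos hδ hl0) hδl (mul_pos hb0 hl0) (half_pos hc)
      rw [e0, hΛ] at h2
      have h4 : Real.log (b' * l / (c / 2)) =
          Real.log (b' / α) + Real.log (α / (c / 2)) + Real.log l := by
        rw [← Real.log_mul (by positivity) (by positivity),
          ← Real.log_mul (by positivity) (by positivity)]
        congr 1
        field_simp
      have h5 := le_abs_self (Real.log (α / (c / 2)))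
      refine le_trans (mul_le_mul_right (h1.trans (ENNReal.ofReal_le_ofReal
        (show _ ≤ D + (K + Real.log l) by rw [e0]; linarith))) _) ?_
      rw [← ENNReal.ofReal_mul hw]
      refine ENNReal.ofReal_le_ofReal (le_of_eq ?_)
      simp only [maj, indicator_of_mem ht]
      ring
    · have htl : l ≤ n₀ := not_lt.1 ht
      have hδl : δ / l ≤ R / l := div_le_div_of_nonneg_right hRδ hl0.le
      have h1 := ray_bound he hem (div_pos hδ hl0) hδl (mul_pos hα hl0)
        (s := fun x => ‖F (ray x t)‖ ^ 2) (fun x => by positivity) hnear (fun x hx => by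
          have hx0 : 0 < x := lt_of_lt_of_le (div_pos (lt_of_lt_of_le hδ hRδ) hl0) hx.le
          have h1 := hR₀ _ (ray_mem hx0 t) (by
            rw [norm_ray hx0.le, ray_re, ← hl, inv_mul_le_iff₀ hn₀]
            nlinarith) (by
            rw [norm_ray hx0.le, ← hl]
            rw [div_lt_iff₀ hl0] at hx
            exact le_trans (le_max_left _ _) hx.le)
          rw [norm_ray hx0.le, ← hl] at h1
          rw [← mul_pow]
          exact pow_le_pow_left₀ (by positivity) (by linarith) 2)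
      have h2 := ray_bound' he hem (div_pos hδ hl0) hδl (mul_pos hb0 hl0) (mul_pos hα hl0)
      have e1 : (α * l) ^ 2 * (R / l) ^ 2 = α ^ 2 * R ^ 2 := by field_simp
      have e2 : b' * l / (α * l) = b' / α := by field_simp
      rw [e0, e1, e2, hΛ] at h2
      refine le_trans (mul_le_mul_right (h1.trans (ENNReal.ofReal_le_ofReal
        (show _ ≤ D by rw [e0, e1]; linarith))) _) ?_
      rw [← ENNReal.ofReal_mul hw]
      refine ENNReal.ofReal_le_ofReal (le_of_eq ?_)
      simp only [maj, indicator_of_notMem ht]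
      ring
  -- the inequality on each ray
  have hray : ∀ t : ℝ, (ENNReal.ofReal (1 + t ^ 2)⁻¹ * ∫⁻ x in Ioc x₁ x₂,
        ENNReal.ofReal (rho n⁻¹ n (‖F (ray x t)‖ ^ 2) *
          ‖ray x t * deriv F (ray x t) - F (ray x t)‖ ^ 2 / x)) +
        ENNReal.ofReal ((1 + t ^ 2)⁻¹ * (2 * Real.log n)) ≤
      (∫⁻ x in Ioi (0 : ℝ), ENNReal.ofReal (rho n⁻¹ n (‖F (ray x t)‖ ^ 2) *
        (‖deriv F (ray x t)‖ ^ 2 * x))) + ENNReal.ofReal (maj t) := by
    intro t
    have hw : 0 ≤ (1 + t ^ 2)⁻¹ := by positivity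
    have hl0 : 0 < √(1 + t ^ 2) := lt_of_lt_of_le one_pos (one_le_ell t)
    have hrc : Continuous fun x : ℝ => ray x t := by
      unfold ray
      fun_prop
    have h1 := ray_ineq he hem (f := fun x => F (ray x t))
      (d := fun x => deriv F (ray x t) * (1 + t * I)) (fun x hx => by
        have h1 := (hF.diff.differentiableAt (isOpen_RHP.mem_nhds (ray_mem hx t))).hasDerivAt
        have h2 : HasDerivAt (fun w : ℂ => w * (1 + t * I)) (1 + t * I) (x : ℂ) := by
          simpa using (hasDerivAt_id (x : ℂ)).mul_const (1 + t * I)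
        exact (HasDerivAt.comp (x : ℂ) h1 h2).comp_ofReal)
      (((continuousOn_deriv hF.diff).comp hrc.continuousOn fun x hx => ray_mem hx t).mul
        continuousOn_const) ?_ ?_ (x₂ := x₂) hx₁
    · have h2 := mul_le_mul_right h1 (ENNReal.ofReal (1 + t ^ 2)⁻¹)
      rw [mul_add, mul_add, hΛ, ← ENNReal.ofReal_mul hw] at h2
      have e1 : ∀ x : ℝ, (x : ℂ) * (deriv F (ray x t) * (1 + t * I)) =
          ray x t * deriv F (ray x t) := fun x => by
        simp only [ray]
        ring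
      simp only [e1] at h2
      refine h2.trans (add_le_add (le_of_eq ?_) (h3 t))
      rw [← lintegral_const_mul' _ _ ENNReal.ofReal_ne_top]
      refine lintegral_congr fun x => ?_
      rw [← ENNReal.ofReal_mul hw, norm_mul, norm_one_add, mul_pow, Real.sq_sqrt (by positivity)]
      congr 1
      field_simp
    · have h2 : Tendsto (fun x : ℝ => (b' * (x * √(1 + t ^ 2))) ^ 2) (𝓝[>] 0) (𝓝 0) := by
        have : Continuous fun x : ℝ => (b' * (x * √(1 + t ^ 2))) ^ 2 := by fun_prop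
        simpa using tendsto_nhdsWithin_of_tendsto_nhds (s := Ioi 0) (this.tendsto 0)
      refine squeeze_zero' (Eventually.of_forall fun x => by positivity) ?_ h2
      filter_upwards [self_mem_nhdsWithin, nhdsWithin_le_nhds (Iic_mem_nhds (div_pos hδ hl0))]
        with x hx hxδ
      have hx0 : 0 < x := hx
      have h1 := h0 _ (ray_mem hx0 t) (by
        rw [norm_ray hx0.le]
        exact (le_div_iff₀ hl0).1 hxδ)
      rw [norm_ray hx0.le] at h1
      exact pow_le_pow_left₀ (norm_nonneg _) h1 2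
    · refine (tendsto_pow_atTop two_ne_zero).comp (tendsto_atTop_mono' _ ?_
        (tendsto_atTop_add_const_right _ (-C) (tendsto_id.const_mul_atTop hc)))
      filter_upwards [eventually_gt_atTop 0] with x hx
      have := hdom _ (ray_mem hx t)
      rw [ray_re] at this
      simpa [sub_eq_add_neg] using this
  have h4 : ∫⁻ t : ℝ, ENNReal.ofReal ((1 + t ^ 2)⁻¹ * (2 * Real.log n)) =
      ENNReal.ofReal (2 * π * Real.log n) := by
    rw [← ofReal_integral_eq_lintegral_ofReal (integrable_inv_one_add_sq.mul_const _)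
      (Eventually.of_forall fun t => by positivity), integral_mul_const,
      integral_univ_inv_one_add_sq]
    congr 1
    ring
  rw [← h4]
  refine le_trans (le_lintegral_add _ _) (le_trans (lintegral_mono hray) ?_)
  rw [lintegral_add_right' _ hmaji.aemeasurable.ennreal_ofReal]
  exact add_le_add (change_var hF.diff hF.inj (continuous_rho_norm he hem)) hmajI

lemma area_sum {F G : ℂ → ℂ} (hF : DifferentiableOn ℂ F RHP) (hi : InjOn F RHP)
    (hdis : ∀ z ∈ RHP, ∀ w ∈ RHP, F z + conj (G w) ≠ 0) {e m : ℝ} (he : 0 < e) (hem : e ≤ m) :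
    (∫⁻ w in F '' RHP, ENNReal.ofReal (rho e m (‖w‖ ^ 2))) +
      (∫⁻ w in G '' RHP, ENNReal.ofReal (rho e m (‖w‖ ^ 2))) ≤
      ENNReal.ofReal (π * Real.log (m / e)) := by
  let R : ℂ ≃ₗᵢ[ℝ] ℂ := conjLIE.trans (LinearIsometryEquiv.neg ℝ)
  have h1 := R.measurePreserving.setLIntegral_comp_preimage_emb
    R.toHomeomorph.measurableEmbedding (fun w => ENNReal.ofReal (rho e m (‖w‖ ^ 2))) (G '' RHP)
  simp only [LinearIsometryEquiv.norm_map] at h1
  have hm : MeasurableSet (F '' RHP) :=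
    isOpen_RHP.measurableSet.image_of_continuousOn_injOn hF.continuousOn hi
  have hd : Disjoint (R ⁻¹' (G '' RHP)) (F '' RHP) := by
    rw [Set.disjoint_left]
    rintro _ ⟨w, hw, hw'⟩ ⟨z, hz, rfl⟩
    apply hdis z hz w hw
    rw [hw']
    simp [R]
  rw [← h1, add_comm, ← lintegral_union hm hd, ← plane_integral he hem]
  exact setLIntegral_le_lintegral _ _

lemma rho_lower {n s : ℝ} (hn : 2 ≤ n) (hs : 0 ≤ s) : 1 / (2 * (s + 1) ^ 2) ≤ rho n⁻¹ n s := by
  have hn0 : 0 < n := by linarith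
  have h1 : n⁻¹ ≤ 1 / 2 := by
    rw [one_div]
    exact inv_anti₀ (by norm_num) hn
  have h0 : 0 < n⁻¹ := by positivity
  have h2 : rho n⁻¹ n s = (n - n⁻¹) / ((s + n⁻¹) * (s + n)) := by
    simp only [rho]
    field_simp
    ring
  rw [h2, div_le_div_iff₀ (by positivity) (by positivity), one_mul]
  have h3 : (s + n⁻¹) * (s + n) ≤ (s + 1) * (n * (s + 1)) :=
    mul_le_mul (by linarith) (by nlinarith) (by positivity) (by positivity)
  have h4 : n / 2 ≤ n - n⁻¹ := by linarith
  have h5 := mul_le_mul_of_nonneg_right h4 (by positivity : 0 ≤ 2 * (s + 1) ^ 2)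
  nlinarith

theorem rigidity {F G : ℂ → ℂ} {a b a' b' : ℝ} (hF : Nice F a b) (hG : Nice G a' b') (ha : 0 < a)
    (ha' : 0 < a') (hb : 0 ≤ b) (hb' : 0 ≤ b') (hab : b * b' ≤ a * a')
    (hdis : ∀ z ∈ RHP, ∀ w ∈ RHP, F z + conj (G w) ≠ 0) :
    ∀ z ∈ RHP, z * deriv F z = F z := by
  intro z hz
  by_contra hne
  have hz' : 0 < z.re := hz
  set x₀ := z.re with hx₀
  set t₀ := z.im / z.re with ht₀
  have hzr : ray x₀ t₀ = z := by
    apply Complex.ext
    · rw [ray_re]
    · rw [ray_im, ht₀, mul_div_cancel₀ _ hz'.ne']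
  let q : ℝ × ℝ → ℝ := fun p => (1 + p.2 ^ 2)⁻¹ * (1 / (2 * (‖F (ray p.1 p.2)‖ ^ 2 + 1) ^ 2) *
    ‖ray p.1 p.2 * deriv F (ray p.1 p.2) - F (ray p.1 p.2)‖ ^ 2 / p.1)
  have hr : Continuous fun p : ℝ × ℝ => ray p.1 p.2 := by
    unfold ray
    fun_prop
  have hn : RHP ∈ 𝓝 (ray x₀ t₀) := isOpen_RHP.mem_nhds (ray_mem hz' _)
  have hFc : ContinuousAt (fun p : ℝ × ℝ => F (ray p.1 p.2)) (x₀, t₀) :=
    ContinuousAt.comp (f := fun p : ℝ × ℝ => ray p.1 p.2)
      (hF.diff.continuousOn.continuousAt hn) hr.continuousAt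
  have hF'c : ContinuousAt (fun p : ℝ × ℝ => deriv F (ray p.1 p.2)) (x₀, t₀) :=
    ContinuousAt.comp (f := fun p : ℝ × ℝ => ray p.1 p.2)
      ((continuousOn_deriv hF.diff).continuousAt hn) hr.continuousAt
  have hqc : ContinuousAt q (x₀, t₀) := by
    refine ContinuousAt.mul (ContinuousAt.inv₀ (by fun_prop) (by positivity))
      (ContinuousAt.div (ContinuousAt.mul (ContinuousAt.div continuousAt_const
        (continuousAt_const.mul (((hFc.norm.pow 2).add continuousAt_const).pow 2)) (by positivity))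
        (((hr.continuousAt.mul hF'c).sub hFc).norm.pow 2)) continuousAt_fst hz'.ne')
  have hq0 : 0 < q (x₀, t₀) := by
    have : 0 < ‖ray x₀ t₀ * deriv F (ray x₀ t₀) - F (ray x₀ t₀)‖ := by
      rw [hzr]
      exact norm_pos_iff.2 (sub_ne_zero.2 hne)
    simp only [q]
    positivity
  set q₀ := q (x₀, t₀) / 2 with hq₀
  have hq₀0 : 0 < q₀ := by positivity
  obtain ⟨r₀, hr₀, hball⟩ := Metric.eventually_nhds_iff.1
    (hqc.eventually (lt_mem_nhds (show q₀ < q (x₀, t₀) by linarith)))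
  set r := min (r₀ / 2) (x₀ / 2) with hrdef
  have hr0 : 0 < r := lt_min (by positivity) (by positivity)
  have hr1 : r < r₀ := lt_of_le_of_lt (min_le_left _ _) (by linarith)
  have hr2 : r < x₀ := lt_of_le_of_lt (min_le_right _ _) (by linarith)
  set c₀ := q₀ * (2 * r) * (2 * r) with hc₀
  have hc₀0 : 0 < c₀ := by positivity
  have hlow : ∀ n : ℝ, 2 ≤ n → ENNReal.ofReal c₀ ≤
      ∫⁻ t : ℝ, ENNReal.ofReal (1 + t ^ 2)⁻¹ * ∫⁻ x in Ioc (x₀ - r) (x₀ + r),
        ENNReal.ofReal (rho n⁻¹ n (‖F (ray x t)‖ ^ 2) *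
          ‖ray x t * deriv F (ray x t) - F (ray x t)‖ ^ 2 / x) := by
    intro n hn
    refine le_trans ?_ (setLIntegral_le_lintegral (Ioc (t₀ - r) (t₀ + r)) _)
    have h1 : ENNReal.ofReal c₀ =
        ∫⁻ _ in Ioc (t₀ - r) (t₀ + r), ∫⁻ _ in Ioc (x₀ - r) (x₀ + r), ENNReal.ofReal q₀ := by
      rw [setLIntegral_const, setLIntegral_const, Real.volume_Ioc, Real.volume_Ioc,
        ← ENNReal.ofReal_mul hq₀0.le, ← ENNReal.ofReal_mul' (by linarith)]
      congr 1
      rw [hc₀]
      ring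
    rw [h1]
    refine setLIntegral_mono' measurableSet_Ioc fun t ht => ?_
    rw [← lintegral_const_mul' _ _ ENNReal.ofReal_ne_top]
    refine setLIntegral_mono' measurableSet_Ioc fun x hx => ?_
    rw [← ENNReal.ofReal_mul (by positivity)]
    refine ENNReal.ofReal_le_ofReal ?_
    have hx0 : 0 < x := by linarith [hx.1]
    have h2 : q₀ < q (x, t) := by
      refine hball ?_
      rw [Prod.dist_eq, max_lt_iff, Real.dist_eq, Real.dist_eq, abs_lt, abs_lt]
      simp only
      exact ⟨⟨by linarith [hx.1], by linarith [hx.2]⟩, ⟨by linarith [ht.1], by linarith [ht.2]⟩⟩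
    refine h2.le.trans ?_
    simp only [q]
    gcongr
    exact rho_lower hn (by positivity)
  -- choice of the small parameter
  have hcont : ContinuousAt (fun η : ℝ => π * ((b + η) * (b' + η) / ((a - η) * (a' - η)) - 1) +
      2 * π * η + 2 * η) 0 := by
    refine ((continuousAt_const.mul (ContinuousAt.sub (ContinuousAt.div (by fun_prop)
      (by fun_prop) ?_) continuousAt_const)).add (by fun_prop)).add (by fun_prop)
    simp only [sub_zero]
    positivity
  have hval : π * ((b + 0) * (b' + 0) / ((a - 0) * (a' - 0)) - 1) + 2 * π * 0 + 2 * 0 < c₀ := by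
    simp only [add_zero, sub_zero, mul_zero]
    have : b * b' / (a * a') ≤ 1 := (div_le_one (by positivity)).2 hab
    nlinarith [Real.pi_pos]
  have hev : ∀ᶠ η in 𝓝[>] (0 : ℝ), (π * ((b + η) * (b' + η) / ((a - η) * (a' - η)) - 1) +
      2 * π * η + 2 * η < c₀ ∧ η < a ∧ η < a') ∧ 0 < η :=
    Eventually.and (nhdsWithin_le_nhds ((hcont.eventually (gt_mem_nhds hval)).and
      ((eventually_lt_nhds ha).and (eventually_lt_nhds ha'))))
      self_mem_nhdsWithin
  obtain ⟨η, ⟨hη1, hη2, hη3⟩, hη⟩ := hev.exists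
  have hα : 0 < a - η := by linarith
  have hα' : 0 < a' - η := by linarith
  have hx₁ : 0 < x₀ - r := by linarith
  have hpos : ∀ K : ℝ, ∀ᶠ n : ℝ in atTop, 0 ≤ Real.log n + K + η := fun K =>
    (tendsto_atTop_add_const_right _ η
      (tendsto_atTop_add_const_right _ _ Real.tendsto_log_atTop)).eventually_ge_atTop 0
  obtain ⟨n, h1, h2, h3, h4, h5⟩ := ((main_ineq hF hb (x₂ := x₀ + r) hx₁ hη hα
    (by linarith)).and ((main_ineq hG hb' (x₂ := x₀ + r) hx₁ hη hα' (by linarith)).and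
    ((eventually_ge_atTop 2).and ((hpos (Real.log ((b + η) / (a - η)))).and
    (hpos (Real.log ((b' + η) / (a' - η)))))))).exists
  have hn0 : 0 < n := by linarith
  have he : 0 < n⁻¹ := by positivity
  have hem : n⁻¹ ≤ n := le_trans (inv_le_one_of_one_le₀ (by linarith)) (by linarith)
  have hΛ : Real.log (n / n⁻¹) = 2 * Real.log n := by
    rw [Real.log_div hn0.ne' he.ne', Real.log_inv]
    ring
  have hlog0 : 0 ≤ Real.log n := Real.log_nonneg (by linarith)
  have h6 := area_sum hF.diff hF.inj hdis he hem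
  rw [hΛ] at h6
  have h7 := (add_le_add_left (hlow n h3) _).trans h1
  have h8 := le_add_self.trans h2
  have h9 := add_le_add h7 h8
  rw [add_add_add_comm _ (ENNReal.ofReal (π * (Real.log n + Real.log ((b + η) / (a - η)) + η) + η))]
    at h9
  have h10 := h9.trans (add_le_add_left h6 _)
  have hπ := Real.pi_pos
  rw [← ENNReal.ofReal_add (by positivity) (by positivity),
    ← ENNReal.ofReal_add (by positivity) (by positivity),
    ← ENNReal.ofReal_add (by positivity) (by positivity),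
    ← ENNReal.ofReal_add (by positivity) (by positivity),
    ENNReal.ofReal_le_ofReal_iff (by positivity)] at h10
  have h11 : Real.log ((b + η) / (a - η)) + Real.log ((b' + η) / (a' - η)) ≤
      (b + η) * (b' + η) / ((a - η) * (a' - η)) - 1 := by
    rw [← Real.log_mul (by positivity) (by positivity), div_mul_div_comm]
    exact Real.log_le_sub_one_of_pos (by positivity)
  have h12 := mul_le_mul_of_nonneg_left h11 hπ.le
  nlinarith

end Pool.Agent.Lib.MP_e968d9_an
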