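import Mathlib
import Pool.Agent.Lib.MP_e968d9_an.Cauchy

/-!
A Hilbert space model of the Hardy space of the right half-plane.
-/

set_option autoImplicit false

open Filter Topology Set MeasureTheory Complex
open scoped ENNReal Real ComplexConjugate InnerProductSpace

namespace Pool.Agent.Lib.MP_e968d9_an

/-- A Hilbert space `H` with vectors `k w` playing the role of `1 / (z + conj w)`. -/
structure Hardy (H : Type) [NormedAddCommGroup H] [InnerProductSpace ℂ H] where
  k : ℂ → H
  inner_k : ∀ v ∈ RHP, ∀ w ∈ RHP, ⟪k v, k w⟫_ℂ = 2 * π * (v + conj w)⁻¹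
  total : ∀ f : H, (∀ v ∈ RHP, ⟪k v, f⟫_ℂ = 0) → f = 0
  N_le : ∀ f : H, N (fun v => (2 * π : ℂ)⁻¹ * ⟪k v, f⟫_ℂ) ≤ ENNReal.ofReal (‖f‖ ^ 2)
  repr : ∀ (F : ℂ → ℂ) (M : ℝ), DifferentiableOn ℂ F RHP → L2b F M →
    ∃ f : H, (∀ v ∈ RHP, ⟪k v, f⟫_ℂ = 2 * π * F v) ∧ ‖f‖ ^ 2 ≤ M

section abstract

variable {H : Type} [NormedAddCommGroup H] [InnerProductSpace ℂ H] [CompleteSpace H]

lemma dense_span_of_total {ι : Type} (k : ι → H)
    (hk : ∀ f : H, (∀ i, ⟪k i, f⟫_ℂ = 0) → f = 0) :
    Dense ((Submodule.span ℂ (range k) : Submodule ℂ H) : Set H) := by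
  rw [Submodule.dense_iff_topologicalClosure_eq_top, Submodule.topologicalClosure_eq_top_iff,
    eq_bot_iff]
  intro f hf
  exact hk f fun i => hf _ (Submodule.subset_span ⟨i, rfl⟩)

lemma exists_riesz {ι : Type} (k : ι → H) (hk : ∀ f : H, (∀ i, ⟪k i, f⟫_ℂ = 0) → f = 0)
    (a : ι → ℂ) {C : ℝ} (hC : 0 ≤ C)
    (h : ∀ c : ι →₀ ℂ, ‖Finsupp.linearCombination ℂ a c‖ ≤ C * ‖Finsupp.linearCombination ℂ k c‖) :
    ∃ f : H, ‖f‖ ≤ C ∧ ∀ i, ⟪f, k i⟫_ℂ = a i := by
  have hd : DenseRange (Finsupp.linearCombination ℂ k) := by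
    have := dense_span_of_total k hk
    rw [← Finsupp.range_linearCombination] at this
    exact this
  let l : H →L[ℂ] ℂ := (Finsupp.linearCombination ℂ a).extendOfNorm (Finsupp.linearCombination ℂ k)
  refine ⟨(InnerProductSpace.toDual ℂ H).symm l, ?_, fun i => ?_⟩
  · rw [LinearIsometryEquiv.norm_map]
    exact LinearMap.opNorm_extendOfNorm_le hd hC h
  · rw [InnerProductSpace.toDual_symm_apply]
    have := LinearMap.extendOfNorm_eq hd ⟨C, h⟩ (Finsupp.single i 1)
    simpa using this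

end abstract

/-- The ambient space. -/
abbrev L2 : Type := Lp ℂ 2 (volume : Measure ℝ)

lemma continuous_inv_line {p : ℂ} (h : p.re ≠ 0) : Continuous fun y : ℝ => ((y : ℂ) * I + p)⁻¹ := by
  refine Continuous.inv₀ (by fun_prop) fun y hy => h ?_
  simpa using congrArg Complex.re hy

lemma memLp_inv {p : ℂ} (h : p.re ≠ 0) :
    MemLp (fun y : ℝ => ((y : ℂ) * I + p)⁻¹) 2 (volume : Measure ℝ) := by
  rw [memLp_two_iff_integrable_sq_norm (continuous_inv_line h).aestronglyMeasurable]
  have := integrable_inv_sq (s := 0) (p := -p) (by simpa using h)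
  simpa using this

open Classical in
/-- The class of `1 / (i y + p)`. -/
noncomputable def kL (p : ℂ) : L2 := if h : p.re ≠ 0 then (memLp_inv h).toLp _ else 0

lemma kL_ae {p : ℂ} (h : p.re ≠ 0) : (kL p : ℝ → ℂ) =ᵐ[volume] fun y : ℝ => ((y : ℂ) * I + p)⁻¹ := by
  rw [kL, dif_pos h]
  exact MemLp.coeFn_toLp _

lemma inner_kL {p : ℂ} (h : p.re ≠ 0) (φ : L2) :
    ⟪kL p, φ⟫_ℂ = ∫ y : ℝ, φ y * (conj p - y * I)⁻¹ := by
  rw [L2.inner_def]
  refine integral_congr_ae ?_
  filter_upwards [kL_ae h] with y hy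
  rw [hy, RCLike.inner_apply, map_inv₀]
  congr 2
  simp
  ring

lemma integrable_kL {p : ℂ} (h : p.re ≠ 0) (φ : L2) :
    Integrable fun y : ℝ => φ y * (conj p - y * I)⁻¹ := by
  refine (L2.integrable_inner (𝕜 := ℂ) (kL p) φ).congr ?_
  filter_upwards [kL_ae h] with y hy
  rw [hy, RCLike.inner_apply, map_inv₀]
  congr 2
  simp
  ring

lemma norm_sq_L2 (φ : L2) : ‖φ‖ ^ 2 = ∫ y : ℝ, ‖φ y‖ ^ 2 := by
  have h1 : (⟪φ, φ⟫_ℂ : ℂ) = ((∫ y : ℝ, ‖φ y‖ ^ 2 : ℝ) : ℂ) := by
    rw [L2.inner_def, ← integral_complex_ofReal]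
    refine integral_congr_ae (Eventually.of_forall fun y => ?_)
    simp only
    rw [inner_self_eq_norm_sq_to_K]
    simp
  rw [inner_self_eq_norm_sq_to_K] at h1
  apply Complex.ofReal_injective
  rw [← h1]
  simp

lemma integrable_sq_L2 (φ : L2) : Integrable fun y : ℝ => ‖φ y‖ ^ 2 :=
  (memLp_two_iff_integrable_sq_norm (Lp.aestronglyMeasurable φ)).1 (Lp.memLp φ)

lemma L2b_inv {q : ℂ} (hq : 0 < q.re) : L2b (fun z => (z + q)⁻¹) (π / q.re) := by
  intro x hx
  have hne : x ≠ (-q).re := by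
    simp only [neg_re]
    linarith
  have h1 := integrable_inv_sq hne
  have h2 := integral_inv_sq hne
  simp only [sub_neg_eq_add, neg_re] at h1 h2
  refine ⟨h1, ?_⟩
  rw [h2, abs_of_pos (by linarith)]
  exact div_le_div_of_nonneg_left Real.pi_pos.le hq (by linarith)

lemma differentiableOn_inv_add {q : ℂ} (hq : 0 ≤ q.re) :
    DifferentiableOn ℂ (fun z => (z + q)⁻¹) RHP := by
  refine DifferentiableOn.inv (by fun_prop) fun z hz h => ?_
  have h1 := congrArg Complex.re h
  have h2 : 0 < z.re := hz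
  simp at h1
  linarith

lemma inner_kL_kL {v w : ℂ} (hv : v ∈ RHP) (hw : w ∈ RHP) :
    ⟪kL (conj v), kL (conj w)⟫_ℂ = 2 * π * (v + conj w)⁻¹ := by
  have hv' : 0 < v.re := hv
  have hw' : 0 < w.re := hw
  have hq : 0 < (conj w - (w.re / 2 : ℝ) : ℂ).re := by
    simp
    linarith
  have h := cauchy_repr (differentiableOn_inv_add hq.le) (L2b_inv hq) (x := w.re / 2)
    (by linarith) hv'
  rw [inner_kL (by simpa using hv'.ne')]
  have e : ((w.re / 2 : ℝ) : ℂ) + v + (conj w - (w.re / 2 : ℝ)) = v + conj w := by ring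
  simp only [e] at h
  rw [← h]
  refine integral_congr_ae ?_
  filter_upwards [kL_ae (p := conj w) (by simpa using hw'.ne')] with y hy
  rw [hy, conj_conj]
  congr 2
  ring

lemma inner_kL_neg {u w : ℂ} (hu : u ∈ RHP) (hw : w ∈ RHP) :
    ⟪kL (-u), kL (conj w)⟫_ℂ = 0 := by
  have hu' : 0 < u.re := hu
  have hw' : 0 < w.re := hw
  have hq : 0 < (conj w - (w.re / 2 : ℝ) : ℂ).re := by
    simp
    linarith
  have h := cauchy_zero (differentiableOn_inv_add hq.le) (L2b_inv hq) (x := w.re / 2)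
    (by linarith) (u := conj u) (by simpa using hu')
  rw [inner_kL (by simpa using hu'.ne'), ← neg_eq_zero, ← integral_neg, ← h]
  refine integral_congr_ae ?_
  filter_upwards [kL_ae (p := conj w) (by simpa using hw'.ne')] with y hy
  rw [hy, ← mul_neg, ← inv_neg]
  congr 2
  · ring
  · simp

/-- The Poisson estimate. -/
lemma poisson_bound (φ : L2) (hφ : ∀ u ∈ RHP, ⟪kL (-u), φ⟫_ℂ = 0) :
    N (fun v => (2 * π : ℂ)⁻¹ * ⟪kL (conj v), φ⟫_ℂ) ≤ ENNReal.ofReal (‖φ‖ ^ 2) := by
  refine iSup₂_le fun x hx => ?_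
  let P : ℝ → ℝ → ℝ := fun t y => 2 * x * (x ^ 2 + (y - t) ^ 2)⁻¹
  have hP0 : ∀ t y, 0 ≤ P t y := fun t y => by positivity
  have hPi : ∀ t, Integrable (P t) := fun t => (integrable_lor hx.ne' t).const_mul _
  have hPI : ∀ t, ∫ y, P t y = 2 * π := fun t => by
    simp only [P]
    rw [integral_const_mul, integral_lor hx.ne', abs_of_pos hx]
    field_simp
  have hPb : ∀ t y, P t y ≤ 2 * x * (x ^ 2)⁻¹ := fun t y => by
    simp only [P]
    gcongr
    nlinarith [sq_nonneg (y - t)]
  have hPc : ∀ t, Continuous (P t) := fun t =>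
    continuous_const.mul (Continuous.inv₀ (by fun_prop) fun y => by positivity)
  have hsq := integrable_sq_L2 φ
  have hBi : ∀ t, Integrable fun y => ‖φ y‖ ^ 2 * P t y := fun t =>
    hsq.mul_bdd (hPc t).aestronglyMeasurable (Eventually.of_forall fun y => by
      rw [Real.norm_of_nonneg (hP0 t y)]
      exact hPb t y)
  have hpt : ∀ t : ℝ, ‖(2 * π : ℂ)⁻¹ * ⟪kL (conj ((x : ℂ) + t * I)), φ⟫_ℂ‖ ^ 2 ≤
      (2 * π)⁻¹ * ∫ y, ‖φ y‖ ^ 2 * P t y := by
    intro t
    have hre : (conj ((x : ℂ) + t * I)).re ≠ 0 := by simpa using hx.ne'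
    have hre' : (-((x : ℂ) + t * I)).re ≠ 0 := by simpa using hx.ne'
    have h1 : ⟪kL (conj ((x : ℂ) + t * I)), φ⟫_ℂ = ∫ y : ℝ, φ y * (P t y : ℂ) := by
      rw [← sub_zero ⟪kL (conj ((x : ℂ) + t * I)), φ⟫_ℂ, ← hφ _ (line_mem hx t), inner_kL hre,
        inner_kL hre', ← integral_sub (integrable_kL hre φ) (integrable_kL hre' φ)]
      refine integral_congr_ae (Eventually.of_forall fun y => ?_)
      simp only [P]
      rw [← mul_sub]
      congr 1
      have e1 : (x : ℂ) + t * I - y * I ≠ 0 := fun h => hx.ne' (by simpa using congrArg Complex.re h)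
      have e3 : (x : ℂ) ^ 2 + (y - t) ^ 2 ≠ 0 := by
        have : (0 : ℝ) < x ^ 2 + (y - t) ^ 2 := by positivity
        exact_mod_cast this.ne'
      have e4 : -((x : ℂ) - t * I) - y * I ≠ 0 := fun h =>
        hx.ne' (by simpa using congrArg Complex.re h)
      have e5 : conj (-((x : ℂ) + t * I)) = -((x : ℂ) - t * I) := by
        simp
        ring
      have e6 : (x : ℂ) ^ 2 + (y - t) ^ 2 =
          -(((x : ℂ) + t * I - y * I) * (-((x : ℂ) - t * I) - y * I)) := by
        ring_nf
        simp only [I_sq]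
        ring
      rw [conj_conj, e5]
      push_cast
      rw [e6]
      have e7 : (2 * x : ℂ) = ((x : ℂ) + t * I - y * I) - (-((x : ℂ) - t * I) - y * I) := by ring
      rw [e7]
      generalize ((x : ℂ) + t * I - y * I) = a at e1
      generalize (-((x : ℂ) - t * I) - y * I) = b at e4
      field_simp
      ring
    set A : ℝ := ∫ y, ‖φ y‖ * P t y with hA
    set B : ℝ := ∫ y, ‖φ y‖ ^ 2 * P t y with hB
    have hB0 : 0 ≤ B := integral_nonneg fun y => mul_nonneg (by positivity) (hP0 t y)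
    have h2 : ‖⟪kL (conj ((x : ℂ) + t * I)), φ⟫_ℂ‖ ≤ A := by
      rw [h1]
      refine le_trans (norm_integral_le_integral_norm _) (le_of_eq ?_)
      refine integral_congr_ae (Eventually.of_forall fun y => ?_)
      simp only
      rw [norm_mul, Complex.norm_real, Real.norm_of_nonneg (hP0 t y)]
    have h3 : ∀ l : ℝ, 0 < l → A ≤ l / 2 * (2 * π) + 1 / (2 * l) * B := by
      intro l hl
      rw [← hPI t, hB, ← integral_const_mul, ← integral_const_mul,
        ← integral_add ((hPi t).const_mul _) ((hBi t).const_mul _)]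
      refine integral_mono_of_nonneg
        (Eventually.of_forall fun y => mul_nonneg (norm_nonneg _) (hP0 t y))
        (((hPi t).const_mul _).add ((hBi t).const_mul _)) (Eventually.of_forall fun y => ?_)
      have := mul_le_mul_of_nonneg_right (amgm (u := 1) (v := ‖φ y‖) hl) (hP0 t y)
      simp only
      nlinarith
    have h4 : A ^ 2 ≤ 2 * π * B := by
      have hA0 : 0 ≤ A := le_trans (norm_nonneg _) h2
      rcases hA0.eq_or_lt with h0 | h0
      · rw [← h0, sq, mul_zero]
        positivity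
      · have := h3 (A / (2 * π)) (by positivity)
        have e : A / (2 * π) / 2 * (2 * π) + 1 / (2 * (A / (2 * π))) * B = A / 2 + π * B / A := by
          field_simp
        rw [e] at this
        have h5 : A / 2 ≤ π * B / A := by linarith
        rw [le_div_iff₀ h0] at h5
        nlinarith
    have h5 : ‖(2 * π : ℂ)⁻¹‖ = (2 * π)⁻¹ := by
      rw [norm_inv, norm_mul, Complex.norm_real, Real.norm_of_nonneg Real.pi_pos.le]
      simp
    rw [norm_mul, h5, mul_pow]
    have h6 : ‖⟪kL (conj ((x : ℂ) + t * I)), φ⟫_ℂ‖ ^ 2 ≤ 2 * π * B :=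
      le_trans (pow_le_pow_left₀ (norm_nonneg _) h2 2) h4
    calc (2 * π)⁻¹ ^ 2 * ‖⟪kL (conj ((x : ℂ) + t * I)), φ⟫_ℂ‖ ^ 2
        ≤ (2 * π)⁻¹ ^ 2 * (2 * π * B) := by gcongr
      _ = (2 * π)⁻¹ * B := by field_simp
  have hmeas : AEMeasurable (Function.uncurry fun (t y : ℝ) =>
      ENNReal.ofReal (‖φ y‖ ^ 2 * ((2 * π)⁻¹ * P t y))) (volume.prod volume) := by
    refine AEMeasurable.ennreal_ofReal (AEMeasurable.mul ?_ ?_)
    · exact hsq.aemeasurable.comp_snd
    · refine Continuous.aemeasurable (continuous_const.mul (continuous_const.mul ?_))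
      exact Continuous.inv₀ (by fun_prop) fun p => by positivity
  calc ∫⁻ t : ℝ, (‖(2 * π : ℂ)⁻¹ * ⟪kL (conj ((x : ℂ) + t * I)), φ⟫_ℂ‖₊ : ℝ≥0∞) ^ 2
      ≤ ∫⁻ t : ℝ, ∫⁻ y : ℝ, ENNReal.ofReal (‖φ y‖ ^ 2 * ((2 * π)⁻¹ * P t y)) := by
        refine lintegral_mono fun t => ?_
        rw [nnnorm_sq_eq]
        refine le_trans (ENNReal.ofReal_le_ofReal (hpt t)) (le_of_eq ?_)
        rw [← integral_const_mul, ofReal_integral_eq_lintegral_ofReal ((hBi t).const_mul _)
          (Eventually.of_forall fun y => mul_nonneg (by positivity)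
            (mul_nonneg (by positivity) (hP0 t y)))]
        refine lintegral_congr fun y => ?_
        congr 1
        ring
    _ = ∫⁻ y : ℝ, ∫⁻ t : ℝ, ENNReal.ofReal (‖φ y‖ ^ 2 * ((2 * π)⁻¹ * P t y)) :=
        lintegral_lintegral_swap hmeas
    _ = ∫⁻ y : ℝ, ENNReal.ofReal (‖φ y‖ ^ 2) := by
        refine lintegral_congr fun y => ?_
        have e : ∀ t, P t y = P y t := fun t => by
          simp only [P]
          congr 3
          ring
        simp_rw [e]
        rw [← ofReal_integral_eq_lintegral_ofReal (((hPi y).const_mul _).const_mul _)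
          (Eventually.of_forall fun t => mul_nonneg (by positivity)
            (mul_nonneg (by positivity) (hP0 y t))), integral_const_mul, integral_const_mul, hPI]
        congr 1
        field_simp
    _ = ENNReal.ofReal (‖φ‖ ^ 2) := by
        rw [norm_sq_L2, ofReal_integral_eq_lintegral_ofReal hsq
          (Eventually.of_forall fun y => by positivity)]

/-- The closed span of the kernels. -/
noncomputable def HS : Submodule ℂ L2 :=
  (Submodule.span ℂ (range fun v : RHP => kL (conj (v : ℂ)))).topologicalClosure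

instance : CompleteSpace HS := (Submodule.isClosed_topologicalClosure _).completeSpace_coe

open Classical in
/-- The kernels as elements of the closed span. -/
noncomputable def kH (v : ℂ) : HS :=
  if h : v ∈ RHP then ⟨kL (conj v), Submodule.le_topologicalClosure _
    (Submodule.subset_span ⟨⟨v, h⟩, rfl⟩)⟩ else 0

lemma kH_coe {v : ℂ} (h : v ∈ RHP) : (kH v : L2) = kL (conj v) := by
  rw [kH, dif_pos h]

lemma HS_orth {g : L2} (hg : ∀ v ∈ RHP, ⟪kL (conj v), g⟫_ℂ = 0) (f : HS) :
    ⟪(f : L2), g⟫_ℂ = 0 := by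
  have h1 : g ∈ (Submodule.span ℂ (range fun v : RHP => kL (conj (v : ℂ))))ᗮ := by
    rw [Submodule.mem_orthogonal]
    intro u hu
    induction hu using Submodule.span_induction with
    | mem x hx =>
      obtain ⟨v, rfl⟩ := hx
      exact hg v v.2
    | zero => simp
    | add x y _ _ hx hy => rw [inner_add_left, hx, hy, add_zero]
    | smul a x _ hx => rw [inner_smul_left, hx, mul_zero]
  rw [← Submodule.orthogonal_closure] at h1
  exact h1 f f.2

lemma kH_total (f : HS) (hf : ∀ v ∈ RHP, ⟪kH v, f⟫_ℂ = 0) : f = 0 := by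
  have := HS_orth (g := f) (fun v hv => by rw [← kH_coe hv]; exact hf v hv) f
  exact inner_self_eq_zero.1 this

/-- The model exists. -/
noncomputable def hardyModel : Hardy HS where
  k := kH
  inner_k v hv w hw := by
    rw [Submodule.coe_inner, kH_coe hv, kH_coe hw, inner_kL_kL hv hw]
  total := kH_total
  N_le f := by
    have h := poisson_bound (f : L2) fun u hu => by
      rw [← inner_conj_symm, HS_orth (g := kL (-u)) (fun v hv => by
        rw [← inner_conj_symm, inner_kL_neg hu hv, map_zero]) f, map_zero]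
    refine le_trans (le_of_eq (N_congr fun v hv => ?_)) h
    rw [Submodule.coe_inner, kH_coe hv]
  repr F M hd hF := by
    have hM : 0 ≤ M := le_trans (integral_nonneg fun y => by positivity) (hF 1 one_pos).2
    have hmem : ∀ x : ℝ, 0 < x → MemLp (fun y : ℝ => F (x + y * I)) 2 (volume : Measure ℝ) :=
      fun x hx => (memLp_two_iff_integrable_sq_norm
        (continuous_line hd.continuousOn (line_mem hx)).aestronglyMeasurable).2 (hF x hx).1
    have hnorm : ∀ x (hx : 0 < x), ‖(hmem x hx).toLp _‖ ≤ √M := by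
      intro x hx
      refine Real.le_sqrt_of_sq_le ?_
      rw [norm_sq_L2]
      refine le_trans (le_of_eq (integral_congr_ae ?_)) (hF x hx).2
      filter_upwards [MemLp.coeFn_toLp (hmem x hx)] with y hy
      rw [hy]
    have hinner : ∀ x (hx : 0 < x), ∀ v ∈ RHP,
        ⟪(hmem x hx).toLp _, kL (conj v)⟫_ℂ = conj (2 * π * F (x + v)) := by
      intro x hx v hv
      have hv' : 0 < v.re := hv
      rw [← inner_conj_symm, inner_kL (by simpa using hv'.ne'), ← cauchy_repr hd hF hx hv']
      congr 1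
      refine integral_congr_ae ?_
      filter_upwards [MemLp.coeFn_toLp (hmem x hx)] with y hy
      rw [hy, conj_conj]
    obtain ⟨f, hf1, hf2⟩ := exists_riesz (fun v : RHP => kH v)
      (fun f hf => kH_total f fun v hv => hf ⟨v, hv⟩) (fun v : RHP => conj (2 * π * F v))
      (Real.sqrt_nonneg M) (fun c => by
        have hlim : Tendsto (fun x : ℝ => Finsupp.linearCombination ℂ
            (fun v : RHP => conj (2 * π * F (x + v))) c) (𝓝[>] 0)
            (𝓝 (Finsupp.linearCombination ℂ (fun v : RHP => conj (2 * π * F v)) c)) := by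
          simp only [Finsupp.linearCombination_apply, Finsupp.sum]
          refine tendsto_finsetSum _ fun v _ => Tendsto.const_smul ?_ _
          refine (continuous_conj.tendsto _).comp (Tendsto.const_mul _ ?_)
          have h1 : ContinuousAt F v := hd.continuousOn.continuousAt (isOpen_RHP.mem_nhds v.2)
          refine h1.tendsto.comp (tendsto_nhdsWithin_of_tendsto_nhds ?_)
          have : Continuous fun x : ℝ => (x : ℂ) + v := by fun_prop
          simpa using this.tendsto 0
        refine le_of_tendsto hlim.norm ?_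
        filter_upwards [self_mem_nhdsWithin] with x hx
        have h1 : Finsupp.linearCombination ℂ (fun v : RHP => conj (2 * π * F (x + v))) c =
            ⟪(hmem x hx).toLp _,
              ((Finsupp.linearCombination ℂ (fun v : RHP => kH v) c : HS) : L2)⟫_ℂ := by
          simp only [Finsupp.linearCombination_apply, Finsupp.sum, Submodule.coe_sum, inner_sum,
            Submodule.coe_smul, inner_smul_right, smul_eq_mul]
          refine Finset.sum_congr rfl fun v _ => ?_
          rw [kH_coe v.2, hinner x hx v v.2]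
        rw [h1]
        refine le_trans (norm_inner_le_norm _ _) ?_
        exact mul_le_mul_of_nonneg_right (hnorm x hx) (norm_nonneg _))
    refine ⟨f, fun v hv => ?_, ?_⟩
    · have := hf2 ⟨v, hv⟩
      simp only at this
      rw [← inner_conj_symm (𝕜 := ℂ) (kH v) f, this, conj_conj]
    · calc ‖f‖ ^ 2 ≤ √M ^ 2 := pow_le_pow_left₀ (norm_nonneg _) hf1 2
        _ = M := Real.sq_sqrt hM

end Pool.Agent.Lib.MP_e968d9_an
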