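import Mathlib
import Pool.Agent.Lib.MP_e968d9_an.Cauchy

/-!
General facts on holomorphic maps of the right half-plane: univalent maps have nonvanishing
derivative, an identity theorem, the Schwarz-Pick inequality and the angular derivative at
infinity.
-/

set_option autoImplicit false

open Filter Topology Set Complex
open scoped Real ComplexConjugate

namespace Pool.Agent.Lib.MP_e968d9_an

lemma deriv_ne_zero_of_injOn {f : ℂ → ℂ} {U : Set ℂ} (hU : IsOpen U)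
    (hf : DifferentiableOn ℂ f U) (hi : InjOn f U) {q : ℂ} (hq : q ∈ U) : deriv f q ≠ 0 := by
  intro h0
  have hUq : U ∈ 𝓝 q := hU.mem_nhds hq
  have ha : AnalyticAt ℂ f q := hf.analyticAt hUq
  have ha0 : AnalyticAt ℂ (fun z => f z - f q) q := ha.sub analyticAt_const
  have hne : ¬ ∀ᶠ z in 𝓝 q, f z - f q = 0 := by
    intro h
    have h1 : ∀ᶠ z in 𝓝[≠] q, f z - f q = 0 ∧ z ∈ U := nhdsWithin_le_nhds (h.and hUq)
    obtain ⟨z, hz, hz'⟩ := (h1.and self_mem_nhdsWithin).exists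
    exact hz' (hi hz.2 hq (sub_eq_zero.1 hz.1))
  obtain ⟨n, g, hg, hg0, hfg⟩ := ha0.exists_eventuallyEq_pow_smul_nonzero_iff.2 hne
  simp only [smul_eq_mul] at hfg
  rcases Nat.lt_or_ge n 2 with hn | hn
  · interval_cases n
    · have := hfg.self_of_nhds
      simp at this
      exact hg0 this.symm
    · have h1 : HasDerivAt (fun z => (z - q) ^ 1 * g z) (g q) q := by
        have := ((hasDerivAt_id q).sub_const q).mul hg.differentiableAt.hasDerivAt
        simp only [pow_one]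
        refine this.congr_deriv ?_
        simp
      have h2 : HasDerivAt (fun z => f z - f q) (deriv f q) q :=
        ha.differentiableAt.hasDerivAt.sub_const _
      have h3 := (h1.congr_of_eventuallyEq hfg).unique h2
      exact hg0 (h3.trans h0)
  · have hn0 : n ≠ 0 := by omega
    obtain ⟨c, hc⟩ := IsAlgClosed.exists_pow_nat_eq (g q) (Nat.pos_of_ne_zero hn0)
    have hc0 : c ≠ 0 := by
      rintro rfl
      rw [zero_pow hn0] at hc
      exact hg0 hc.symm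
    let r : ℂ → ℂ := fun z => c * exp (log (g z / g q) / n)
    have hr : AnalyticAt ℂ r q := by
      refine analyticAt_const.mul (AnalyticAt.cexp (AnalyticAt.div_const ?_))
      refine (hg.div_const).clog ?_
      rw [div_self hg0]
      exact one_mem_slitPlane
    have hrq : r q = c := by simp [r, div_self hg0]
    have hrn : ∀ᶠ z in 𝓝 q, r z ^ n = g z := by
      filter_upwards [hg.continuousAt.eventually_ne hg0] with z hz
      have hn' : (n : ℂ) ≠ 0 := by exact_mod_cast hn0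
      simp only [r]
      rw [mul_pow, hc, ← Complex.exp_nat_mul, mul_div_cancel₀ _ hn',
        exp_log (div_ne_zero hz hg0), mul_div_cancel₀ _ hg0]
    let h : ℂ → ℂ := fun z => (z - q) * r z
    have hh : HasStrictDerivAt h c q := by
      have hha : AnalyticAt ℂ h q := (analyticAt_id.sub analyticAt_const).mul hr
      have h1 := ((hasDerivAt_id q).sub_const q).mul hr.differentiableAt.hasDerivAt
      have h2 : HasDerivAt h c q := by
        refine h1.congr_deriv ?_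
        simp [hrq]
      rw [← h2.deriv]
      exact hha.hasStrictDerivAt
    have hmap := hh.map_nhds_eq hc0
    have hq0 : h q = 0 := by simp [h]
    rw [hq0] at hmap
    have hS : {z | z ∈ U ∧ f z - f q = h z ^ n} ∈ 𝓝 q := by
      filter_upwards [hUq, hfg, hrn] with z h1 h2 h3
      exact ⟨h1, by rw [h2, mul_pow, h3]⟩
    have hS' : h '' {z | z ∈ U ∧ f z - f q = h z ^ n} ∈ 𝓝 (0 : ℂ) := by
      rw [← hmap]
      exact image_mem_map hS
    set ω : ℂ := exp (2 * π * I / n) with hω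
    have hωp := Complex.isPrimitiveRoot_exp n hn0
    have hω1 : ω ≠ 1 := hωp.ne_one hn
    have hωn : ω ^ n = 1 := hωp.pow_eq_one
    have hS'' : ∀ᶠ ε in 𝓝 (0 : ℂ), ω * ε ∈ h '' {z | z ∈ U ∧ f z - f q = h z ^ n} := by
      have : Tendsto (fun ε : ℂ => ω * ε) (𝓝 0) (𝓝 0) := by
        simpa using (continuous_const.mul continuous_id).tendsto (0 : ℂ) (f := fun ε => ω * ε)
      exact this hS'
    have h1 : ∀ᶠ ε in 𝓝[≠] (0 : ℂ), ε ∈ h '' {z | z ∈ U ∧ f z - f q = h z ^ n} ∧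
        ω * ε ∈ h '' {z | z ∈ U ∧ f z - f q = h z ^ n} :=
      nhdsWithin_le_nhds (Eventually.and hS' hS'')
    obtain ⟨ε, ⟨⟨z₁, hz₁, e₁⟩, ⟨z₂, hz₂, e₂⟩⟩, hε⟩ := (h1.and self_mem_nhdsWithin).exists
    have h2 : f z₁ = f z₂ := by
      have : f z₁ - f q = f z₂ - f q := by rw [hz₁.2, hz₂.2, e₁, e₂, mul_pow, hωn, one_mul]
      linear_combination this
    have h3 := hi hz₁.1 hz₂.1 h2
    rw [h3, e₂] at e₁
    exact hω1 (mul_right_cancel₀ hε (e₁.trans (one_mul ε).symm))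

lemma one_mem_RHP : (1 : ℂ) ∈ RHP := by simp

lemma identity_comp {θ g₁ g₂ : ℂ → ℂ} (hθ : DifferentiableOn ℂ θ RHP) (hm : MapsTo θ RHP RHP)
    (hnc : ¬ ∃ w, ∀ z ∈ RHP, θ z = w) (h₁ : DifferentiableOn ℂ g₁ RHP)
    (h₂ : DifferentiableOn ℂ g₂ RHP) (h : ∀ z ∈ RHP, g₁ (θ z) = g₂ (θ z)) :
    ∀ z ∈ RHP, g₁ z = g₂ z := by
  have hop := ((hθ.analyticOnNhd isOpen_RHP).is_constant_or_isOpen
    convex_RHP.isPreconnected).resolve_left hnc RHP Subset.rfl isOpen_RHP
  refine (h₁.analyticOnNhd isOpen_RHP).eqOn_of_preconnected_of_eventuallyEq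
    (h₂.analyticOnNhd isOpen_RHP) convex_RHP.isPreconnected (hm one_mem_RHP) ?_
  filter_upwards [hop.mem_nhds (mem_image_of_mem θ one_mem_RHP)] with w hw
  obtain ⟨z, hz, rfl⟩ := hw
  exact h z hz

lemma normSq_add_conj (z w : ℂ) : ‖z + conj w‖ ^ 2 = ‖z - w‖ ^ 2 + 4 * z.re * w.re := by
  rw [← Complex.normSq_eq_norm_sq, ← Complex.normSq_eq_norm_sq, normSq_apply, normSq_apply]
  simp
  ring

lemma add_conj_ne_zero {z w : ℂ} (hz : 0 < z.re) (hw : 0 ≤ w.re) : z + conj w ≠ 0 := by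
  intro h
  have := congrArg Complex.re h
  simp at this
  linarith

/-- The Schwarz-Pick inequality on the right half-plane. -/
lemma schwarz_pick {g : ℂ → ℂ} (hg : DifferentiableOn ℂ g RHP) (hm : MapsTo g RHP RHP)
    {z z₀ : ℂ} (hz : z ∈ RHP) (hz₀ : z₀ ∈ RHP) :
    ‖g z - g z₀‖ ^ 2 * (z.re * z₀.re) ≤ ‖z - z₀‖ ^ 2 * ((g z).re * (g z₀).re) := by
  have hz' : 0 < z.re := hz
  have hz₀' : 0 < z₀.re := hz₀
  have hw : 0 < (g z).re := hm hz
  have hw₀ : 0 < (g z₀).re := hm hz₀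
  let m : ℂ → ℂ := fun u => (z₀ + conj z₀ * u) / (1 - u)
  have hne : ∀ u ∈ Metric.ball (0 : ℂ) 1, 1 - u ≠ 0 := by
    intro u hu h
    have : u = 1 := by linear_combination -h
    simp [this] at hu
  have hmm : MapsTo m (Metric.ball 0 1) RHP := by
    intro u hu
    have h1 := hne u hu
    have h2 : normSq u < 1 := by
      rw [Complex.normSq_eq_norm_sq]
      have := mem_ball_zero_iff.1 hu
      nlinarith [norm_nonneg u]
    show 0 < ((z₀ + conj z₀ * u) / (1 - u)).re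
    rw [div_re, ← add_div]
    refine div_pos ?_ (normSq_pos.2 h1)
    rw [normSq_apply] at h2
    simp
    nlinarith
  have hmd : DifferentiableOn ℂ m (Metric.ball 0 1) :=
    DifferentiableOn.div (by fun_prop) (by fun_prop) hne
  let k : ℂ → ℂ := fun u => (g (m u) - g z₀) / (g (m u) + conj (g z₀))
  have hm0 : m 0 = z₀ := by simp [m]
  have hk0 : k 0 = 0 := by simp [k, hm0]
  have hkd : DifferentiableOn ℂ k (Metric.ball 0 1) := by
    have h1 : DifferentiableOn ℂ (fun u => g (m u)) (Metric.ball 0 1) := hg.comp hmd hmm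
    exact (h1.sub_const _).div (h1.add_const _) fun u hu =>
      add_conj_ne_zero (hm (hmm hu)) hw₀.le
  have hlt : ∀ {a b : ℂ}, 0 < a.re → 0 < b.re → ‖(a - b) / (a + conj b)‖ < 1 := by
    intro a b ha hb
    rw [norm_div, div_lt_one (norm_pos_iff.2 (add_conj_ne_zero ha hb.le)),
      ← sq_lt_sq₀ (norm_nonneg _) (norm_nonneg _), normSq_add_conj]
    nlinarith [mul_pos ha hb]
  have hkm : MapsTo k (Metric.ball 0 1) (Metric.closedBall 0 1) := by
    intro u hu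
    exact mem_closedBall_zero_iff.2 (hlt (hm (hmm hu)) hw₀).le
  set u : ℂ := (z - z₀) / (z + conj z₀) with hu
  have hub : u ∈ Metric.ball (0 : ℂ) 1 := mem_ball_zero_iff.2 (hlt hz' hz₀')
  have hmu : m u = z := by
    have h1 := add_conj_ne_zero hz' hz₀'.le
    have h2 := add_conj_ne_zero hz₀' hz₀'.le
    simp only [m]
    rw [div_eq_iff (hne u hub), hu]
    field_simp
    ring
  have hS := norm_le_norm_of_mapsTo_ball hkd hkm hk0 (mem_ball_zero_iff.1 hub)
  simp only [k, hmu] at hS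
  rw [hu, norm_div, norm_div, div_le_div_iff₀ (norm_pos_iff.2 (add_conj_ne_zero hw hw₀.le))
    (norm_pos_iff.2 (add_conj_ne_zero hz' hz₀'.le)),
    ← sq_le_sq₀ (by positivity) (by positivity), mul_pow, mul_pow, normSq_add_conj,
    normSq_add_conj] at hS
  nlinarith

/-- The angular derivative at infinity. -/
lemma julia {θ : ℂ → ℂ} (hθ : DifferentiableOn ℂ θ RHP) (hm : MapsTo θ RHP RHP) :
    ∃ a : ℝ, 0 ≤ a ∧ (∀ z ∈ RHP, a * z.re ≤ (θ z).re) ∧
      (∀ c : ℝ, (∀ z ∈ RHP, c * z.re ≤ (θ z).re) → c ≤ a) ∧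
      ∀ κ : ℝ, 0 < κ → ∀ ε : ℝ, 0 < ε → ∃ R : ℝ, ∀ z ∈ RHP, κ * ‖z‖ ≤ z.re → R ≤ ‖z‖ →
        ‖θ z - a * z‖ ≤ ε * ‖z‖ := by
  let S : Set ℝ := (fun z : ℂ => (θ z).re / z.re) '' RHP
  have hne : S.Nonempty := ⟨_, 1, one_mem_RHP, rfl⟩
  have hlb : ∀ s ∈ S, 0 ≤ s := by
    rintro _ ⟨z, hz, rfl⟩
    exact div_nonneg (le_of_lt (hm hz)) (le_of_lt hz)
  have hbdd : BddBelow S := ⟨0, hlb⟩
  have h1 : ∀ z ∈ RHP, sInf S * z.re ≤ (θ z).re := fun z hz =>
    (le_div_iff₀ hz).1 (csInf_le hbdd ⟨z, hz, rfl⟩)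
  refine ⟨sInf S, le_csInf hne hlb, h1, fun c hc => le_csInf hne ?_, fun κ hκ ε hε => ?_⟩
  · rintro _ ⟨z, hz, rfl⟩
    exact (le_div_iff₀ hz).2 (hc z hz)
  set a := sInf S with ha
  set η : ℝ := ε * min κ 1 / 20 with hη
  have hmin : 0 < min κ 1 := lt_min hκ one_pos
  have hη0 : 0 < η := by positivity
  have hη1 : η ≤ ε * κ / 20 := by
    rw [hη]
    gcongr
    exact min_le_left _ _
  have hη2 : η ≤ ε / 20 := by
    rw [hη]
    have := mul_le_mul_of_nonneg_left (min_le_right κ 1) hε.le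
    linarith
  obtain ⟨_, ⟨z₀, hz₀, rfl⟩, hs⟩ := exists_lt_of_csInf_lt hne (show sInf S < a + η by linarith)
  have hz₀' : 0 < z₀.re := hz₀
  have hs' : (θ z₀).re < (a + η) * z₀.re := (div_lt_iff₀ hz₀').1 hs
  let g : ℂ → ℂ := fun z => θ z - ((a - η : ℝ) : ℂ) * z
  have hgre : ∀ z, (g z).re = (θ z).re - (a - η) * z.re := fun z => by simp [g]
  have hgd : DifferentiableOn ℂ g RHP := hθ.sub (by fun_prop)
  have hgm : MapsTo g RHP RHP := by
    intro z hz
    have hz' : 0 < z.re := hz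
    show 0 < (g z).re
    rw [hgre]
    nlinarith [h1 z hz, mul_pos hη0 hz']
  refine ⟨max ‖z₀‖ (4 * ‖g z₀‖ / ε), fun z hz hκz hR => ?_⟩
  have hz' : 0 < z.re := hz
  have hzn : 0 < ‖z‖ := lt_of_lt_of_le hz' (re_le_norm z)
  have hR1 : ‖z₀‖ ≤ ‖z‖ := le_trans (le_max_left _ _) hR
  have hR2 : 4 * ‖g z₀‖ ≤ ε * ‖z‖ := by
    have := le_trans (le_max_right _ _) hR
    rwa [div_le_iff₀ hε, mul_comm ‖z‖] at this
  have hsp := schwarz_pick hgd hgm hz hz₀
  have h2 : (g z₀).re ≤ 2 * η * z₀.re := by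
    rw [hgre]
    nlinarith
  have h3 : ‖z - z₀‖ ≤ 2 * ‖z‖ := le_trans (norm_sub_le _ _) (by linarith)
  have h4 : (g z).re ≤ ‖g z‖ := re_le_norm _
  have h5 : 0 < (g z).re := hgm hz
  have h6 : 0 < (g z₀).re := hgm hz₀
  set D := ‖g z - g z₀‖ with hD
  set A := ‖g z‖ with hA
  have hD0 : 0 ≤ D := norm_nonneg _
  have h7 : D ^ 2 * (κ * ‖z‖ * z₀.re) ≤ (2 * ‖z‖) ^ 2 * (A * (2 * η * z₀.re)) :=
    calc D ^ 2 * (κ * ‖z‖ * z₀.re) ≤ D ^ 2 * (z.re * z₀.re) := by gcongr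
      _ ≤ ‖z - z₀‖ ^ 2 * ((g z).re * (g z₀).re) := hsp
      _ ≤ (2 * ‖z‖) ^ 2 * (A * (2 * η * z₀.re)) := by gcongr
  have h8 : D ^ 2 * κ ≤ 8 * η * ‖z‖ * A := by
    have : (D ^ 2 * κ) * (‖z‖ * z₀.re) ≤ (8 * η * ‖z‖ * A) * (‖z‖ * z₀.re) := by nlinarith
    exact le_of_mul_le_mul_right this (by positivity)
  have hA0 : 0 ≤ A := norm_nonneg _
  have h9 : D ^ 2 ≤ 2 / 5 * ε * ‖z‖ * A := by
    have : D ^ 2 * κ ≤ (2 / 5 * ε * ‖z‖ * A) * κ := by
      refine le_trans h8 ?_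
      have := mul_le_mul_of_nonneg_right hη1 (mul_nonneg hzn.le hA0)
      nlinarith
    exact le_of_mul_le_mul_right this hκ
  have h10 : D ≤ A / 2 + ε * ‖z‖ / 5 := by
    refine (abs_le_of_sq_le_sq' ?_ (by positivity)).2
    nlinarith [sq_nonneg (A / 2 - ε * ‖z‖ / 5)]
  have h11 : A ≤ ‖g z₀‖ + D := by
    have : g z = g z₀ + (g z - g z₀) := by ring
    rw [hA, this]
    simpa using norm_add_le (g z₀) (g z - g z₀)
  have h12 : θ z - a * z = g z - (η : ℂ) * z := by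
    simp only [g]
    push_cast
    ring
  rw [h12]
  refine le_trans (norm_sub_le _ _) ?_
  rw [norm_mul, Complex.norm_real, Real.norm_of_nonneg hη0.le]
  have := mul_le_mul_of_nonneg_right hη2 hzn.le
  linarith

end Pool.Agent.Lib.MP_e968d9_an
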