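import Mathlib
import Pool.Agent.Lib.MP_e968d9_an.Hardy
import Pool.Agent.Lib.MP_e968d9_an.Univalent

/-!
A normal composition operator yields a univalent left inverse of its symbol that is defined on
the whole half-plane.
-/

set_option autoImplicit false

open Filter Topology Set MeasureTheory Complex
open scoped ENNReal Real ComplexConjugate InnerProductSpace

namespace Pool.Agent.Lib.MP_e968d9_an

/-- The properties of the left inverse that are used later. -/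
structure LeftInv (θ Φ : ℂ → ℂ) : Prop where
  diff : DifferentiableOn ℂ Φ RHP
  inj : InjOn Φ RHP
  left : ∀ z ∈ RHP, Φ (θ z) = z
  ne : ∀ u ∈ RHP, ∀ ζ ∈ RHP, θ u + conj (Φ ζ) ≠ 0
  norm_ge : ∀ ζ ∈ RHP, ENNReal.ofReal (π / ζ.re) ≤ N (fun u => (θ u + conj (Φ ζ))⁻¹)
  bound₁ : ∀ u ∈ RHP, ∀ ζ ∈ RHP, 4 * u.re * ζ.re ≤ ‖θ u + conj (Φ ζ)‖ ^ 2
  bound₂ : ∀ u ∈ RHP, ∀ ζ ∈ RHP, ∀ ξ ∈ RHP,
    ‖(θ u + conj (Φ ζ))⁻¹ - (θ u + conj (Φ ξ))⁻¹‖ ^ 2 * (4 * u.re * ζ.re * ξ.re * (ζ.re + ξ.re)) ≤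
      ‖ζ - ξ‖ ^ 2

namespace Hardy

variable {H : Type} [NormedAddCommGroup H] [InnerProductSpace ℂ H] (h : Hardy H)

/-- The holomorphic function given by a vector. -/
noncomputable def ev (f : H) (v : ℂ) : ℂ := (2 * π : ℂ)⁻¹ * ⟪h.k v, f⟫_ℂ

lemma two_pi_ne : (2 * π : ℂ) ≠ 0 := by
  have := Real.pi_pos.ne'
  exact mul_ne_zero two_ne_zero (by exact_mod_cast this)

lemma norm_two_pi : ‖(2 * π : ℂ)‖ = 2 * π := by
  rw [norm_mul, Complex.norm_real, Real.norm_of_nonneg Real.pi_pos.le]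
  simp

lemma inner_eq (f : H) (v : ℂ) : ⟪h.k v, f⟫_ℂ = 2 * π * h.ev f v := by
  rw [ev, ← mul_assoc, mul_inv_cancel₀ two_pi_ne, one_mul]

lemma ev_k {v w : ℂ} (hv : v ∈ RHP) (hw : w ∈ RHP) : h.ev (h.k w) v = (v + conj w)⁻¹ := by
  rw [ev, h.inner_k v hv w hw, ← mul_assoc, inv_mul_cancel₀ two_pi_ne, one_mul]

lemma norm_k_sq {v : ℂ} (hv : v ∈ RHP) : ‖h.k v‖ ^ 2 = π / v.re := by
  have hv' : 0 < v.re := hv
  have h1 := h.inner_k v hv v hv
  rw [inner_self_eq_norm_sq_to_K, Complex.add_conj] at h1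
  apply Complex.ofReal_injective
  have h2 : (v.re : ℂ) ≠ 0 := by exact_mod_cast hv'.ne'
  push_cast at h1 ⊢
  refine Eq.trans h1 ?_
  field_simp

lemma ev_add (f g : H) (v : ℂ) : h.ev (f + g) v = h.ev f v + h.ev g v := by
  simp only [ev, inner_add_right, mul_add]

lemma ev_sub (f g : H) (v : ℂ) : h.ev (f - g) v = h.ev f v - h.ev g v := by
  simp only [ev, inner_sub_right, mul_sub]

lemma ev_smul (c : ℂ) (f : H) (v : ℂ) : h.ev (c • f) v = c * h.ev f v := by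
  simp only [ev, inner_smul_right]
  ring

lemma ev_sum {ι : Type} (s : Finset ι) (f : ι → H) (v : ℂ) :
    h.ev (∑ i ∈ s, f i) v = ∑ i ∈ s, h.ev (f i) v := by
  simp only [ev, inner_sum, Finset.mul_sum]

lemma ext_ev {f g : H} (hfg : ∀ v ∈ RHP, h.ev f v = h.ev g v) : f = g := by
  rw [← sub_eq_zero]
  refine h.total _ fun v hv => ?_
  rw [h.inner_eq, h.ev_sub, hfg v hv, sub_self, mul_zero]

lemma norm_ev_le (f : H) (v : ℂ) : ‖h.ev f v‖ ≤ (2 * π)⁻¹ * (‖h.k v‖ * ‖f‖) := by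
  rw [ev, norm_mul, norm_inv, norm_two_pi]
  exact mul_le_mul_of_nonneg_left (norm_inner_le_norm _ _) (by positivity)

lemma norm_ev_sq_le (f : H) {v : ℂ} (hv : v ∈ RHP) :
    ‖h.ev f v‖ ^ 2 * (4 * π * v.re) ≤ ‖f‖ ^ 2 := by
  have hv' : 0 < v.re := hv
  have h1 := pow_le_pow_left₀ (norm_nonneg _) (h.norm_ev_le f v) 2
  rw [mul_pow, mul_pow, h.norm_k_sq hv] at h1
  have h2 := mul_le_mul_of_nonneg_right h1 (by positivity : 0 ≤ 4 * π * v.re)
  refine le_trans h2 (le_of_eq ?_)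
  field_simp
  ring

lemma norm_k_sub_sq {v w : ℂ} (hv : v ∈ RHP) (hw : w ∈ RHP) :
    ‖h.k v - h.k w‖ ^ 2 * (v.re * w.re * (v.re + w.re)) ≤ π * ‖v - w‖ ^ 2 := by
  have hv' : 0 < v.re := hv
  have hw' : 0 < w.re := hw
  rw [@norm_sub_sq ℂ, h.norm_k_sq hv, h.norm_k_sq hw, h.inner_k v hv w hw]
  have h1 : RCLike.re (2 * π * (v + conj w)⁻¹ : ℂ) =
      2 * π * ((v.re + w.re) / ‖v + conj w‖ ^ 2) := by
    simp [Complex.normSq_eq_norm_sq]
  rw [h1]
  have h2 := normSq_add_conj v w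
  have h3 : (v.re + w.re) ^ 2 ≤ ‖v + conj w‖ ^ 2 := by
    have : (v + conj w).re ≤ ‖v + conj w‖ := re_le_norm _
    simp only [add_re, conj_re] at this
    exact pow_le_pow_left₀ (by positivity) this 2
  set D := ‖v + conj w‖ ^ 2 with hD
  set E := ‖v - w‖ ^ 2 with hE
  have hE0 : 0 ≤ E := by positivity
  have hD0 : 0 < D := lt_of_lt_of_le (by positivity) h3
  have h4 : (π / v.re - 2 * (2 * π * ((v.re + w.re) / D)) + π / w.re) *
      (v.re * w.re * (v.re + w.re)) = π * E * ((v.re + w.re) ^ 2 / D) := by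
    have : E = D - 4 * v.re * w.re := by linarith
    rw [this]
    field_simp
    ring
  rw [h4]
  exact mul_le_of_le_one_right (by positivity) ((div_le_one hD0).2 h3)

variable [CompleteSpace H]

lemma dense_span : Dense ((Submodule.span ℂ (range fun v : RHP => h.k v) : Submodule ℂ H) : Set H) :=
  dense_span_of_total _ fun f hf => h.total f fun v hv => hf ⟨v, hv⟩

lemma ev_diff (f : H) : DifferentiableOn ℂ (h.ev f) RHP := by
  set S : Set H := ((Submodule.span ℂ (range fun v : RHP => h.k v) : Submodule ℂ H) : Set H)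
    with hS
  have h1 : ∀ g ∈ S, DifferentiableOn ℂ (h.ev g) RHP := by
    intro g hg
    induction hg using Submodule.span_induction with
    | mem x hx =>
      obtain ⟨w, rfl⟩ := hx
      have hw : 0 < (w : ℂ).re := w.2
      exact (differentiableOn_inv_add (q := conj (w : ℂ)) (by simpa using hw.le)).congr
        fun v hv => h.ev_k hv w.2
    | zero => exact (differentiableOn_const 0).congr fun v _ => by simp [ev]
    | add x y _ _ hx hy => exact (hx.add hy).congr fun v _ => h.ev_add x y v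
    | smul a x _ hx => exact (hx.const_mul a).congr fun v _ => h.ev_smul a x v
  have : (𝓝[S] f).NeBot := mem_closure_iff_nhdsWithin_neBot.1 (h.dense_span f)
  refine TendstoLocallyUniformlyOn.differentiableOn (F := fun g => h.ev g) (φ := 𝓝[S] f) ?_
    (eventually_mem_nhdsWithin.mono h1) isOpen_RHP
  rw [Metric.tendstoLocallyUniformlyOn_iff]
  intro ε hε x hx
  have hx' : 0 < x.re := hx
  refine ⟨{y | x.re / 2 < y.re}, nhdsWithin_le_nhds
    ((isOpen_lt continuous_const continuous_re).mem_nhds (by simpa using hx')), ?_⟩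
  have h2 : ∀ᶠ g in 𝓝 f, ‖f - g‖ ^ 2 < ε ^ 2 * (4 * π * (x.re / 2)) := by
    have : Tendsto (fun g => ‖f - g‖ ^ 2) (𝓝 f) (𝓝 (‖f - f‖ ^ 2)) :=
      ((continuous_const.sub continuous_id).norm.pow 2).tendsto f
    refine this.eventually (gt_mem_nhds ?_)
    rw [sub_self, norm_zero, sq, mul_zero]
    positivity
  filter_upwards [nhdsWithin_le_nhds h2] with g hg y hy
  have hy' : x.re / 2 < y.re := hy
  have h3 := h.norm_ev_sq_le (f - g) (v := y) (show 0 < y.re by linarith)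
  rw [dist_eq_norm, ← h.ev_sub, ← sq_lt_sq₀ (norm_nonneg _) hε.le]
  have h4 : ‖h.ev (f - g) y‖ ^ 2 * (4 * π * (x.re / 2)) ≤ ‖h.ev (f - g) y‖ ^ 2 * (4 * π * y.re) := by
    gcongr
  exact lt_of_mul_lt_mul_right (lt_of_le_of_lt (h4.trans h3) hg) (by positivity)

omit [CompleteSpace H] in
lemma exists_ev {F : ℂ → ℂ} (hd : DifferentiableOn ℂ F RHP) (hF : N F < ⊤) :
    ∃ f : H, (∀ v ∈ RHP, h.ev f v = F v) ∧ ENNReal.ofReal (‖f‖ ^ 2) ≤ N F := by
  obtain ⟨f, hf1, hf2⟩ := h.repr F _ hd (L2b_toReal hd.continuousOn hF)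
  refine ⟨f, fun v hv => ?_, ?_⟩
  · rw [ev, hf1 v hv, ← mul_assoc, inv_mul_cancel₀ two_pi_ne, one_mul]
  · rw [← ENNReal.ofReal_toReal hF.ne]
    exact ENNReal.ofReal_le_ofReal hf2

lemma N_ev (f : H) : N (h.ev f) = ENNReal.ofReal (‖f‖ ^ 2) := by
  have h1 : N (h.ev f) ≤ ENNReal.ofReal (‖f‖ ^ 2) := h.N_le f
  refine le_antisymm h1 ?_
  obtain ⟨g, hg1, hg2⟩ := h.exists_ev (h.ev_diff f) (lt_of_le_of_lt h1 ENNReal.ofReal_lt_top)
  rwa [h.ext_ev hg1] at hg2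

lemma exists_comp {φ : ℂ → ℂ} (hd : DifferentiableOn ℂ φ RHP) (hm : MapsTo φ RHP RHP)
    {C : NNReal} (hC : ∀ f : ℂ → ℂ, DifferentiableOn ℂ f RHP → N f < ⊤ →
      N (fun z => f (φ z)) ≤ C * N f) :
    ∃ T : H →L[ℂ] H, ∀ f, ∀ v ∈ RHP, h.ev (T f) v = h.ev f (φ v) := by
  have h1 : ∀ f : H, ∃ g : H, (∀ v ∈ RHP, h.ev g v = h.ev f (φ v)) ∧ ‖g‖ ≤ √C * ‖f‖ := by
    intro f
    have h2 := hC _ (h.ev_diff f) (by rw [h.N_ev]; exact ENNReal.ofReal_lt_top)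
    rw [h.N_ev, ← ENNReal.ofReal_coe_nnreal, ← ENNReal.ofReal_mul C.coe_nonneg] at h2
    obtain ⟨g, hg1, hg2⟩ := h.exists_ev (F := fun z => h.ev f (φ z)) ((h.ev_diff f).comp hd hm)
      (lt_of_le_of_lt h2 ENNReal.ofReal_lt_top)
    refine ⟨g, hg1, ?_⟩
    have h3 := (ENNReal.ofReal_le_ofReal_iff (by positivity)).1 (hg2.trans h2)
    rw [← sq_le_sq₀ (norm_nonneg _) (by positivity), mul_pow, Real.sq_sqrt C.coe_nonneg]
    exact h3
  choose T hT1 hT2 using h1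
  let T' : H →ₗ[ℂ] H :=
    { toFun := T
      map_add' := fun f g => h.ext_ev fun v hv => by
        rw [hT1 _ v hv, h.ev_add, h.ev_add, hT1 _ v hv, hT1 _ v hv]
      map_smul' := fun c f => h.ext_ev fun v hv => by
        rw [hT1 _ v hv, h.ev_smul, RingHom.id_apply, h.ev_smul, hT1 _ v hv] }
  exact ⟨T'.mkContinuous _ hT2, hT1⟩

lemma adjoint_k {φ : ℂ → ℂ} {T : H →L[ℂ] H} (hT : ∀ f, ∀ v ∈ RHP, h.ev (T f) v = h.ev f (φ v))
    {v : ℂ} (hv : v ∈ RHP) : ContinuousLinearMap.adjoint T (h.k v) = h.k (φ v) := by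
  refine ext_inner_right ℂ fun f => ?_
  rw [ContinuousLinearMap.adjoint_inner_left, h.inner_eq, h.inner_eq, hT f v hv]

lemma re_lower {φ : ℂ → ℂ} (hm : MapsTo φ RHP RHP) {T : H →L[ℂ] H}
    (hT : ∀ f, ∀ v ∈ RHP, h.ev (T f) v = h.ev f (φ v)) :
    ∃ c : ℝ, 0 < c ∧ ∀ z ∈ RHP, c * z.re ≤ (φ z).re := by
  set C := ‖ContinuousLinearMap.adjoint T‖ with hC
  refine ⟨(C ^ 2 + 1)⁻¹, by positivity, fun z hz => ?_⟩
  have hz' : 0 < z.re := hz
  have hw : 0 < (φ z).re := hm hz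
  have h1 := (ContinuousLinearMap.adjoint T).le_opNorm (h.k z)
  rw [h.adjoint_k hT hz] at h1
  have h2 := pow_le_pow_left₀ (norm_nonneg _) h1 2
  rw [mul_pow, h.norm_k_sq hz, h.norm_k_sq (hm hz), ← hC, ← mul_div_assoc,
    div_le_div_iff₀ hw hz'] at h2
  rw [inv_mul_le_iff₀ (by positivity)]
  have h3 : π * z.re ≤ π * (C ^ 2 * (φ z).re) := by linarith
  have h4 := le_of_mul_le_mul_left h3 Real.pi_pos
  nlinarith

lemma normal_of_kernels {φ : ℂ → ℂ} (hm : MapsTo φ RHP RHP) {T : H →L[ℂ] H}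
    (hT : ∀ f, ∀ v ∈ RHP, h.ev (T f) v = h.ev f (φ v))
    (hN : ∀ (n : ℕ) (c a : Fin n → ℂ), (∀ i, 0 < (a i).re) →
      N (fun z => ∑ i, c i / (φ z + conj (a i))) = N (fun z => ∑ i, c i / (z + conj (φ (a i))))) :
    IsStarNormal T := by
  rw [ContinuousLinearMap.isStarNormal_iff_norm_eq_adjoint]
  intro f
  refine h.dense_span.induction (P := fun f => ‖T f‖ = ‖ContinuousLinearMap.adjoint T f‖) ?_
    (isClosed_eq (by fun_prop) (by fun_prop)) f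
  intro g hg
  obtain ⟨n, c, b, rfl⟩ := Submodule.mem_span_set'.1 hg
  choose a ha using fun i => (b i).2
  simp only at ha
  simp_rw [← ha]
  have h1 := hN n c (fun i => a i) fun i => (a i).2
  have h2 : N (fun z => ∑ i, c i / (φ z + conj (a i : ℂ))) =
      N (h.ev (T (∑ i, c i • h.k (a i)))) := by
    refine N_congr fun z hz => ?_
    rw [hT _ z hz, h.ev_sum]
    refine Finset.sum_congr rfl fun i _ => ?_
    rw [h.ev_smul, h.ev_k (hm hz) (a i).2, div_eq_mul_inv]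
  have h3 : N (fun z => ∑ i, c i / (z + conj (φ (a i)))) =
      N (h.ev (ContinuousLinearMap.adjoint T (∑ i, c i • h.k (a i)))) := by
    refine N_congr fun z hz => ?_
    rw [map_sum, h.ev_sum]
    refine Finset.sum_congr rfl fun i _ => ?_
    rw [map_smul, h.ev_smul, h.adjoint_k hT (a i).2, h.ev_k hz (hm (a i).2), div_eq_mul_inv]
  rw [h2, h3, h.N_ev, h.N_ev, ENNReal.ofReal_eq_ofReal_iff (by positivity) (by positivity)] at h1
  exact (sq_eq_sq₀ (norm_nonneg _) (norm_nonneg _)).1 h1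

lemma not_const {φ : ℂ → ℂ} {c : ℝ} (hc : 0 < c) (hφ : ∀ z ∈ RHP, c * z.re ≤ (φ z).re) :
    ¬ ∃ w, ∀ z ∈ RHP, φ z = w := by
  rintro ⟨w, hw⟩
  have hz : (((|w.re| + 1) / c : ℝ) : ℂ) ∈ RHP := by
    show 0 < (((|w.re| + 1) / c : ℝ) : ℂ).re
    rw [ofReal_re]
    positivity
  have := hφ _ hz
  rw [hw _ hz, ofReal_re, mul_div_cancel₀ _ hc.ne'] at this
  linarith [le_abs_self w.re]

theorem exists_leftInv {θ : ℂ → ℂ} (hd : DifferentiableOn ℂ θ RHP) (hm : MapsTo θ RHP RHP)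
    {T : H →L[ℂ] H} (hT : ∀ f, ∀ v ∈ RHP, h.ev (T f) v = h.ev f (θ v)) (hn : IsStarNormal T) :
    ∃ Φ, LeftInv θ Φ := by
  obtain ⟨c, hc, hcθ⟩ := h.re_lower hm hT
  have hnc := not_const hc hcθ
  have hinj : ∀ f, T f = 0 → f = 0 := by
    intro f hf
    refine h.ext_ev (identity_comp hd hm hnc (h.ev_diff f) (h.ev_diff 0) fun z hz => ?_)
    rw [← hT f z hz, hf]
    simp [ev]
  set S := ContinuousLinearMap.adjoint T with hS
  have hdense : DenseRange (S : H →ₗ[ℂ] H) := by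
    have : Dense ((LinearMap.range (S : H →ₗ[ℂ] H) : Submodule ℂ H) : Set H) := by
      rw [Submodule.dense_iff_topologicalClosure_eq_top, Submodule.topologicalClosure_eq_top_iff,
        eq_bot_iff]
      intro f hf
      apply hinj
      have := hf (S (T f)) ⟨T f, rfl⟩
      rw [hS, ContinuousLinearMap.adjoint_inner_left] at this
      exact inner_self_eq_zero.1 this
    exact this
  have hnorm : ∀ f, ‖T f‖ = ‖S f‖ := ContinuousLinearMap.isStarNormal_iff_norm_eq_adjoint.1 hn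
  let V : H →L[ℂ] H := (T : H →ₗ[ℂ] H).extendOfNorm (S : H →ₗ[ℂ] H)
  have hV : ∀ f, V (S f) = T f := fun f =>
    LinearMap.extendOfNorm_eq hdense ⟨1, fun x => by simp [hnorm x]⟩ f
  have hViso : ∀ f, ‖V f‖ = ‖f‖ := by
    intro f
    refine hdense.induction (P := fun f => ‖V f‖ = ‖f‖) ?_
      (isClosed_eq (by fun_prop) (by fun_prop)) f
    rintro _ ⟨g, rfl⟩
    show ‖V (S g)‖ = ‖S g‖
    rw [hV, hnorm]
  let W := ContinuousLinearMap.adjoint V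
  -- the functions `g u`
  let g : ℂ → ℂ → ℂ := fun u => h.ev (W (h.k u))
  have hgd : ∀ u, DifferentiableOn ℂ (g u) RHP := fun u => h.ev_diff _
  have hconj : ∀ u ζ, h.ev (V (h.k ζ)) u = conj (g u ζ) := by
    intro u ζ
    simp only [g, ev, W, map_mul, ContinuousLinearMap.adjoint_inner_right, inner_conj_symm]
    congr 1
    simp [map_ofNat]
  have hgθ : ∀ u ∈ RHP, ∀ z ∈ RHP, g u (θ z) = (z + conj (θ u))⁻¹ := by
    intro u hu z hz
    rw [← conj_conj (g u (θ z)), ← hconj, ← h.adjoint_k hT hz, ← hS, hV, hT _ u hu,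
      h.ev_k (hm hu) hz, map_inv₀, map_add, conj_conj, add_comm]
  have hres : ∀ u₁ ∈ RHP, ∀ u₂ ∈ RHP, ∀ ζ ∈ RHP,
      g u₁ ζ - g u₂ ζ = (conj (θ u₂) - conj (θ u₁)) * (g u₁ ζ * g u₂ ζ) := by
    intro u₁ h₁ u₂ h₂
    refine identity_comp hd hm hnc ((hgd u₁).sub (hgd u₂))
      (((hgd u₁).mul (hgd u₂)).const_mul _) fun z hz => ?_
    have e₁ := add_conj_ne_zero (w := θ u₁) hz (le_of_lt (hm h₁))
    have e₂ := add_conj_ne_zero (w := θ u₂) hz (le_of_lt (hm h₂))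
    rw [hgθ u₁ h₁ z hz, hgθ u₂ h₂ z hz]
    field_simp
    ring
  have hk0 : ∀ ζ ∈ RHP, h.k ζ ≠ 0 := by
    intro ζ hζ h0
    have := h.norm_k_sq hζ
    rw [h0, norm_zero] at this
    have h1 : 0 < π / ζ.re := div_pos Real.pi_pos hζ
    linarith
  have hg0 : ∀ u ∈ RHP, ∀ ζ ∈ RHP, g u ζ ≠ 0 := by
    intro u hu ζ hζ h0
    apply hk0 ζ hζ
    rw [← norm_eq_zero, ← hViso, norm_eq_zero]
    refine h.ext_ev fun v hv => ?_
    have := hres u hu v hv ζ hζ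
    rw [h0, zero_mul, mul_zero, zero_sub, neg_eq_zero] at this
    rw [hconj, this]
    simp [ev]
  let Φ : ℂ → ℂ := fun ζ => (g 1 ζ)⁻¹ - conj (θ 1)
  have hΦ : ∀ u ∈ RHP, ∀ ζ ∈ RHP, θ u + conj (Φ ζ) = (conj (g u ζ))⁻¹ := by
    intro u hu ζ hζ
    have h1 := hres 1 one_mem_RHP u hu ζ hζ
    have e₁ := hg0 1 one_mem_RHP ζ hζ
    have e₂ := hg0 u hu ζ hζ
    have h2 : conj (θ u) + Φ ζ = (g u ζ)⁻¹ := by
      simp only [Φ]
      field_simp
      linear_combination -h1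
    rw [← map_inv₀, ← h2, map_add, conj_conj]
  have hev : ∀ u ∈ RHP, ∀ ζ ∈ RHP, h.ev (V (h.k ζ)) u = (θ u + conj (Φ ζ))⁻¹ := by
    intro u hu ζ hζ
    rw [hΦ u hu ζ hζ, inv_inv, hconj]
  have hne : ∀ u ∈ RHP, ∀ ζ ∈ RHP, θ u + conj (Φ ζ) ≠ 0 := by
    intro u hu ζ hζ
    rw [hΦ u hu ζ hζ]
    exact inv_ne_zero ((map_ne_zero _).2 (hg0 u hu ζ hζ))
  refine ⟨Φ, ((hgd 1).inv (hg0 1 one_mem_RHP)).sub_const _, ?_, ?_, hne, ?_, ?_, ?_⟩
  · intro ζ hζ ξ hξ hζξ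
    have h1 : V (h.k ζ) = V (h.k ξ) := h.ext_ev fun u hu => by
      rw [hev u hu ζ hζ, hev u hu ξ hξ, hζξ]
    have h2 : h.k ζ = h.k ξ := by
      rw [← sub_eq_zero, ← norm_eq_zero, ← hViso, map_sub, h1, sub_self, norm_zero]
    have h3 := h.ev_k one_mem_RHP hζ
    rw [h2, h.ev_k one_mem_RHP hξ, inv_inj, add_right_inj] at h3
    exact (star_injective h3).symm
  · intro z hz
    simp only [Φ]
    rw [hgθ 1 one_mem_RHP z hz, inv_inv, add_sub_cancel_right]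
  · intro ζ hζ
    rw [← h.norm_k_sq hζ, ← hViso, ← h.N_ev]
    exact le_of_eq (N_congr fun u hu => hev u hu ζ hζ)
  · intro u hu ζ hζ
    have hu' : 0 < u.re := hu
    have hζ' : 0 < ζ.re := hζ
    have h1 := h.norm_ev_sq_le (V (h.k ζ)) hu
    rw [hViso, h.norm_k_sq hζ, hev u hu ζ hζ, norm_inv, inv_pow, le_div_iff₀ hζ', mul_assoc,
      inv_mul_le_iff₀ (pow_pos (norm_pos_iff.2 (hne u hu ζ hζ)) 2)] at h1
    have h2 : π * (4 * u.re * ζ.re) ≤ π * ‖θ u + conj (Φ ζ)‖ ^ 2 := by linarith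
    exact le_of_mul_le_mul_left h2 Real.pi_pos
  · intro u hu ζ hζ ξ hξ
    have hu' : 0 < u.re := hu
    have hζ' : 0 < ζ.re := hζ
    have hξ' : 0 < ξ.re := hξ
    have h1 := h.norm_ev_sq_le (V (h.k ζ - h.k ξ)) hu
    rw [hViso, map_sub, h.ev_sub, hev u hu ζ hζ, hev u hu ξ hξ] at h1
    have h2 := h.norm_k_sub_sq hζ hξ
    have h3 := mul_le_mul_of_nonneg_right h1 (by positivity : 0 ≤ ζ.re * ξ.re * (ζ.re + ξ.re))
    have h4 : π * (‖(θ u + conj (Φ ζ))⁻¹ - (θ u + conj (Φ ξ))⁻¹‖ ^ 2 *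
        (4 * u.re * ζ.re * ξ.re * (ζ.re + ξ.re))) ≤ π * ‖ζ - ξ‖ ^ 2 := by linarith
    exact le_of_mul_le_mul_left h4 Real.pi_pos

end Hardy

/-- Everything that is extracted from the operator hypotheses. -/
theorem extract {φ : ℂ → ℂ} (hd : DifferentiableOn ℂ φ RHP) (hm : MapsTo φ RHP RHP)
    {C : NNReal} (hC : ∀ f : ℂ → ℂ, DifferentiableOn ℂ f RHP → N f < ⊤ →
      N (fun z => f (φ z)) ≤ C * N f)
    (hN : ∀ (n : ℕ) (c a : Fin n → ℂ), (∀ i, 0 < (a i).re) →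
      N (fun z => ∑ i, c i / (φ z + conj (a i))) = N (fun z => ∑ i, c i / (z + conj (φ (a i))))) :
    (∃ c : ℝ, 0 < c ∧ ∀ z ∈ RHP, c * z.re ≤ (φ z).re) ∧ (∃ Φ, LeftInv φ Φ) ∧
      ∃ Φ₂, LeftInv (fun z => φ (φ z)) Φ₂ := by
  obtain ⟨T, hT⟩ := hardyModel.exists_comp hd hm hC
  have hn := hardyModel.normal_of_kernels hm hT hN
  refine ⟨hardyModel.re_lower hm hT, hardyModel.exists_leftInv hd hm hT hn,
    hardyModel.exists_leftInv (T := T * T) (hd.comp hd hm) (hm.comp hm) (fun f v hv => ?_) ?_⟩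
  · rw [mul_apply_eq_comp, hT _ v hv, hT _ _ (hm hv)]
  · refine ⟨?_⟩
    rw [star_mul]
    have := hn.star_comm_self
    exact (this.mul_right this).mul_left (this.mul_right this)

end Pool.Agent.Lib.MP_e968d9_an
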