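import Mathlib
import Pool.Agent.Lib.MP_e968d9_an.Operator
import Pool.Agent.Lib.MP_e968d9_an.Area

/-!
Local and asymptotic properties of the left inverse.
-/

set_option autoImplicit false

open Filter Topology Set MeasureTheory Complex
open scoped ENNReal Real ComplexConjugate

namespace Pool.Agent.Lib.MP_e968d9_an

/-- `f z = a z + o(z)` in every sector. -/
def Asymp (f : ℂ → ℂ) (a : ℝ) : Prop :=
  ∀ κ : ℝ, 0 < κ → ∀ ε : ℝ, 0 < ε → ∃ R : ℝ, ∀ z ∈ RHP, κ * ‖z‖ ≤ z.re → R ≤ ‖z‖ →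
    ‖f z - a * z‖ ≤ ε * ‖z‖

lemma neBot_RHP {p : ℂ} (hp : p.re = 0) : (𝓝[RHP] p).NeBot := by
  rw [← mem_closure_iff_nhdsWithin_neBot, closure_setOfPred_lt_re]
  exact hp.ge

lemma add_mem_RHP {p z : ℂ} (hp : p.re = 0) (hz : z ∈ RHP) : p + z ∈ RHP := by
  show 0 < (p + z).re
  rw [add_re, hp, zero_add]
  exact hz

namespace LeftInv

variable {θ Φ : ℂ → ℂ} (h : LeftInv θ Φ)
include h

lemma deriv_ne {q : ℂ} (hq : q ∈ RHP) : deriv Φ q ≠ 0 :=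
  deriv_ne_zero_of_injOn isOpen_RHP h.diff h.inj hq

lemma strict {q : ℂ} (hq : q ∈ RHP) : HasStrictDerivAt Φ (deriv Φ q) q :=
  (h.diff.analyticAt (isOpen_RHP.mem_nhds hq)).hasStrictDerivAt

lemma dist_pos {ζ : ℂ} (hζ : ζ ∈ RHP) : ∃ r : ℝ, 0 < r ∧ ∀ u ∈ RHP, r ≤ ‖θ u + conj (Φ ζ)‖ := by
  have h1 : Φ '' RHP ∈ 𝓝 (Φ ζ) := by
    rw [← (h.strict hζ).map_nhds_eq (h.deriv_ne hζ)]
    exact image_mem_map (isOpen_RHP.mem_nhds hζ)
  obtain ⟨r, hr, hb⟩ := Metric.mem_nhds_iff.1 h1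
  refine ⟨r, hr, fun u hu => ?_⟩
  by_contra hlt
  have h2 : -conj (θ u) ∈ Metric.ball (Φ ζ) r := by
    rw [mem_ball_iff_norm, ← norm_neg, ← Complex.norm_conj]
    refine lt_of_eq_of_lt ?_ (not_le.1 hlt)
    congr 1
    simp
    ring
  obtain ⟨ξ, hξ, hξ'⟩ := hb h2
  apply h.ne u hu ξ hξ
  rw [hξ']
  simp

lemma loc_inv (hm : MapsTo θ RHP RHP) {q : ℂ} (hq : q ∈ RHP) :
    ∃ ι : ℂ → ℂ, HasDerivAt ι (deriv Φ q)⁻¹ (Φ q) ∧ ι (Φ q) = q ∧
      ∀ᶠ y in 𝓝 (Φ q), y ∈ RHP → θ y = ι y := by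
  have hs := h.strict hq
  have h0 := h.deriv_ne hq
  have h1 := (hs.to_localInverse h0).hasDerivAt
  have h2 := (hs.eventually_left_inverse h0).self_of_nhds
  refine ⟨_, h1, h2, ?_⟩
  have h3 : ∀ᶠ y in 𝓝 (Φ q), hs.localInverse Φ (deriv Φ q) q h0 y ∈ RHP :=
    h1.continuousAt.eventually_mem (by rw [h2]; exact isOpen_RHP.mem_nhds hq)
  filter_upwards [h3, hs.eventually_right_inverse h0] with y hy1 hy2 hy
  exact h.inj (hm hy) hy1 (by rw [hy2, h.left y hy])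

lemma tendsto_boundary (hm : MapsTo θ RHP RHP) {q : ℂ} (hq : q ∈ RHP) :
    Tendsto θ (𝓝[RHP] (Φ q)) (𝓝 q) := by
  obtain ⟨ι, h1, h2, h3⟩ := h.loc_inv hm hq
  have h4 : Tendsto ι (𝓝[RHP] (Φ q)) (𝓝 q) := by
    have := h1.continuousAt.tendsto
    rw [h2] at this
    exact tendsto_nhdsWithin_of_tendsto_nhds this
  refine h4.congr' ?_
  filter_upwards [nhdsWithin_le_nhds h3, self_mem_nhdsWithin] with y hy hy'
  exact (hy hy').symm

lemma re_neg (hm : MapsTo θ RHP RHP) {ζ : ℂ} (hζ : ζ ∈ RHP) (hξ : -conj (Φ ζ) ∈ RHP) :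
    (Φ (-conj (Φ ζ))).re < 0 := by
  rcases lt_trichotomy (Φ (-conj (Φ ζ))).re 0 with h1 | h1 | h1
  · exact h1
  · exfalso
    obtain ⟨r, hr, hb⟩ := h.dist_pos hζ
    have := neBot_RHP h1
    have h2 : Tendsto (fun y => ‖θ y + conj (Φ ζ)‖) (𝓝[RHP] (Φ (-conj (Φ ζ))))
        (𝓝 ‖-conj (Φ ζ) + conj (Φ ζ)‖) := ((h.tendsto_boundary hm hξ).add_const _).norm
    rw [neg_add_cancel, norm_zero] at h2
    have h3 := ge_of_tendsto h2 (eventually_mem_nhdsWithin.mono hb)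
    linarith
  · exfalso
    have h2 := h.inj (hm h1) hξ (h.left _ h1)
    apply h.ne _ h1 ζ hζ
    rw [h2, neg_add_cancel]

lemma asymp (hm : MapsTo θ RHP RHP) {a : ℝ} (ha : 0 < a) (hre : ∀ z ∈ RHP, a * z.re ≤ (θ z).re)
    (hθ : Asymp θ a) : Asymp Φ a⁻¹ := by
  intro κ hκ ε hε
  set Q := 1 + 2 / a with hQ
  have hQ0 : 0 < Q := by positivity
  set τ := min (1 / 2) (ε / (2 * Q)) with hτ
  have hτ0 : 0 < τ := lt_min (by norm_num) (by positivity)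
  have hτ1 : τ ≤ 1 / 2 := min_le_left _ _
  have hτ2 : τ * (2 * Q) ≤ ε := (le_div_iff₀ (by positivity)).1 (min_le_right _ _)
  set μ := min 1 a with hμ
  have hμ0 : 0 < μ := lt_min one_pos ha
  have hμ1 : μ ^ 2 ≤ a := by
    have h1 : μ ≤ 1 := min_le_left _ _
    have h2 : μ ≤ a := min_le_right _ _
    nlinarith
  set ε₁ := min 1 (τ * κ ^ 2 * μ / Q) with hε₁
  have hε₁0 : 0 < ε₁ := lt_min one_pos (by positivity)
  have hε₁1 : ε₁ ≤ 1 := min_le_left _ _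
  have hε₁2 : ε₁ * Q ≤ τ * κ ^ 2 * μ := (le_div_iff₀ hQ0).1 (min_le_right _ _)
  obtain ⟨R, hR⟩ := hθ κ hκ ε₁ hε₁0
  refine ⟨a * R, fun ζ hζ hκζ hRζ => ?_⟩
  have hζ' : 0 < ζ.re := hζ
  set n := ‖ζ‖ with hn
  have hn0 : 0 < n := lt_of_lt_of_le hζ' (re_le_norm ζ)
  set z : ℂ := (a⁻¹ : ℝ) * ζ with hz
  have hzre : z.re = a⁻¹ * ζ.re := by simp [hz]
  have hzn : ‖z‖ = a⁻¹ * n := by
    rw [hz, norm_mul, Complex.norm_real, Real.norm_of_nonneg (by positivity)]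
  have hzm : z ∈ RHP := by
    show 0 < z.re
    rw [hzre]
    positivity
  have haz : (a : ℂ) * z = ζ := by
    rw [hz, ← mul_assoc, ← ofReal_mul, mul_inv_cancel₀ ha.ne']
    simp
  have h1 := hR z hzm (by
    rw [hzn, hzre, mul_left_comm]
    exact mul_le_mul_of_nonneg_left hκζ (by positivity)) (by
    rw [hzn, le_inv_mul_iff₀ ha]
    exact hRζ)
  rw [haz, hzn] at h1
  have h2 : ζ.re ≤ (θ z).re := by
    have := hre z hzm
    rwa [hzre, ← mul_assoc, mul_inv_cancel₀ ha.ne', one_mul] at this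
  have h3 := h.bound₂ z hzm ζ hζ (θ z) (hm hzm)
  rw [h.left z hzm, norm_sub_rev ζ] at h3
  set X := θ z + conj z with hX
  set Y := θ z + conj (Φ ζ) with hY
  have hX0 : X ≠ 0 := add_conj_ne_zero (hm hzm) (le_of_lt hzm)
  have hY0 : Y ≠ 0 := h.ne z hzm ζ hζ
  set γ := ‖Y⁻¹ - X⁻¹‖ with hγ
  have hγ0 : 0 ≤ γ := norm_nonneg _
  have hXn : ‖X‖ ≤ Q * n := by
    have e1 : X = (θ z - ζ) + ζ + conj z := by rw [hX]; ring
    have e2 := norm_add₃_le (a := θ z - ζ) (b := ζ) (c := conj z)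
    rw [← e1, Complex.norm_conj, hzn, ← hn] at e2
    have e3 : ε₁ * (a⁻¹ * n) ≤ 1 * (a⁻¹ * n) := by gcongr
    have e4 : Q * n = n + 2 * (a⁻¹ * n) := by
      rw [hQ]
      field_simp
    linarith
  have h4 : γ ^ 2 * (8 * a⁻¹ * (κ * n) ^ 4) ≤ (ε₁ * (a⁻¹ * n)) ^ 2 := by
    refine le_trans ?_ (h3.trans (pow_le_pow_left₀ (norm_nonneg _) h1 2))
    have e1 : κ * n ≤ (θ z).re := hκζ.trans h2
    have e2 : 8 * a⁻¹ * (κ * n) ^ 4 =
        4 * (a⁻¹ * (κ * n)) * (κ * n) * (κ * n) * (κ * n + κ * n) := by ring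
    have e3 : 0 < (θ z).re := hm hzm
    rw [e2, hzre]
    gcongr
  have h5 : γ * (Q * n) ≤ τ := by
    rw [← sq_le_sq₀ (by positivity) hτ0.le]
    have e1 : (γ * (Q * n)) ^ 2 * (8 * a⁻¹ * (κ * n) ^ 4) ≤ τ ^ 2 * (8 * a⁻¹ * (κ * n) ^ 4) := by
      calc (γ * (Q * n)) ^ 2 * (8 * a⁻¹ * (κ * n) ^ 4)
          = γ ^ 2 * (8 * a⁻¹ * (κ * n) ^ 4) * (Q * n) ^ 2 := by ring
        _ ≤ (ε₁ * (a⁻¹ * n)) ^ 2 * (Q * n) ^ 2 := by gcongr
        _ = (ε₁ * Q) ^ 2 * (a⁻¹ ^ 2 * n ^ 4) := by ring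
        _ ≤ (τ * κ ^ 2 * μ) ^ 2 * (a⁻¹ ^ 2 * n ^ 4) := by gcongr
        _ = τ ^ 2 * (μ ^ 2 * (a⁻¹ ^ 2 * (κ * n) ^ 4)) := by ring
        _ ≤ τ ^ 2 * (a * (a⁻¹ ^ 2 * (κ * n) ^ 4)) := by gcongr
        _ = τ ^ 2 * (1 * a⁻¹ * (κ * n) ^ 4) := by field_simp
        _ ≤ τ ^ 2 * (8 * a⁻¹ * (κ * n) ^ 4) := by gcongr; norm_num
    exact le_of_mul_le_mul_right e1 (by positivity)
  have h6 : γ * ‖X‖ ≤ τ := le_trans (by gcongr) h5
  have h7 : ‖X - Y‖ = γ * ‖X‖ * ‖Y‖ := by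
    rw [hγ, ← norm_mul, ← norm_mul]
    congr 1
    field_simp
  have h8 : ‖Y‖ ≤ ‖X‖ + ‖X - Y‖ := by
    have : Y = X - (X - Y) := by ring
    nth_rewrite 1 [this]
    exact norm_sub_le _ _
  have h9 : ‖X - Y‖ ≤ τ * (‖X‖ + ‖X - Y‖) := by
    nth_rewrite 1 [h7]
    gcongr
  have h10 : ‖Φ ζ - z‖ = ‖X - Y‖ := by
    rw [← Complex.norm_conj, ← norm_neg]
    congr 1
    simp [hX, hY]
  rw [h10]
  have e1 : τ * ‖X - Y‖ ≤ 1 / 2 * ‖X - Y‖ := by gcongr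
  have e2 : τ * ‖X‖ ≤ τ * (Q * n) := by gcongr
  have e3 : τ * (2 * Q) * n ≤ ε * n := by gcongr
  nlinarith

lemma dom {a : ℝ} (ha : 0 < a) (hθ : Asymp θ a) :
    ∃ c : ℝ, 0 < c ∧ ∃ C : ℝ, ∀ ζ ∈ RHP, c * ζ.re - C ≤ ‖Φ ζ‖ := by
  obtain ⟨R, hR⟩ := hθ 1 one_pos 1 one_pos
  set A := a + 1 with hA
  have hA0 : 0 < A := by positivity
  refine ⟨A⁻¹, by positivity, |R| * A, fun ζ hζ => ?_⟩
  have hζ' : 0 < ζ.re := hζ
  set t := ζ.re / A ^ 2 with ht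
  have ht0 : 0 < t := by positivity
  have e0 : A⁻¹ * ζ.re = A * t := by
    rw [ht]
    field_simp
  rw [e0]
  rcases le_or_gt R t with hRt | hRt
  · have htm : (t : ℂ) ∈ RHP := ht0
    have htn : ‖(t : ℂ)‖ = t := by rw [Complex.norm_real, Real.norm_of_nonneg ht0.le]
    have h1 := hR t htm (by rw [htn, ofReal_re, one_mul]) (by rwa [htn])
    have h2 : ‖θ t‖ ≤ A * t := by
      have e1 : θ t = (θ t - a * t) + a * t := by ring
      have e2 := norm_add_le (θ t - a * t) (a * t)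
      rw [← e1, norm_mul, Complex.norm_real, Real.norm_of_nonneg ha.le, htn] at e2
      rw [htn] at h1
      linarith
    have h3 := h.bound₁ t htm ζ hζ
    have h4 : 2 * (A * t) ≤ ‖θ t + conj (Φ ζ)‖ := by
      rw [← sq_le_sq₀ (by positivity) (norm_nonneg _)]
      refine le_trans (le_of_eq ?_) h3
      rw [ofReal_re, ht]
      field_simp
      ring
    have h5 := norm_add_le (θ t) (conj (Φ ζ))
    rw [Complex.norm_conj] at h5
    have : 0 ≤ |R| * A := by positivity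
    linarith
  · have h1 : A * t ≤ A * |R| := by
      gcongr
      exact hRt.le.trans (le_abs_self R)
    have := norm_nonneg (Φ ζ)
    linarith

end LeftInv

lemma near0_of_deriv {f g : ℂ → ℂ} {p β : ℂ} (hp : p.re = 0) (hg : HasDerivAt g β p)
    (hfg : ∀ᶠ y in 𝓝 p, y ∈ RHP → f y = g y) :
    ∀ κ : ℝ, 0 < κ → ∃ δ : ℝ, 0 < δ ∧ ∀ z ∈ RHP, ‖z‖ ≤ δ →
      ‖f (p + z) - g p‖ ≤ (‖β‖ + κ) * ‖z‖ := by
  intro κ hκ
  obtain ⟨δ, hδ, hb⟩ := Metric.eventually_nhds_iff.1 (hfg.and (hg.isLittleO.def hκ))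
  refine ⟨δ / 2, half_pos hδ, fun z hz hzδ => ?_⟩
  obtain ⟨h1, h2⟩ := hb (y := p + z) (by rw [dist_self_add_left]; linarith)
  rw [h1 (add_mem_RHP hp hz)]
  rw [add_sub_cancel_left, smul_eq_mul] at h2
  have e1 : g (p + z) - g p = (g (p + z) - g p - z * β) + z * β := by ring
  have e2 := norm_add_le (g (p + z) - g p - z * β) (z * β)
  rw [← e1, norm_mul] at e2
  linarith

lemma nearInf_of_asymp {f : ℂ → ℂ} {a : ℝ} (ha : 0 < a) (hf : Asymp f a) {p : ℂ} (hp : p.re = 0)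
    (w : ℂ) : ∀ κ : ℝ, 0 < κ → ∀ α : ℝ, α < a → ∃ R : ℝ, ∀ z ∈ RHP, κ * ‖z‖ ≤ z.re → R ≤ ‖z‖ →
      α * ‖z‖ ≤ ‖f (p + z) - w‖ := by
  intro κ hκ α hα
  set ε := (a - α) / 4 with hε
  have hε0 : 0 < ε := by rw [hε]; linarith
  obtain ⟨R, hR⟩ := hf (κ / 2) (half_pos hκ) ε hε0
  refine ⟨max (max ‖p‖ (R + ‖p‖)) ((a * ‖p‖ + ‖w‖) / (2 * ε)), fun z hz hκz hRz => ?_⟩
  have h1 : ‖p‖ ≤ ‖z‖ := le_trans (le_trans (le_max_left _ _) (le_max_left _ _)) hRz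
  have h2 : R + ‖p‖ ≤ ‖z‖ := le_trans (le_trans (le_max_right _ _) (le_max_left _ _)) hRz
  have h3 : a * ‖p‖ + ‖w‖ ≤ ‖z‖ * (2 * ε) :=
    (div_le_iff₀ (by positivity)).1 (le_trans (le_max_right _ _) hRz)
  have h4 : ‖p + z‖ ≤ 2 * ‖z‖ := le_trans (norm_add_le _ _) (by linarith)
  have h5 : ‖z‖ ≤ ‖p + z‖ + ‖p‖ := by
    have := norm_sub_le (p + z) p
    rwa [add_sub_cancel_left] at this
  have h6 := hR (p + z) (add_mem_RHP hp hz) (by
    rw [add_re, hp, zero_add]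
    nlinarith) (by linarith)
  have e1 : (a : ℂ) * z = (f (p + z) - w) - (f (p + z) - a * (p + z)) - a * p + w := by ring
  have e2 : ‖(a : ℂ) * z‖ ≤ ‖f (p + z) - w‖ + ‖f (p + z) - a * (p + z)‖ + ‖(a : ℂ) * p‖ + ‖w‖ := by
    rw [e1]
    refine le_trans (norm_add_le _ _) (add_le_add_left ?_ _)
    exact le_trans (norm_sub_le _ _) (add_le_add_left (norm_sub_le _ _) _)
  rw [norm_mul, norm_mul, Complex.norm_real, Real.norm_of_nonneg ha.le] at e2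
  have e3 : ε * ‖p + z‖ ≤ ε * (2 * ‖z‖) := by gcongr
  have e4 : α = a - 4 * ε := by rw [hε]; ring
  rw [e4]
  nlinarith

lemma N_le_of_bound {f g k : ℂ → ℂ} {A B Mg Mk : ℝ} (hA : 0 ≤ A) (hB : 0 ≤ B) (hg : L2b g Mg)
    (hk : L2b k Mk) (hf : ∀ u ∈ RHP, ‖f u‖ ^ 2 ≤ A * ‖g u‖ ^ 2 + B * ‖k u‖ ^ 2) :
    N f ≤ ENNReal.ofReal (A * Mg + B * Mk) := by
  refine iSup₂_le fun x hx => ?_
  simp_rw [nnnorm_sq_eq]
  have h1 : Integrable (fun y : ℝ => A * ‖g (x + y * I)‖ ^ 2 + B * ‖k (x + y * I)‖ ^ 2) :=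
    ((hg x hx).1.const_mul A).add ((hk x hx).1.const_mul B)
  refine le_trans (lintegral_mono fun y => ENNReal.ofReal_le_ofReal (hf _ (line_mem hx y))) ?_
  rw [← ofReal_integral_eq_lintegral_ofReal h1 (Eventually.of_forall fun y => by
    positivity)]
  refine ENNReal.ofReal_le_ofReal ?_
  rw [integral_add ((hg x hx).1.const_mul A) ((hk x hx).1.const_mul B), integral_const_mul,
    integral_const_mul]
  exact add_le_add (mul_le_mul_of_nonneg_left (hg x hx).2 hA)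
    (mul_le_mul_of_nonneg_left (hk x hx).2 hB)

/-- The estimate on the diagonal of the kernel identity. -/
lemma key_estimate {φ Φ : ℂ → ℂ} (h : LeftInv φ Φ) (hm : MapsTo φ RHP RHP) {M₀ : ℝ}
    (hM : L2b (fun u => (φ u + 1)⁻¹) M₀) {p w₀ : ℂ} (hp : p.re = 0) (hw : -conj w₀ ∈ RHP)
    (hlim : Tendsto Φ (𝓝[RHP] p) (𝓝 w₀)) {L : ℝ} (hL : ‖deriv Φ (-conj w₀)‖ ^ 2 < L) :
    ∀ᶠ ζ in 𝓝[RHP] p, |(Φ (-conj (Φ ζ))).re| ≤ L * ζ.re := by
  set q' := -conj w₀ with hq'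
  set E := deriv Φ q' with hE
  have hM0 : 0 ≤ M₀ := le_trans (integral_nonneg fun y => by positivity) (hM 1 one_pos).2
  have hL0 : 0 < L := lt_of_le_of_lt (by positivity) hL
  -- an intermediate Lipschitz constant
  obtain ⟨L₁, hL₁, hL₁'⟩ : ∃ L₁ : ℝ, ‖E‖ < L₁ ∧ L₁ ^ 2 < L := by
    have h1 : ∀ᶠ t in 𝓝[>] ‖E‖, t ^ 2 < L :=
      nhdsWithin_le_nhds (((continuous_pow 2).tendsto ‖E‖).eventually (gt_mem_nhds hL))
    obtain ⟨t, h2, h3⟩ := (h1.and self_mem_nhdsWithin).exists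
    exact ⟨t, h3, h2⟩
  have hL₁0 : 0 < L₁ := lt_of_le_of_lt (norm_nonneg _) hL₁
  obtain ⟨s, hs, hlip⟩ := (h.strict hw).hasStrictFDerivAt.exists_lipschitzOnWith_of_nnnorm_lt
    ⟨L₁, hL₁0.le⟩ (by
      rw [ContinuousLinearMap.nnnorm_toSpanSingleton]
      exact hL₁)
  obtain ⟨δ, hδ, hball⟩ := Metric.mem_nhds_iff.1 (inter_mem hs (isOpen_RHP.mem_nhds hw))
  set K := 2 * (1 + ‖q' + 1‖ / δ) with hK
  have hK0 : 0 < K := by positivity
  have hlim' : Tendsto (fun ζ => -conj (Φ ζ)) (𝓝[RHP] p) (𝓝 q') :=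
    ((continuous_conj.tendsto _).comp hlim).neg
  have hre : Tendsto (fun ζ : ℂ => L * (K ^ 2 * M₀ * ζ.re)) (𝓝[RHP] p) (𝓝 0) := by
    have : Continuous fun ζ : ℂ => L * (K ^ 2 * M₀ * ζ.re) := by fun_prop
    simpa [hp] using tendsto_nhdsWithin_of_tendsto_nhds (s := RHP) (this.tendsto p)
  have hgap : 0 < (L - L₁ ^ 2) * π := mul_pos (by linarith) Real.pi_pos
  filter_upwards [hlim'.eventually (Metric.ball_mem_nhds q' (half_pos hδ)),
    hre.eventually (gt_mem_nhds hgap), self_mem_nhdsWithin] with ζ hξ hsmall hζ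
  have hζ' : 0 < ζ.re := hζ
  set ξ := -conj (Φ ζ) with hξdef
  have hξb : ξ ∈ Metric.ball q' δ := Metric.ball_subset_ball (half_le_self hδ.le) hξ
  have hneg : (Φ ξ).re < 0 := h.re_neg hm hζ (hball hξb).2
  set z₀ := Φ ξ with hz₀
  have hq : 0 < (-z₀).re := by simpa using hneg
  have hbound := N_le_of_bound (f := fun u => (φ u + conj (Φ ζ))⁻¹) (A := L₁ ^ 2) (B := K ^ 2)
    (by positivity) (by positivity) (L2b_inv hq) hM (fun u hu => by
      have hu' : 0 < u.re := hu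
      have e1 : φ u + conj (Φ ζ) = φ u - ξ := by simp [hξdef]
      have hne : 0 < ‖φ u - ξ‖ := by
        rw [← e1]
        exact norm_pos_iff.2 (h.ne u hu ζ hζ)
      rw [e1]
      by_cases hb : φ u ∈ Metric.ball q' δ
      · have h1 := hlip.dist_le_mul _ (hball hb).1 _ (hball hξb).1
        rw [h.left u hu, dist_eq_norm, dist_eq_norm] at h1
        have h2 : 0 < ‖u + -z₀‖ := norm_pos_iff.2 fun h0 => by
          have := congrArg Complex.re h0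
          simp at this
          linarith
        have h3 : ‖(φ u - ξ)⁻¹‖ ≤ L₁ * ‖(u + -z₀)⁻¹‖ := by
          rw [norm_inv, norm_inv, ← div_eq_mul_inv, le_div_iff₀ h2, inv_mul_le_iff₀ hne,
            ← sub_eq_add_neg, mul_comm]
          exact h1
        have h4 := pow_le_pow_left₀ (norm_nonneg _) h3 2
        rw [mul_pow] at h4
        exact h4.trans (le_add_of_nonneg_right (by positivity))
      · have h1 : δ ≤ ‖φ u - q'‖ := not_lt.1 fun h0 => hb (mem_ball_iff_norm.2 h0)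
        have h2 : ‖ξ - q'‖ < δ / 2 := mem_ball_iff_norm.1 hξ
        have h3 : ‖φ u - q'‖ ≤ 2 * ‖φ u - ξ‖ := by
          have := norm_add_le (φ u - ξ) (ξ - q')
          rw [sub_add_sub_cancel] at this
          linarith
        have h4 : ‖φ u + 1‖ ≤ ‖φ u - q'‖ + ‖q' + 1‖ := by
          have := norm_add_le (φ u - q') (q' + 1)
          rwa [← add_assoc, sub_add_cancel] at this
        have h5 : ‖q' + 1‖ ≤ ‖q' + 1‖ / δ * ‖φ u - q'‖ := by
          rw [div_mul_eq_mul_div, le_div_iff₀ hδ]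
          gcongr
        have h6 : ‖φ u + 1‖ ≤ ‖φ u - ξ‖ * K := by
          have : (1 + ‖q' + 1‖ / δ) * ‖φ u - q'‖ ≤ (1 + ‖q' + 1‖ / δ) * (2 * ‖φ u - ξ‖) := by
            gcongr
          rw [hK]
          linarith
        have h7 : 0 < ‖φ u + 1‖ := norm_pos_iff.2 (by
          simpa using add_conj_ne_zero (w := 1) (hm hu) (by simp))
        have h8 : ‖(φ u - ξ)⁻¹‖ ≤ K * ‖(φ u + 1)⁻¹‖ := by
          rw [norm_inv, norm_inv, ← div_eq_mul_inv, le_div_iff₀ h7, inv_mul_le_iff₀ hne]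
          exact h6
        have h9 := pow_le_pow_left₀ (norm_nonneg _) h8 2
        rw [mul_pow] at h9
        exact h9.trans (le_add_of_nonneg_left (by positivity)))
  have h1 := (ENNReal.ofReal_le_ofReal_iff (by positivity)).1 ((h.norm_ge ζ hζ).trans hbound)
  rw [abs_of_neg hneg]
  rw [neg_re] at h1 hq
  set y := -z₀.re with hy
  set x := ζ.re with hx
  by_contra hcon
  have h2 : L * x < y := not_le.1 hcon
  have h3 : π / y ≤ π / (L * x) := div_le_div_of_nonneg_left Real.pi_pos.le (by positivity) h2.le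
  have h4 : π / x ≤ L₁ ^ 2 * (π / (L * x)) + K ^ 2 * M₀ := h1.trans (by gcongr)
  have h5 : π / x * (L * x) ≤ (L₁ ^ 2 * (π / (L * x)) + K ^ 2 * M₀) * (L * x) := by gcongr
  have e1 : π / x * (L * x) = L * π := by field_simp
  have e2 : (L₁ ^ 2 * (π / (L * x)) + K ^ 2 * M₀) * (L * x) =
      L₁ ^ 2 * π + L * (K ^ 2 * M₀ * x) := by field_simp
  rw [e1, e2] at h5
  linarith

lemma norm_le_of_re_mul {c : ℂ} {L : ℝ} (h : ∀ σ : ℂ, 0 < σ.re → |(c * σ).re| ≤ L * σ.re) :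
    ‖c‖ ≤ L := by
  have h1 : ∀ s : ℝ, |c.re - s * c.im| ≤ L := by
    intro s
    have := h (1 + s * I) (by simp)
    simpa [mul_comm] using this
  have h2 : c.im = 0 := by
    by_contra h0
    have := h1 ((c.re - (L + 1)) / c.im)
    rw [div_mul_cancel₀ _ h0, sub_sub_cancel] at this
    linarith [le_abs_self (L + 1)]
  have h3 := h1 0
  rw [zero_mul, sub_zero] at h3
  rwa [← Complex.abs_re_eq_norm.2 h2]

lemma deriv_bound {φ Φ g : ℂ → ℂ} (h : LeftInv φ Φ) (hm : MapsTo φ RHP RHP) {M₀ : ℝ}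
    (hM : L2b (fun u => (φ u + 1)⁻¹) M₀) {p β : ℂ} (hp : p.re = 0) (hw : -conj (g p) ∈ RHP)
    (hg : HasDerivAt g β p) (hfg : ∀ᶠ y in 𝓝 p, y ∈ RHP → Φ y = g y) :
    (Φ (-conj (g p))).re = 0 ∧ ‖β‖ ≤ ‖deriv Φ (-conj (g p))‖ := by
  set q' := -conj (g p) with hq'
  set E := deriv Φ q' with hE
  have hE0 : 0 < ‖E‖ := norm_pos_iff.2 (h.deriv_ne hw)
  have hfg' : ∀ᶠ y in 𝓝[RHP] p, g y = Φ y := by
    filter_upwards [nhdsWithin_le_nhds hfg, self_mem_nhdsWithin] with y hy hy'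
    exact (hy hy').symm
  have hlim : Tendsto Φ (𝓝[RHP] p) (𝓝 (g p)) :=
    (tendsto_nhdsWithin_of_tendsto_nhds hg.continuousAt.tendsto).congr' hfg'
  have hkey : ∀ L, ‖E‖ ^ 2 < L → ∀ᶠ ζ in 𝓝[RHP] p, |(Φ (-conj (g ζ))).re| ≤ L * ζ.re := by
    intro L hL
    filter_upwards [key_estimate h hm hM hp hw hlim hL, hfg'] with ζ h1 h2
    rwa [h2]
  have hΦ : HasDerivAt Φ E q' := (h.strict hw).hasDerivAt
  have h0 : (Φ q').re = 0 := by
    have := neBot_RHP hp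
    have h1 : Tendsto (fun ζ => |(Φ (-conj (g ζ))).re|) (𝓝[RHP] p) (𝓝 |(Φ q').re|) := by
      refine tendsto_nhdsWithin_of_tendsto_nhds (Tendsto.abs ((continuous_re.tendsto _).comp ?_))
      exact hΦ.continuousAt.tendsto.comp
        ((continuous_conj.tendsto _).comp hg.continuousAt.tendsto).neg
    have h2 : Tendsto (fun ζ : ℂ => (‖E‖ ^ 2 + 1) * ζ.re) (𝓝[RHP] p) (𝓝 0) := by
      have : Continuous fun ζ : ℂ => (‖E‖ ^ 2 + 1) * ζ.re := by fun_prop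
      simpa [hp] using tendsto_nhdsWithin_of_tendsto_nhds (s := RHP) (this.tendsto p)
    exact abs_nonpos_iff.1 (le_of_tendsto_of_tendsto h1 h2 (hkey _ (by linarith)))
  refine ⟨h0, ?_⟩
  have h1 : ‖conj E * β‖ ≤ ‖E‖ ^ 2 := by
    refine le_of_forall_gt_imp_ge_of_dense fun L hL => norm_le_of_re_mul fun σ hσ => ?_
    have hl : HasDerivAt (fun w : ℂ => p + w * σ) σ ((0 : ℝ) : ℂ) := by
      simpa using ((hasDerivAt_id ((0 : ℝ) : ℂ)).mul_const σ).const_add p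
    have h2 : HasDerivAt (fun t : ℝ => g (p + t * σ)) (β * σ) 0 := by
      refine (HasDerivAt.comp_of_eq ((0 : ℝ) : ℂ) hg hl (by simp)).comp_ofReal
    have h3 : HasDerivAt (fun t : ℝ => -conj (g (p + t * σ))) (-conj (β * σ)) 0 :=
      (conjCLE.toContinuousLinearMap.hasFDerivAt.comp_hasDerivAt 0 h2).neg
    have h4 : HasDerivAt (fun t : ℝ => Φ (-conj (g (p + t * σ)))) (E * -conj (β * σ)) 0 := by
      have := (hΦ.hasFDerivAt.restrictScalars ℝ).comp_hasDerivAt_of_eq 0 h3 (by simp [hq'])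
      refine this.congr_deriv ?_
      simp [mul_comm]
    have h5 : HasDerivAt (fun t : ℝ => (Φ (-conj (g (p + t * σ)))).re) (E * -conj (β * σ)).re 0 :=
      reCLM.hasFDerivAt.comp_hasDerivAt 0 h4
    have h6 := (hasDerivAt_iff_tendsto_slope_zero.1 h5).mono_left (nhdsGT_le_nhdsNE 0)
    have h7 : Tendsto (fun t : ℝ => p + t * σ) (𝓝[>] 0) (𝓝[RHP] p) := by
      refine tendsto_nhdsWithin_iff.2 ⟨?_, ?_⟩
      · have : Continuous fun t : ℝ => p + t * σ := by fun_prop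
        simpa using tendsto_nhdsWithin_of_tendsto_nhds (s := Ioi 0) (this.tendsto 0)
      · filter_upwards [self_mem_nhdsWithin] with t ht
        refine add_mem_RHP hp ?_
        show 0 < ((t : ℂ) * σ).re
        simpa using mul_pos ht hσ
    have h8 : |(E * -conj (β * σ)).re| ≤ L * σ.re := by
      refine le_of_tendsto h6.abs ?_
      filter_upwards [h7.eventually (hkey L hL), self_mem_nhdsWithin] with t h9 ht
      have ht' : 0 < t := ht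
      simp only [zero_add, ofReal_zero, zero_mul, add_zero, smul_eq_mul]
      rw [← hq', h0, sub_zero, abs_mul, abs_of_pos (inv_pos.2 ht'), inv_mul_le_iff₀ ht']
      refine h9.trans (le_of_eq ?_)
      simp [hp]
      ring
    refine le_trans (le_of_eq ?_) h8
    rw [mul_neg, neg_re, abs_neg, ← conj_re (E * conj (β * σ)), map_mul, conj_conj, mul_assoc]
  rw [norm_mul, Complex.norm_conj, sq] at h1
  exact le_of_mul_le_mul_left h1 hE0

end Pool.Agent.Lib.MP_e968d9_an
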