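import Mathlib
import Pool.Agent.Lib.MP_e968d9_an.Local

/-!
A normal composition operator on the Hardy space of the half-plane has an affine symbol.
-/

set_option autoImplicit false

open Filter Topology Set MeasureTheory Complex
open scoped ENNReal Real ComplexConjugate

namespace Pool.Agent.Lib.MP_e968d9_an

lemma Asymp.unique {f : ℂ → ℂ} {a b : ℝ} (ha : Asymp f a) (hb : Asymp f b) : a = b := by
  have key : ∀ ε : ℝ, 0 < ε → |a - b| ≤ 2 * ε := by
    intro ε hε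
    obtain ⟨R₁, h₁⟩ := ha 1 one_pos ε hε
    obtain ⟨R₂, h₂⟩ := hb 1 one_pos ε hε
    set t : ℝ := max 1 (max R₁ R₂) with ht
    have ht0 : 0 < t := lt_of_lt_of_le one_pos (le_max_left _ _)
    have htm : (t : ℂ) ∈ RHP := ht0
    have htn : ‖(t : ℂ)‖ = t := by rw [Complex.norm_real, Real.norm_of_nonneg ht0.le]
    have e₁ := h₁ t htm (by rw [htn, ofReal_re, one_mul])
      (by rw [htn]; exact le_trans (le_max_left _ _) (le_max_right _ _))
    have e₂ := h₂ t htm (by rw [htn, ofReal_re, one_mul])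
      (by rw [htn]; exact le_trans (le_max_right _ _) (le_max_right _ _))
    have e₃ : (((a - b) * t : ℝ) : ℂ) = (f t - b * t) - (f t - a * t) := by
      push_cast
      ring
    have e₄ := norm_sub_le (f t - b * t) (f t - a * t)
    rw [← e₃, Complex.norm_real, Real.norm_eq_abs, abs_mul, abs_of_pos ht0] at e₄
    rw [htn] at e₁ e₂
    exact le_of_mul_le_mul_right (by linarith) ht0
  have h0 : |a - b| ≤ 0 := le_of_forall_pos_le_add fun ε hε => by
    have := key (ε / 2) (half_pos hε)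
    linarith
  exact sub_eq_zero.1 (abs_nonpos_iff.1 h0)

lemma caseA {φ Φ : ℂ → ℂ} (hd : DifferentiableOn ℂ φ RHP) (hm : MapsTo φ RHP RHP)
    (h : LeftInv φ Φ) {a : ℝ} (ha : 0 < a) (hre : ∀ z ∈ RHP, a * z.re ≤ (φ z).re)
    (hφ : Asymp φ a) (hΦ : MapsTo Φ RHP RHP) : ∃ c b : ℂ, ∀ z ∈ RHP, φ z = c * z + b := by
  obtain ⟨a', -, h1, -, h2⟩ := julia h.diff hΦ
  have h3 : a' = a⁻¹ := Asymp.unique h2 (h.asymp hm ha hre hφ)
  have h4 : ∀ z ∈ RHP, (φ z - a * z).re = 0 := by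
    intro z hz
    have e1 := h1 _ (hm hz)
    rw [h.left z hz, h3, inv_mul_le_iff₀ ha] at e1
    have e2 := hre z hz
    rw [sub_re, re_ofReal_mul]
    linarith
  have h5 : DifferentiableOn ℂ (fun z => φ z - a * z) RHP := hd.sub (by fun_prop)
  obtain ⟨b, hb⟩ := (h5.analyticOnNhd isOpen_RHP).eq_const_of_re_eq_const h4 isOpen_RHP
    ⟨⟨1, one_mem_RHP⟩, convex_RHP.isPreconnected⟩
  refine ⟨a, b, fun z hz => ?_⟩
  rw [← hb z hz]
  ring

lemma linear_of_euler {F : ℂ → ℂ} (hF : DifferentiableOn ℂ F RHP)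
    (h : ∀ z ∈ RHP, z * deriv F z = F z) : ∃ c : ℂ, ∀ z ∈ RHP, F z = c * z := by
  have h0 : ∀ z ∈ RHP, z ≠ 0 := fun z hz h0 => by
    have : 0 < z.re := hz
    rw [h0] at this
    simp at this
  obtain ⟨c, hc⟩ := isOpen_RHP.exists_is_const_of_deriv_eq_zero (f := fun z => F z / z)
    convex_RHP.isPreconnected (hF.div differentiableOn_id h0) (fun z hz => by
      have h1 := ((hF.differentiableAt (isOpen_RHP.mem_nhds hz)).hasDerivAt.div (hasDerivAt_id z)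
        (h0 z hz)).deriv
      refine h1.trans ?_
      rw [id, mul_one, mul_comm, h z hz]
      simp)
  exact ⟨c, fun z hz => (div_eq_iff (h0 z hz)).1 (hc z hz)⟩

lemma shift_diff {f : ℂ → ℂ} (hf : DifferentiableOn ℂ f RHP) {p : ℂ} (hp : p.re = 0) (w : ℂ) :
    DifferentiableOn ℂ (fun z => f (p + z) - w) RHP :=
  (hf.comp (by fun_prop) fun _ hz => add_mem_RHP hp hz).sub_const w

lemma shift_inj {f : ℂ → ℂ} (hf : InjOn f RHP) {p : ℂ} (hp : p.re = 0) (w : ℂ) :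
    InjOn (fun z => f (p + z) - w) RHP := fun _ hz _ hz' h =>
  add_left_cancel (hf (add_mem_RHP hp hz) (add_mem_RHP hp hz') (sub_left_injective h))

lemma caseB {φ Φ Φ₂ : ℂ → ℂ} (hd : DifferentiableOn ℂ φ RHP) (hm : MapsTo φ RHP RHP)
    (h : LeftInv φ Φ) (h₂ : LeftInv (fun z => φ (φ z)) Φ₂) {a : ℝ} (ha : 0 < a)
    (hre : ∀ z ∈ RHP, a * z.re ≤ (φ z).re) (hφ : Asymp φ a) {M₀ : ℝ}
    (hM : L2b (fun u => (φ u + 1)⁻¹) M₀) {q : ℂ} (hq : q ∈ RHP) (hp : (Φ q).re = 0) :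
    ∃ c b : ℂ, ∀ z ∈ RHP, φ z = c * z + b := by
  have hΦ₂ : ∀ z ∈ RHP, Φ₂ (φ z) = Φ z :=
    identity_comp (g₁ := fun z => Φ₂ (φ z)) hd hm (Hardy.not_const ha hre) (h₂.diff.comp hd hm)
      h.diff fun z hz => by rw [h₂.left z hz, h.left z hz]
  have hw : (Φ₂ q).re < 0 := by
    rcases lt_trichotomy (Φ₂ q).re 0 with h1 | h1 | h1
    · exact h1
    · exfalso
      obtain ⟨r, hr, hb⟩ := h.dist_pos hq
      have := neBot_RHP h1
      have h2 := (h.strict hq).hasDerivAt.continuousAt.tendsto.comp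
        (h₂.tendsto_boundary (hm.comp hm) hq)
      have h3 : Tendsto φ (𝓝[RHP] (Φ₂ q)) (𝓝 (Φ q)) := by
        refine h2.congr' ?_
        filter_upwards [self_mem_nhdsWithin] with y hy
        exact h.left _ (hm hy)
      have h4 := (h3.add_const (conj (Φ q))).norm
      rw [add_conj, hp] at h4
      have h5 := ge_of_tendsto h4 (eventually_mem_nhdsWithin.mono hb)
      simp at h5
      linarith
    · exfalso
      have h2 := h₂.inj (hm (hm h1)) hq (h₂.left _ h1)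
      have h3 : 0 < (φ (Φ₂ q)).re := hm h1
      rw [← h.left _ (hm h1), h2, hp] at h3
      exact lt_irrefl _ h3
  obtain ⟨ι, hι1, hι2, hι3⟩ := h.loc_inv hm hq
  have hg : HasDerivAt (fun y => Φ₂ (ι y)) (deriv Φ₂ q * (deriv Φ q)⁻¹) (Φ q) :=
    HasDerivAt.comp_of_eq (Φ q) (h₂.strict hq).hasDerivAt hι1 hι2.symm
  have hfg : ∀ᶠ y in 𝓝 (Φ q), y ∈ RHP → Φ y = Φ₂ (ι y) := by
    filter_upwards [hι3] with y hy hy'
    rw [← hy hy', hΦ₂ y hy']
  have hq' : -conj (Φ₂ (ι (Φ q))) ∈ RHP := by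
    show 0 < (-conj (Φ₂ (ι (Φ q)))).re
    rw [hι2]
    simpa using hw
  obtain ⟨hp', hβ⟩ := deriv_bound h hm hM hp hq' hg hfg
  set w₀ := Φ₂ (ι (Φ q)) with hw₀
  set q' := -conj w₀ with hq'def
  obtain ⟨ι', hι1', hι2', hι3'⟩ := h.loc_inv hm hq'
  have hE : 0 < ‖deriv Φ q'‖ := norm_pos_iff.2 (h.deriv_ne hq')
  have hF : Nice (fun z => φ (Φ q' + z) - q') a ‖(deriv Φ q')⁻¹‖ := by
    refine ⟨shift_diff hd hp' _, shift_inj (fun z hz z' hz' e => ?_) hp' _, ?_,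
      nearInf_of_asymp ha hφ hp' _, a, ha, ‖q'‖, fun z hz => ?_⟩
    · rw [← h.left z hz, e, h.left z' hz']
    · have := near0_of_deriv hp' hι1' hι3'
      rwa [hι2'] at this
    · have e1 := hre _ (add_mem_RHP hp' hz)
      rw [add_re, hp', zero_add] at e1
      have e2 := re_le_norm (φ (Φ q' + z))
      have e3 := norm_sub_norm_le (φ (Φ q' + z)) q'
      linarith
  have hG : Nice (fun z => Φ (Φ q + z) - w₀) a⁻¹ ‖deriv Φ₂ q * (deriv Φ q)⁻¹‖ := by
    obtain ⟨c, hc, C, hC⟩ := h.dom ha hφ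
    refine ⟨shift_diff h.diff hp _, shift_inj h.inj hp _, near0_of_deriv hp hg hfg,
      nearInf_of_asymp (inv_pos.2 ha) (h.asymp hm ha hre hφ) hp _, c, hc, C + ‖w₀‖,
      fun z hz => ?_⟩
    have e1 := hC _ (add_mem_RHP hp hz)
    rw [add_re, hp, zero_add] at e1
    have e3 := norm_sub_norm_le (Φ (Φ q + z)) w₀
    linarith
  have hrig := rigidity hF hG ha (inv_pos.2 ha) (norm_nonneg _) (norm_nonneg _) (by
    rw [norm_inv, mul_inv_cancel₀ ha.ne', inv_mul_le_iff₀ hE, mul_one]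
    exact hβ) (fun z hz w hw => by
    have e1 := h.ne _ (add_mem_RHP hp' hz) _ (add_mem_RHP hp hw)
    refine fun e2 => e1 ?_
    rw [← e2, hq'def, map_sub]
    ring)
  obtain ⟨c, hc⟩ := linear_of_euler hF.diff hrig
  refine ⟨c, q' - c * Φ q', fun y hy => ?_⟩
  have hy' : y - Φ q' ∈ RHP := by
    show 0 < (y - Φ q').re
    rw [sub_re, hp', sub_zero]
    exact hy
  have e1 := hc _ hy'
  rw [add_sub_cancel] at e1
  linear_combination e1

theorem affine_of_normal {φ : ℂ → ℂ} (hd : DifferentiableOn ℂ φ RHP) (hm : MapsTo φ RHP RHP)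
    {C : NNReal} (hC : ∀ f : ℂ → ℂ, DifferentiableOn ℂ f RHP → N f < ⊤ →
      N (fun z => f (φ z)) ≤ C * N f)
    (hN : ∀ (n : ℕ) (c a : Fin n → ℂ), (∀ i, 0 < (a i).re) →
      N (fun z => ∑ i, c i / (φ z + conj (a i))) = N (fun z => ∑ i, c i / (z + conj (φ (a i))))) :
    ∃ c b : ℂ, c ≠ 0 ∧ ∀ z ∈ RHP, φ z = c * z + b := by
  obtain ⟨⟨c₀, hc₀, hc₀'⟩, ⟨Φ, h⟩, Φ₂, h₂⟩ := extract hd hm hC hN
  obtain ⟨a, -, hre, hmax, hφ⟩ := julia hd hm
  have ha : 0 < a := lt_of_lt_of_le hc₀ (hmax c₀ hc₀')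
  have hmain : ∃ c b : ℂ, ∀ z ∈ RHP, φ z = c * z + b := by
    by_cases hΦ : MapsTo Φ RHP RHP
    · exact caseA hd hm h ha hre hφ hΦ
    · obtain ⟨ζ, hζ, hζ'⟩ : ∃ ζ ∈ RHP, (Φ ζ).re ≤ 0 := by
        by_contra hcon
        exact hΦ fun ζ hζ => not_le.1 fun h0 => hcon ⟨ζ, hζ, h0⟩
      obtain ⟨q, hq, hp⟩ := convex_RHP.isPreconnected.intermediate_value hζ (hm one_mem_RHP)
        (f := fun z => (Φ z).re) (continuous_re.comp_continuousOn h.diff.continuousOn)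
        (show (0 : ℝ) ∈ _ from ⟨hζ', by simp [h.left 1 one_mem_RHP]⟩)
      have h1 : (0 : ℝ) < (1 : ℂ).re := one_mem_RHP
      have h2 := differentiableOn_inv_add h1.le
      have h3 := (L2b_inv h1).N_le
      have h4 := hC _ h2 (lt_of_le_of_lt h3 ENNReal.ofReal_lt_top)
      have h5 := L2b_toReal (F := fun u => (φ u + 1)⁻¹) (h2.comp hd hm).continuousOn
        (lt_of_le_of_lt h4 (ENNReal.mul_lt_top ENNReal.coe_lt_top
          (lt_of_le_of_lt h3 ENNReal.ofReal_lt_top)))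
      exact caseB hd hm h h₂ ha hre hφ h5 hq hp
  obtain ⟨c, b, hcb⟩ := hmain
  refine ⟨c, b, fun h0 => Hardy.not_const ha hre ⟨b, fun z hz => ?_⟩, hcb⟩
  rw [hcb z hz, h0, zero_mul, zero_add]

end Pool.Agent.Lib.MP_e968d9_an
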