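import Mathlib
import Pool.Agent.Lib.MP_e968d9_an.Main

/-!
Transfer of the main theorem to an arbitrary Hilbert space realisation of the Hardy space.
-/

set_option autoImplicit false

open Filter Topology Set MeasureTheory Complex
open scoped ENNReal Real ComplexConjugate InnerProductSpace

namespace Pool.Agent.Lib.MP_e968d9_an

lemma affine_coeff {c b : ℂ} (hc : c ≠ 0) (h : ∀ z ∈ RHP, 0 < (c * z + b).re) :
    c.im = 0 ∧ 0 < c.re ∧ 0 ≤ b.re := by
  have h1 : ∀ t s : ℝ, 0 < t → 0 < c.re * t - c.im * s + b.re := by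
    intro t s ht
    simpa using h (t + s * I) (by simpa using ht)
  have h2 : c.im = 0 := by
    by_contra h0
    have := h1 1 ((c.re + b.re) / c.im) one_pos
    rw [mul_div_cancel₀ _ h0] at this
    linarith
  have h3 : c.re ≠ 0 := fun h0 => hc (Complex.ext h0 h2)
  have h4 : 0 < c.re := by
    refine lt_of_le_of_ne (not_lt.1 fun h0 => ?_) h3.symm
    have := h1 ((|b.re| + 1) / (-c.re)) 0 (div_pos (by positivity) (by linarith))
    rw [div_neg, mul_neg, mul_div_cancel₀ _ h3] at this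
    linarith [le_abs_self b.re]
  refine ⟨h2, h4, not_lt.1 fun h0 => ?_⟩
  have := h1 (-b.re / c.re) 0 (div_pos (by linarith) h4)
  rw [mul_div_cancel₀ _ h3] at this
  linarith

theorem affine_of_model {H : Type*} [NormedAddCommGroup H] [InnerProductSpace ℂ H]
    [CompleteSpace H] (ι : H →ₗ[ℂ] (ℂ → ℂ)) (hdiff : ∀ f, DifferentiableOn ℂ (ι f) RHP)
    (hnorm : ∀ f, N (ι f) = ENNReal.ofReal (‖f‖ ^ 2))
    (hsurj : ∀ F : ℂ → ℂ, DifferentiableOn ℂ F RHP → N F < ⊤ → ∃ f, ∀ z ∈ RHP, ι f z = F z)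
    {φ : ℂ → ℂ} (hd : DifferentiableOn ℂ φ RHP) (hm : MapsTo φ RHP RHP) {T : H →L[ℂ] H}
    (hT : ∀ f, ∀ z ∈ RHP, ι (T f) z = ι f (φ z)) (hn : IsStarNormal T) :
    ∃ (a : ℝ) (b : ℂ), 0 < a ∧ 0 ≤ b.re ∧ ∀ z ∈ RHP, φ z = a * z + b := by
  have hU : ∀ f : H, ∃ g : HS, ∀ v ∈ RHP, hardyModel.ev g v = ι f v := fun f => by
    obtain ⟨g, hg, -⟩ := hardyModel.exists_ev (hdiff f)
      (by rw [hnorm]; exact ENNReal.ofReal_lt_top)
    exact ⟨g, hg⟩
  choose U hU using hU
  let U' : H →ₗᵢ[ℂ] HS :=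
    { toFun := U
      map_add' := fun f g => hardyModel.ext_ev fun v hv => by
        rw [hardyModel.ev_add, hU _ v hv, hU _ v hv, hU _ v hv, map_add, Pi.add_apply]
      map_smul' := fun c f => hardyModel.ext_ev fun v hv => by
        rw [RingHom.id_apply, hardyModel.ev_smul, hU _ v hv, hU _ v hv, map_smul, Pi.smul_apply,
          smul_eq_mul]
      norm_map' := fun f => by
        have h1 := hardyModel.N_ev (U f)
        rw [N_congr (hU f), hnorm,
          ENNReal.ofReal_eq_ofReal_iff (by positivity) (by positivity)] at h1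
        exact ((sq_eq_sq₀ (norm_nonneg _) (norm_nonneg _)).1 h1).symm }
  have hk : ∀ w : RHP, ∃ k : H, ∀ z ∈ RHP, ι k z = (z + conj (w : ℂ))⁻¹ := fun w => by
    have hw : 0 < (conj (w : ℂ)).re := by
      rw [conj_re]
      exact w.2
    exact hsurj _ (differentiableOn_inv_add hw.le)
      (lt_of_le_of_lt (L2b_inv hw).N_le ENNReal.ofReal_lt_top)
  choose k hk using hk
  have hrep : ∀ (w : RHP) (f : H), ⟪k w, f⟫_ℂ = 2 * π * ι f w := fun w f => by
    have h1 : U' (k w) = hardyModel.k w := hardyModel.ext_ev fun v hv => by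
      rw [hardyModel.ev_k hv w.2]
      exact (hU _ v hv).trans (hk w v hv)
    rw [← U'.inner_map_map, h1, hardyModel.inner_eq]
    exact congrArg _ (hU f w w.2)
  have hadj : ∀ w : RHP, ContinuousLinearMap.adjoint T (k w) = k ⟨φ w, hm w.2⟩ := fun w => by
    refine ext_inner_right ℂ fun f => ?_
    rw [ContinuousLinearMap.adjoint_inner_left, hrep, hrep, hT f w w.2]
  obtain ⟨c, b, hc, hcb⟩ := affine_of_normal hd hm (C := ‖T‖₊ ^ 2) (fun F hF hF' => by
    obtain ⟨f, hf⟩ := hsurj F hF hF'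
    rw [← N_congr hf, ← N_congr (f := ι (T f)) (fun z hz => by rw [hT f z hz, hf _ (hm hz)]),
      hnorm, hnorm, ← ENNReal.ofReal_coe_nnreal, ← ENNReal.ofReal_mul (NNReal.coe_nonneg _)]
    refine ENNReal.ofReal_le_ofReal ?_
    rw [NNReal.coe_pow, coe_nnnorm, ← mul_pow]
    exact pow_le_pow_left₀ (norm_nonneg _) (T.le_opNorm f) 2) (fun n c a ha => by
    have h1 := ContinuousLinearMap.isStarNormal_iff_norm_eq_adjoint.1 hn
      (∑ i, c i • k ⟨a i, ha i⟩)
    have h2 : N (ι (T (∑ i, c i • k ⟨a i, ha i⟩))) =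
        N (fun z => ∑ i, c i / (φ z + conj (a i))) := N_congr fun z hz => by
      rw [hT _ z hz, map_sum, Finset.sum_apply]
      refine Finset.sum_congr rfl fun i _ => ?_
      rw [map_smul, Pi.smul_apply, hk _ _ (hm hz), smul_eq_mul, div_eq_mul_inv]
    have h3 : N (ι (ContinuousLinearMap.adjoint T (∑ i, c i • k ⟨a i, ha i⟩))) =
        N (fun z => ∑ i, c i / (z + conj (φ (a i)))) := N_congr fun z hz => by
      rw [map_sum, map_sum, Finset.sum_apply]
      refine Finset.sum_congr rfl fun i _ => ?_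
      rw [map_smul, map_smul, hadj, Pi.smul_apply, hk _ z hz, smul_eq_mul, div_eq_mul_inv]
    rw [← h2, ← h3, hnorm, hnorm, h1])
  obtain ⟨h1, h2, h3⟩ := affine_coeff (b := b) hc fun z hz => by
    rw [← hcb z hz]
    exact hm hz
  refine ⟨c.re, b, h2, h3, fun z hz => ?_⟩
  rw [hcb z hz, ← Complex.conj_eq_iff_re.1 (Complex.conj_eq_iff_im.2 h1), ofReal_re]

/-- Realisations as in `affine_of_model` exist. -/
theorem model_exists : ∃ ι : HS →ₗ[ℂ] (ℂ → ℂ), (∀ f, DifferentiableOn ℂ (ι f) RHP) ∧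
    (∀ f, N (ι f) = ENNReal.ofReal (‖f‖ ^ 2)) ∧
    ∀ F : ℂ → ℂ, DifferentiableOn ℂ F RHP → N F < ⊤ → ∃ f, ∀ z ∈ RHP, ι f z = F z := by
  refine ⟨{ toFun := hardyModel.ev
            map_add' := fun f g => funext fun v => hardyModel.ev_add f g v
            map_smul' := fun c f => funext fun v => hardyModel.ev_smul c f v },
    hardyModel.ev_diff, hardyModel.N_ev, fun F hF hF' => ?_⟩
  obtain ⟨f, hf, -⟩ := hardyModel.exists_ev hF hF'
  exact ⟨f, hf⟩

end Pool.Agent.Lib.MP_e968d9_an
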